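import Pool.Agent.helper24_TP.Bh
import Pool.Agent.H373R2.T7.LamZ2

set_option autoImplicit false

/-!
Counting functions of `c + b k + a k²`: monotonicity, and a grid.
-/

namespace Pool.Agent.helper24_TP

open Finset Polynomial Filter
open Pool.Agent.H300R2.BH (FF FF_eval SS rho pv lF)
open Pool.Agent.H373R2.T7 (Vz Vz_pos)

/-- the polynomial `c + b X + a X²` -/
noncomputable def Fp (a c b : ℕ) : ℤ[X] := FF (C (a : ℤ) * X ^ 2) 1 1 c b

lemma Fp_eval (a c b k : ℕ) : (Fp a c b).eval (k : ℤ) = ((c + a * k ^ 2 + b * k : ℕ) : ℤ) := by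
  unfold Fp
  rw [FF_eval]
  simp

lemma Fp_ge (a c b k : ℕ) (ha : 1 ≤ a) (hb : 1 ≤ b) (hc : 1 ≤ c) (hk : 1 ≤ k) :
    3 ≤ c + a * k ^ 2 + b * k := by
  have h1 : 1 ≤ a * k ^ 2 := Nat.mul_pos ha (by positivity)
  have h2 : 1 ≤ b * k := Nat.mul_pos hb hk
  omega

lemma log_ge_one (n : ℕ) (h : 3 ≤ n) : 1 ≤ Real.log n := by
  have h3 : (3 : ℝ) ≤ n := by exact_mod_cast h
  rw [Real.le_log_iff_exp_le (by linarith)]
  have := Real.exp_one_lt_d9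
  linarith

lemma lF_eq (a c b K : ℕ) (ha : 1 ≤ a) (hb : 1 ≤ b) (hc : 1 ≤ c) :
    lF (Fp a c b) K = ∑ k ∈ Icc 1 K, 1 / Real.log ((c + a * k ^ 2 + b * k : ℕ) : ℝ) := by
  unfold lF
  rw [filter_true_of_mem]
  · refine sum_congr rfl fun k _ => ?_
    rw [Fp_eval]
    push_cast
    rfl
  · intro k hk
    rw [mem_Icc] at hk
    rw [Fp_eval]
    have := Fp_ge a c b k ha hb hc hk.1
    have h2 : (3 : ℤ) ≤ ((c + a * k ^ 2 + b * k : ℕ) : ℤ) := by exact_mod_cast this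
    linarith

lemma pv_eq (a c b K : ℕ) : pv (Fp a c b) K =
    (((Icc 1 K).filter (fun k : ℕ => (c + a * k ^ 2 + b * k).Prime)).card : ℝ) := by
  unfold pv
  simp only [Fp_eval, Int.toNat_natCast]

lemma pv_mono (a c b : ℕ) {K K' : ℕ} (h : K ≤ K') : pv (Fp a c b) K ≤ pv (Fp a c b) K' := by
  rw [pv_eq, pv_eq]
  have : (Icc 1 K).filter (fun k : ℕ => (c + a * k ^ 2 + b * k).Prime) ⊆
      (Icc 1 K').filter (fun k : ℕ => (c + a * k ^ 2 + b * k).Prime) :=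
    filter_subset_filter _ (Icc_subset_Icc le_rfl h)
  exact_mod_cast card_le_card this

lemma pv_le (a c b K : ℕ) : 0 ≤ pv (Fp a c b) K ∧ pv (Fp a c b) K ≤ K := by
  rw [pv_eq]
  refine ⟨Nat.cast_nonneg _, ?_⟩
  have : ((Icc 1 K).filter (fun k : ℕ => (c + a * k ^ 2 + b * k).Prime)).card ≤ K := by
    refine (card_filter_le _ _).trans ?_
    rw [Nat.card_Icc]
    omega
  exact_mod_cast this

lemma term_bd (a c b k : ℕ) (ha : 1 ≤ a) (hb : 1 ≤ b) (hc : 1 ≤ c) (hk : 1 ≤ k) :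
    0 ≤ 1 / Real.log ((c + a * k ^ 2 + b * k : ℕ) : ℝ) ∧
      1 / Real.log ((c + a * k ^ 2 + b * k : ℕ) : ℝ) ≤ 1 := by
  have h := log_ge_one _ (Fp_ge a c b k ha hb hc hk)
  constructor
  · positivity
  · rw [div_le_one (by linarith)]
    exact h

lemma lF_diff (a c b : ℕ) (ha : 1 ≤ a) (hb : 1 ≤ b) (hc : 1 ≤ c) {K K' : ℕ} (h : K ≤ K') :
    lF (Fp a c b) K ≤ lF (Fp a c b) K' ∧ lF (Fp a c b) K' ≤ lF (Fp a c b) K + ((K' : ℝ) - K) := by
  rw [lF_eq a c b K ha hb hc, lF_eq a c b K' ha hb hc]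
  have hIcc : Icc 1 K' = Icc 1 K ∪ Ioc K K' := by
    ext k; simp only [mem_union, mem_Icc, mem_Ioc]; omega
  have hdisj : Disjoint (Icc 1 K) (Ioc K K') := by
    rw [disjoint_left]
    intro k hk hk2
    rw [mem_Icc] at hk; rw [mem_Ioc] at hk2; omega
  rw [hIcc, sum_union hdisj]
  constructor
  · have : 0 ≤ ∑ k ∈ Ioc K K', 1 / Real.log ((c + a * k ^ 2 + b * k : ℕ) : ℝ) :=
      sum_nonneg fun k hk => (term_bd a c b k ha hb hc (by rw [mem_Ioc] at hk; omega)).1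
    linarith
  · have : ∑ k ∈ Ioc K K', 1 / Real.log ((c + a * k ^ 2 + b * k : ℕ) : ℝ) ≤ (K' : ℝ) - K := by
      calc _ ≤ ∑ k ∈ Ioc K K', (1 : ℝ) :=
            sum_le_sum fun k hk => (term_bd a c b k ha hb hc (by rw [mem_Ioc] at hk; omega)).2
        _ = (K' : ℝ) - K := by
            rw [sum_const, Nat.card_Ioc, nsmul_eq_mul, mul_one, Nat.cast_sub h]
    linarith

lemma lF_le (a c b : ℕ) (ha : 1 ≤ a) (hb : 1 ≤ b) (hc : 1 ≤ c) (K : ℕ) :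
    0 ≤ lF (Fp a c b) K ∧ lF (Fp a c b) K ≤ K := by
  have h0 : lF (Fp a c b) 0 = 0 := by
    rw [lF_eq a c b 0 ha hb hc]
    simp
  have h1 := lF_diff a c b ha hb hc (Nat.zero_le K)
  rw [h0] at h1
  push_cast at h1
  constructor
  · exact h1.1
  · linarith [h1.2]

lemma SS_bd (z : ℕ) (F : ℤ[X]) : 0 ≤ SS z F ∧ SS z F ≤ (Vz z)⁻¹ := by
  have hV : Vz z = ∏ p ∈ (Icc 1 z).filter Nat.Prime, (1 - 1 / (p : ℝ)) := rfl
  have hf : ∀ p ∈ (Icc 1 z).filter Nat.Prime, 0 ≤ (1 - (rho F p : ℝ) / p) / (1 - 1 / (p : ℝ)) ∧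
      (1 - (rho F p : ℝ) / p) / (1 - 1 / (p : ℝ)) ≤ (1 - 1 / (p : ℝ))⁻¹ := by
    intro p hp
    rw [mem_filter] at hp
    have h2 : (2:ℝ) ≤ p := by exact_mod_cast hp.2.two_le
    have h1 : (rho F p : ℝ) ≤ p := by exact_mod_cast Pool.Agent.H300R2.BH.rho_le F p
    have h3 : (0:ℝ) ≤ rho F p := Nat.cast_nonneg _
    have h4 : 1 / (p:ℝ) ≤ 1 / 2 := one_div_le_one_div_of_le (by norm_num) h2
    have h5 : (0:ℝ) < 1 - 1 / (p:ℝ) := by linarith
    have h6 : (rho F p : ℝ) / p ≤ 1 := by rw [div_le_one (by linarith)]; exact h1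
    have h7 : 0 ≤ (rho F p : ℝ) / p := by positivity
    constructor
    · exact div_nonneg (by linarith) h5.le
    · rw [← one_div]
      exact div_le_div_of_nonneg_right (by linarith) h5.le
  unfold SS
  constructor
  · exact prod_nonneg fun p hp => (hf p hp).1
  · rw [hV, ← Finset.prod_inv_distrib]
    exact Finset.prod_le_prod (fun p hp => (hf p hp).1) fun p hp => (hf p hp).2

/-- a grid point below `y` -/
lemma grid (M y : ℕ) (hM : 1 ≤ M) (hy : M ≤ y) : ∃ j m : ℕ, j ≤ Nat.log 2 y ∧ M ≤ m ∧ m + 1 ≤ 2 * M ∧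
    m * 2 ^ j ≤ y ∧ y ≤ (m + 1) * 2 ^ j ∧ 2 ^ j * M ≤ y := by
  set j := Nat.log 2 (y / M) with hj
  have h1 : 1 ≤ y / M := (Nat.one_le_div_iff (by omega)).2 hy
  have h2 : 2 ^ j ≤ y / M := Nat.pow_log_le_self 2 (by omega)
  have h3 : y / M < 2 ^ (j + 1) := Nat.lt_pow_succ_log_self (by norm_num) _
  have h4 : 2 ^ j * M ≤ y := (Nat.le_div_iff_mul_le (by omega)).1 h2
  have h5 : y < 2 ^ (j + 1) * M := (Nat.div_lt_iff_lt_mul (by omega)).1 h3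
  have hj0 : 0 < 2 ^ j := by positivity
  refine ⟨j, y / 2 ^ j, ?_, ?_, ?_, ?_, ?_, h4⟩
  · exact Nat.log_mono_right (Nat.div_le_self y M)
  · rw [Nat.le_div_iff_mul_le hj0]
    linarith [mul_comm M (2 ^ j)]
  · have : y / 2 ^ j < 2 * M := by
      rw [Nat.div_lt_iff_lt_mul hj0]
      calc y < 2 ^ (j + 1) * M := h5
        _ = 2 * M * 2 ^ j := by ring
    omega
  · exact Nat.div_mul_le_self y (2 ^ j)
  · have := Nat.lt_mul_div_succ y hj0
    nlinarith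

/-- from the grid to all `y` -/
lemma interp (a c b : ℕ) (ha : 1 ≤ a) (hb : 1 ≤ b) (hc : 1 ≤ c) (S ε₁ V : ℝ) (hS0 : 0 ≤ S)
    (hSV : S ≤ V) {K K' y : ℕ} (h1 : K ≤ y) (h2 : y ≤ K')
    (e1 : |pv (Fp a c b) K - S * lF (Fp a c b) K| ≤ ε₁)
    (e2 : |pv (Fp a c b) K' - S * lF (Fp a c b) K'| ≤ ε₁) :
    |pv (Fp a c b) y - S * lF (Fp a c b) y| ≤ ε₁ + V * ((K' : ℝ) - K) := by
  have p1 := pv_mono a c b h1
  have p2 := pv_mono a c b h2
  have l1 := lF_diff a c b ha hb hc h1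
  have l2 := lF_diff a c b ha hb hc h2
  have l3 := lF_diff a c b ha hb hc (h1.trans h2)
  have e1' := abs_le.1 e1
  have e2' := abs_le.1 e2
  have hKK : (0 : ℝ) ≤ (K' : ℝ) - K := by
    have : (K : ℝ) ≤ K' := by exact_mod_cast h1.trans h2
    linarith
  have hd : S * (lF (Fp a c b) K' - lF (Fp a c b) K) ≤ V * ((K' : ℝ) - K) := by
    have h3 : lF (Fp a c b) K' - lF (Fp a c b) K ≤ (K' : ℝ) - K := by linarith [l3.2]
    have h4 : 0 ≤ lF (Fp a c b) K' - lF (Fp a c b) K := by linarith [l3.1]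
    exact mul_le_mul hSV h3 h4 (hS0.trans hSV)
  have m1 : S * lF (Fp a c b) K ≤ S * lF (Fp a c b) y := mul_le_mul_of_nonneg_left l1.1 hS0
  have m2 : S * lF (Fp a c b) y ≤ S * lF (Fp a c b) K' := mul_le_mul_of_nonneg_left l2.1 hS0
  rw [abs_le]
  constructor <;> nlinarith [e1'.1, e1'.2, e2'.1, e2'.2]

end Pool.Agent.helper24_TP
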