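import Pool.Agent.helper24_TP.An0

set_option autoImplicit false

/-!
The formula with the product over the primes `p ≤ z`, for almost all pairs `(b, c)` and for all `y`.
-/

namespace Pool.Agent.helper24_TP

open Finset Polynomial Filter
open Pool.Agent.H300R2.BH (FF FF_eval SS rho pv lF)
open Pool.Agent.H373R2.T7 (Vz Vz_pos Vz_inv_small)
open Pool.Agent.H442R2.EHI (evt_log_pow evt_log_ge)

theorem boxK (A U : ℕ) : ∃ E1 : ℕ, ∀ E : ℕ, E1 ≤ E → ∃ B H₀ : ℕ, ∀ H : ℕ, H₀ ≤ H → ∀ z : ℕ,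
    Real.log H ^ E ≤ z → (z : ℝ) ≤ Real.log H ^ (E + 1) → ∀ a D K : ℕ, 1 ≤ a →
    (H : ℝ) ≤ D * Real.log H ^ A → D ≤ H → Real.log H ^ B ≤ K → a * K * Real.log H ^ B ≤ H →
    ∑ c ∈ Ioc 0 H, ∑ b ∈ Ioc D (2 * D), |pv (Fp a c b) K - SS z (Fp a c b) * lF (Fp a c b) K| ≤
      H * D * K / Real.log H ^ U := by
  obtain ⟨E1', hE1⟩ := bhT (1 / 2) (by norm_num) (A + 1) U
  refine ⟨E1' + 1, fun E hE => ?_⟩
  obtain ⟨B1, x0, hb⟩ := hE1 (E + 1) (by omega)
  have hev : ∀ᶠ H : ℕ in atTop, x0 ≤ H ∧ 3 ≤ H ∧ 100 ≤ Real.log H ∧ 2 ^ E1' ≤ Real.log H ∧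
      2 ^ B1 ≤ Real.log H := by
    filter_upwards [eventually_ge_atTop x0, eventually_ge_atTop 3, evt_log_ge 100,
      evt_log_ge (2 ^ E1'), evt_log_ge (2 ^ B1)] with H g1 g2 g3 g4 g5
    exact ⟨g1, g2, g3, g4, g5⟩
  obtain ⟨H₀, hH₀⟩ := eventually_atTop.mp hev
  refine ⟨B1 + A + 3, H₀, fun H hH z hz1 hz2 a D K ha hHD hDH hK haK => ?_⟩
  obtain ⟨hx0, hH3, hL, hLE, hLB⟩ := hH₀ H hH
  set L := Real.log H with hLdef
  have hL0 : 0 < L := by linarith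
  have hL1 : 1 ≤ L := by linarith
  have hLp0 : ∀ n : ℕ, 0 < L ^ n := fun n => by positivity
  have hLp : ∀ n : ℕ, 1 ≤ L ^ n := fun n => one_le_pow₀ hL1
  have hLmono : ∀ m n : ℕ, m ≤ n → L ^ m ≤ L ^ n := fun m n h => pow_le_pow_right₀ hL1 h
  have hHr : (3:ℝ) ≤ H := by exact_mod_cast hH3
  have hH0 : (0:ℝ) < H := by linarith
  have hK1r : (1:ℝ) ≤ K := (hLp _).trans hK
  have hK0 : (0:ℝ) < K := by linarith
  have hK1 : 1 ≤ K := by exact_mod_cast hK1r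
  have har : (1:ℝ) ≤ a := by exact_mod_cast ha
  have ha0 : (0:ℝ) < a := by linarith
  have hDr : (D:ℝ) ≤ H := by exact_mod_cast hDH
  have hD0 : (0:ℝ) < D := by
    by_contra hcon
    push Not at hcon
    have : (D : ℝ) * L ^ A ≤ 0 := mul_nonpos_of_nonpos_of_nonneg hcon (hLp0 A).le
    linarith
  have hKH : K * L ^ (B1 + A + 3) ≤ H := by
    refine le_trans ?_ haK
    rw [mul_assoc]
    exact le_mul_of_one_le_left (by positivity) har
  have h4K : (4:ℝ) * K ≤ H := by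
    refine le_trans ?_ hKH
    rw [mul_comm]
    apply mul_le_mul_of_nonneg_left _ hK0.le
    calc (4:ℝ) ≤ L := by linarith
      _ = L ^ 1 := (pow_one L).symm
      _ ≤ _ := hLmono _ _ (by omega)
  -- `x`
  obtain ⟨x, hx⟩ : ∃ x, x = 4 * H * K := ⟨_, rfl⟩
  have hxr : (x:ℝ) = 4 * H * K := by rw [hx]; push_cast; ring
  have hHx : H ≤ x := by rw [hx]; nlinarith
  have hxH2 : (x:ℝ) ≤ (H:ℝ) ^ 2 := by rw [hxr]; nlinarith
  have hx0' : (0:ℝ) < x := by
    have : (H:ℝ) ≤ x := by exact_mod_cast hHx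
    linarith
  have hlx1 : L ≤ Real.log x := Real.log_le_log hH0 (by exact_mod_cast hHx)
  have hlx2 : Real.log x ≤ 2 * L := by
    have := Real.log_le_log hx0' hxH2
    rwa [Real.log_pow] at this
  have hlx0 : 0 < Real.log x := by linarith
  have hT : Real.log x ^ B1 ≤ L ^ (B1 + 1) := by
    calc Real.log x ^ B1 ≤ (2 * L) ^ B1 := by gcongr
      _ = 2 ^ B1 * L ^ B1 := by rw [mul_pow]
      _ ≤ L * L ^ B1 := by gcongr
      _ = L ^ (B1 + 1) := by ring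
  have hT0 : 0 < Real.log x ^ B1 := by positivity
  have haKT : (a:ℝ) * K * (L ^ (B1 + 1) * L ^ A) ≤ H / 4 := by
    have h1 : (a:ℝ) * K * (L ^ (B1 + 1) * L ^ A) * 4 ≤ a * K * L ^ (B1 + A + 3) := by
      have h2 : L ^ (B1 + A + 3) = L ^ (B1 + 1) * L ^ A * L ^ 2 := by ring
      rw [h2]
      have h3 : (4:ℝ) ≤ L ^ 2 := by nlinarith
      calc (a:ℝ) * K * (L ^ (B1 + 1) * L ^ A) * 4 ≤ (a:ℝ) * K * (L ^ (B1 + 1) * L ^ A) * L ^ 2 := by
            gcongr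
        _ = _ := by ring
    linarith
  have hA1 := hLp A
  have haKT1 : (a:ℝ) * K * Real.log x ^ B1 ≤ H := by
    have h1 : (a:ℝ) * K * Real.log x ^ B1 ≤ a * K * (L ^ (B1 + 1) * L ^ A) := by
      apply mul_le_mul_of_nonneg_left _ (by positivity)
      refine hT.trans ?_
      exact le_mul_of_one_le_right (hLp0 _).le hA1
    linarith
  have haKTD : (a:ℝ) * K * Real.log x ^ B1 ≤ D := by
    have h1 : ((a:ℝ) * K * L ^ (B1 + 1)) * L ^ A ≤ D * L ^ A := by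
      calc ((a:ℝ) * K * L ^ (B1 + 1)) * L ^ A = a * K * (L ^ (B1 + 1) * L ^ A) := by ring
        _ ≤ H / 4 := haKT
        _ ≤ H := by linarith
        _ ≤ D * L ^ A := hHD
    have h2 := le_of_mul_le_mul_right h1 (hLp0 A)
    refine le_trans ?_ h2
    gcongr
  have hKT1 : (K:ℝ) * Real.log x ^ B1 ≤ a * K * Real.log x ^ B1 := by
    rw [mul_assoc]
    exact le_mul_of_one_le_left (by positivity) har
  have hTK : Real.log x ^ B1 ≤ K := by
    refine hT.trans (le_trans (hLmono _ _ (by omega)) hK)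
  have haKH : a * K ≤ H := by
    have h1 : (a:ℝ) * K ≤ H := by
      have h2 : (a:ℝ) * K ≤ a * K * L ^ (B1 + A + 3) := le_mul_of_one_le_right (by positivity) (hLp _)
      linarith
    exact_mod_cast h1
  have hbox : Box x K D H 0 a (Real.log x ^ B1) := by
    refine ⟨?_, hTK, ?_, ?_, haKT1, haKTD, ?_, ?_⟩
    · have h1 : 2 * D * K ≤ 2 * H * K := Nat.mul_le_mul_right _ (by omega)
      have h2 : a * K ^ 2 ≤ H * K := by
        calc a * K ^ 2 = (a * K) * K := by ring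
          _ ≤ H * K := Nat.mul_le_mul_right _ haKH
      have h3 : H ≤ H * K := Nat.le_mul_of_pos_right _ hK1
      rw [hx]
      nlinarith
    · exact hKT1.trans haKT1
    · exact hKT1.trans haKTD
    · calc (D:ℝ) * Real.log x ^ B1 ≤ H * K := by gcongr
        _ = _ := by ring
    · calc (a:ℝ) * K * D * Real.log x ^ B1 = (a * K * Real.log x ^ B1) * D := by ring
        _ ≤ H * H := by gcongr
        _ = _ := by ring
  have h := hb x (hx0.trans hHx) z ?_ ?_ K D H 0 a hbox ?_ ?_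
  · rw [zero_add] at h
    refine le_trans h ?_
    apply div_le_div_of_nonneg_left (by positivity) (hLp0 U)
    gcongr
  · have h1 : (⌊Real.log x ^ E1'⌋₊ : ℝ) ≤ z := by
      refine (Nat.floor_le (by positivity)).trans ?_
      calc Real.log x ^ E1' ≤ (2 * L) ^ E1' := by gcongr
        _ = 2 ^ E1' * L ^ E1' := by rw [mul_pow]
        _ ≤ L * L ^ E1' := by gcongr
        _ = L ^ (E1' + 1) := by ring
        _ ≤ L ^ E := hLmono _ _ hE
        _ ≤ z := hz1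
    exact_mod_cast h1
  · refine hz2.trans ?_
    gcongr
  · calc (x:ℝ) = 4 * H * K := hxr
      _ ≤ 4 * (D * L ^ A) * K := by gcongr
      _ = D * K * (4 * L ^ A) := by ring
      _ ≤ D * K * (L * L ^ A) := by gcongr; linarith
      _ = D * K * L ^ (A + 1) := by ring
      _ ≤ D * K * Real.log x ^ (A + 1) := by gcongr
  · calc (x:ℝ) ^ (1 / 2 : ℝ) ≤ ((H:ℝ) ^ 2) ^ (1 / 2 : ℝ) := by gcongr
      _ = H := by
        rw [← Real.sqrt_eq_rpow, Real.sqrt_sq hH0.le]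

/-- few pairs are bad for one `K` and one box -/
lemma bad_one (a D K H z U C : ℕ) (L : ℝ) (hL : 0 < L) (hK : 1 ≤ K)
    (h : ∑ c ∈ Ioc 0 H, ∑ b ∈ Ioc D (2 * D), |pv (Fp a c b) K - SS z (Fp a c b) * lF (Fp a c b) K| ≤
      H * D * K / L ^ (U + C)) :
    (((Ioc D (2 * D) ×ˢ Ioc 0 H).filter (fun bc : ℕ × ℕ => (K : ℝ) / L ^ C <
      |pv (Fp a bc.2 bc.1) K - SS z (Fp a bc.2 bc.1) * lF (Fp a bc.2 bc.1) K|)).card : ℝ) ≤
      H * D / L ^ U := by
  have hK0 : (0:ℝ) < K := by exact_mod_cast hK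
  have hC0 : 0 < L ^ C := by positivity
  set G : ℕ × ℕ → ℝ := fun bc => |pv (Fp a bc.2 bc.1) K - SS z (Fp a bc.2 bc.1) * lF (Fp a bc.2 bc.1) K|
    with hG
  have h1 : ∑ bc ∈ Ioc D (2 * D) ×ˢ Ioc 0 H, G bc ≤ H * D * K / L ^ (U + C) := by
    rw [sum_product_right]
    exact h
  have h2 : (((Ioc D (2 * D) ×ˢ Ioc 0 H).filter (fun bc : ℕ × ℕ => (K : ℝ) / L ^ C < G bc)).card : ℝ) *
      (K / L ^ C) ≤ ∑ bc ∈ Ioc D (2 * D) ×ˢ Ioc 0 H, G bc := by
    calc _ = ∑ bc ∈ (Ioc D (2 * D) ×ˢ Ioc 0 H).filter (fun bc : ℕ × ℕ => (K : ℝ) / L ^ C < G bc),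
          ((K : ℝ) / L ^ C) := by rw [sum_const, nsmul_eq_mul]
      _ ≤ ∑ bc ∈ (Ioc D (2 * D) ×ˢ Ioc 0 H).filter (fun bc : ℕ × ℕ => (K : ℝ) / L ^ C < G bc), G bc :=
          sum_le_sum fun bc hbc => (mem_filter.1 hbc).2.le
      _ ≤ _ := sum_le_sum_of_subset_of_nonneg (filter_subset _ _) fun _ _ _ => abs_nonneg _
  have h3 := h2.trans h1
  have h4 : (H : ℝ) * D * K / L ^ (U + C) = (H * D / L ^ U) * (K / L ^ C) := by
    rw [pow_add]; field_simp
  rw [h4] at h3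
  exact le_of_mul_le_mul_right h3 (by positivity)

lemma log2_le (H : ℕ) (hH : 2 ≤ H) : (Nat.log 2 H : ℝ) ≤ 2 * Real.log H := by
  have h1 : ((2 ^ Nat.log 2 H : ℕ) : ℝ) ≤ H := by exact_mod_cast Nat.pow_log_le_self 2 (by omega)
  push_cast at h1
  have h2 := Real.log_le_log (by positivity) h1
  rw [Real.log_pow] at h2
  have h3 := Real.log_two_gt_d9
  have h4 : (0:ℝ) ≤ Nat.log 2 H := Nat.cast_nonneg _
  nlinarith

theorem analytic (A : ℕ) : ∃ E1 : ℕ, ∀ E : ℕ, E1 ≤ E → ∃ B H₀ : ℕ, ∀ H : ℕ, H₀ ≤ H → ∀ z : ℕ,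
    Real.log H ^ E ≤ z → (z : ℝ) ≤ Real.log H ^ (E + 1) → ∀ a : ℕ, 1 ≤ a →
    ∃ Ex : Finset (ℕ × ℕ), (Ex.card : ℝ) ≤ (H : ℝ) ^ 2 / Real.log H ^ A ∧
      ∀ b ∈ Icc 1 H, ∀ c ∈ Icc 1 H, (b, c) ∉ Ex → (H : ℝ) ≤ b * Real.log H ^ (A + 2) ∧
        ∀ y : ℕ, a * y * Real.log H ^ B ≤ H →
          |pv (Fp a c b) y - SS z (Fp a c b) * lF (Fp a c b) y| ≤ y / Real.log H ^ A + Real.log H ^ B := by
  classical
  obtain ⟨C, hC⟩ : ∃ C, C = A + 2 := ⟨_, rfl⟩
  obtain ⟨W, hW⟩ : ∃ W, W = 2 * A + 9 := ⟨_, rfl⟩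
  obtain ⟨E1, hE1⟩ := boxK (A + 2) (W + C)
  refine ⟨E1, fun E hE => ?_⟩
  obtain ⟨B1, H₁, hb⟩ := hE1 E hE
  obtain ⟨H₂, hV⟩ := Vz_inv_small (E + 1)
  obtain ⟨B, hB⟩ : ∃ B, B = B1 + A + 10 := ⟨_, rfl⟩
  have hev : ∀ᶠ H : ℕ in atTop, H₁ ≤ H ∧ H₂ ≤ H ∧ 3 ≤ H ∧ 100 ≤ Real.log H ∧
      Real.log H ^ (A + 1) ≤ (H : ℝ) ^ (1 : ℝ) := by
    filter_upwards [eventually_ge_atTop H₁, eventually_ge_atTop H₂, eventually_ge_atTop 3,
      evt_log_ge 100, evt_log_pow (A + 1) 1 (by norm_num)] with H g1 g2 g3 g4 g5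
    exact ⟨g1, g2, g3, g4, g5⟩
  obtain ⟨H₀, hH₀⟩ := eventually_atTop.mp hev
  refine ⟨B, H₀, fun H hH z hz1 hz2 a ha => ?_⟩
  obtain ⟨hH1, hH2, hH3, hL, hLH⟩ := hH₀ H hH
  have hb' := hb H hH1 z hz1 hz2
  rw [Real.rpow_one] at hLH
  set L := Real.log H with hLdef
  have hL0 : 0 < L := by linarith
  have hL1 : 1 ≤ L := by linarith
  have hLp0 : ∀ n : ℕ, 0 < L ^ n := fun n => by positivity
  have hLp : ∀ n : ℕ, 1 ≤ L ^ n := fun n => one_le_pow₀ hL1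
  have hLmono : ∀ m n : ℕ, m ≤ n → L ^ m ≤ L ^ n := fun m n h => pow_le_pow_right₀ hL1 h
  have hHr : (3:ℝ) ≤ H := by exact_mod_cast hH3
  have hH0 : (0:ℝ) < H := by linarith
  have har : (1:ℝ) ≤ a := by exact_mod_cast ha
  have ha0 : (0:ℝ) < a := by linarith
  have hz1' : 1 ≤ z := by
    have : (1 : ℝ) ≤ z := (hLp E).trans hz1
    exact_mod_cast this
  have hVL : (Vz z)⁻¹ ≤ L := hV H hH2 z hz1' hz2
  -- `D0`, `J`, `M`
  set D0 := ⌊(H:ℝ) / L ^ (A + 1)⌋₊ with hD0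
  have hD0le : (D0:ℝ) ≤ H / L ^ (A + 1) := Nat.floor_le (by positivity)
  have hD01 : 1 ≤ D0 := by
    apply Nat.le_floor
    rw [Nat.cast_one, le_div_iff₀ (hLp0 _), one_mul]
    exact hLH
  have hD0r : (1:ℝ) ≤ D0 := by exact_mod_cast hD01
  have hD0ge : (H:ℝ) ≤ D0 * L ^ (A + 2) := by
    have h1 : (H:ℝ) / L ^ (A + 1) < D0 + 1 := Nat.lt_floor_add_one _
    have h2 : (H:ℝ) / L ^ (A + 1) ≤ D0 * L := by nlinarith
    calc (H:ℝ) = (H / L ^ (A + 1)) * L ^ (A + 1) := by field_simp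
      _ ≤ (D0 * L) * L ^ (A + 1) := by gcongr
      _ = D0 * L ^ (A + 2) := by ring
  set J := Nat.log 2 H with hJ
  have hJle : (J:ℝ) ≤ 2 * L := log2_le H (by omega)
  set M := ⌈L ^ (A + 3)⌉₊ with hM
  have hMge : L ^ (A + 3) ≤ M := Nat.le_ceil _
  have hMle : (M:ℝ) ≤ 2 * L ^ (A + 3) := by
    have := Nat.ceil_lt_add_one (show 0 ≤ L ^ (A + 3) by positivity)
    rw [← hM] at this
    linarith [hLp (A + 3)]
  have hM1 : 1 ≤ M := by
    have : (1:ℝ) ≤ M := (hLp _).trans hMge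
    exact_mod_cast this
  -- the error
  set G : ℕ → ℕ × ℕ → ℝ := fun K bc =>
    |pv (Fp a bc.2 bc.1) K - SS z (Fp a bc.2 bc.1) * lF (Fp a bc.2 bc.1) K| with hG
  set T : ℕ × ℕ × ℕ → Finset (ℕ × ℕ) := fun t =>
    ((Ioc (2 ^ t.2.2 * D0) (2 * (2 ^ t.2.2 * D0)) ×ˢ Ioc 0 H).filter (fun bc : ℕ × ℕ =>
      (L ^ B1 ≤ ((t.1 * 2 ^ t.2.1 : ℕ) : ℝ) ∧ a * ((t.1 * 2 ^ t.2.1 : ℕ) : ℝ) * L ^ B1 ≤ H ∧
        2 ^ t.2.2 * D0 ≤ H) ∧ ((t.1 * 2 ^ t.2.1 : ℕ) : ℝ) / L ^ C < G (t.1 * 2 ^ t.2.1) bc)) with hT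
  set I := (Icc M (2 * M)) ×ˢ ((range (J + 1)) ×ˢ (range (J + 1))) with hI
  have hTc : ∀ t ∈ I, ((T t).card : ℝ) ≤ (H:ℝ) ^ 2 / L ^ W := by
    intro t ht
    by_cases hcond : (L ^ B1 ≤ ((t.1 * 2 ^ t.2.1 : ℕ) : ℝ) ∧
        a * ((t.1 * 2 ^ t.2.1 : ℕ) : ℝ) * L ^ B1 ≤ H ∧ 2 ^ t.2.2 * D0 ≤ H)
    · obtain ⟨c1, c2, c3⟩ := hcond
      obtain ⟨D, hD⟩ : ∃ D, D = 2 ^ t.2.2 * D0 := ⟨_, rfl⟩
      obtain ⟨K, hK⟩ : ∃ K, K = t.1 * 2 ^ t.2.1 := ⟨_, rfl⟩
      have hDD0 : D0 ≤ D := by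
        rw [hD]
        exact Nat.le_mul_of_pos_left _ (by positivity)
      rw [← hK] at c1 c2
      rw [← hD] at c3
      have hK1 : 1 ≤ K := by
        have : (1:ℝ) ≤ K := (hLp _).trans c1
        exact_mod_cast this
      have h1 := bad_one a D K H z W C L hL0 hK1 (hb' a D K ha (by
        refine hD0ge.trans ?_
        gcongr) c3 c1 c2)
      have hsub : T t ⊆ (Ioc D (2 * D) ×ˢ Ioc 0 H).filter (fun bc : ℕ × ℕ => (K : ℝ) / L ^ C <
          |pv (Fp a bc.2 bc.1) K - SS z (Fp a bc.2 bc.1) * lF (Fp a bc.2 bc.1) K|) := by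
        intro bc hbc
        rw [hT] at hbc
        simp only [mem_filter] at hbc ⊢
        rw [hD, hK]
        exact ⟨hbc.1, hbc.2.2⟩
      calc ((T t).card : ℝ) ≤ _ := by exact_mod_cast card_le_card hsub
        _ ≤ H * D / L ^ W := h1
        _ ≤ H * H / L ^ W := by
            have : (D:ℝ) ≤ H := by exact_mod_cast c3
            gcongr
        _ = _ := by ring
    · have : T t = ∅ := by
        rw [hT]
        simp only
        rw [filter_eq_empty_iff]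
        intro bc _ hbc
        exact hcond hbc.1
      rw [this, card_empty]
      push_cast
      positivity
  set Ex1 : Finset (ℕ × ℕ) := Icc 1 D0 ×ˢ Icc 1 H with hEx1
  set Ex2 : Finset (ℕ × ℕ) := I.biUnion T with hEx2
  refine ⟨Ex1 ∪ Ex2, ?_, ?_⟩
  · -- the size
    have h1 : (Ex1.card : ℝ) ≤ (H:ℝ) ^ 2 / L ^ (A + 1) := by
      rw [hEx1, card_product, Nat.card_Icc, Nat.card_Icc, Nat.add_sub_cancel, Nat.add_sub_cancel]
      push_cast
      calc (D0:ℝ) * H ≤ (H / L ^ (A + 1)) * H := by gcongr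
        _ = _ := by ring
    have hIc : (I.card : ℝ) ≤ L ^ (A + 7) := by
      rw [hI, card_product, card_product, Nat.card_Icc, card_range]
      have e1 : 2 * M + 1 - M = M + 1 := by omega
      rw [e1]
      push_cast
      have h2 : (M:ℝ) + 1 ≤ 3 * L ^ (A + 3) := by linarith [hLp (A + 3)]
      have h3 : (J:ℝ) + 1 ≤ 3 * L := by linarith
      calc ((M:ℝ) + 1) * (((J:ℝ) + 1) * ((J:ℝ) + 1)) ≤ (3 * L ^ (A + 3)) * ((3 * L) * (3 * L)) := by
            gcongr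
        _ = 27 * (L ^ (A + 3) * L ^ 2) := by ring
        _ ≤ L ^ 2 * (L ^ (A + 3) * L ^ 2) := by
            gcongr
            nlinarith
        _ = L ^ (A + 7) := by ring
    have h2 : (Ex2.card : ℝ) ≤ (H:ℝ) ^ 2 / L ^ (A + 1) := by
      calc (Ex2.card : ℝ) ≤ ∑ t ∈ I, ((T t).card : ℝ) := by
            rw [hEx2]
            exact_mod_cast card_biUnion_le
        _ ≤ ∑ t ∈ I, (H:ℝ) ^ 2 / L ^ W := sum_le_sum hTc
        _ = I.card * ((H:ℝ) ^ 2 / L ^ W) := by rw [sum_const, nsmul_eq_mul]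
        _ ≤ L ^ (A + 7) * ((H:ℝ) ^ 2 / L ^ W) := by gcongr
        _ = (H:ℝ) ^ 2 / L ^ (A + 2) := by
            rw [hW, show 2 * A + 9 = (A + 7) + (A + 2) by ring, pow_add L (A + 7)]
            field_simp
        _ ≤ _ := by
            apply div_le_div_of_nonneg_left (by positivity) (hLp0 _) (hLmono _ _ (by omega))
    calc ((Ex1 ∪ Ex2).card : ℝ) ≤ (Ex1.card : ℝ) + Ex2.card := by exact_mod_cast card_union_le _ _
      _ ≤ (H:ℝ) ^ 2 / L ^ (A + 1) + (H:ℝ) ^ 2 / L ^ (A + 1) := add_le_add h1 h2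
      _ = ((H:ℝ) ^ 2 / L ^ A) * (2 / L) := by rw [pow_succ L A]; field_simp; norm_num
      _ ≤ ((H:ℝ) ^ 2 / L ^ A) * 1 := by
          apply mul_le_mul_of_nonneg_left _ (by positivity)
          rw [div_le_one hL0]
          linarith
      _ = _ := mul_one _
  · intro b hb1 c hc1 hbc
    rw [mem_union, not_or] at hbc
    obtain ⟨n1, n2⟩ := hbc
    rw [mem_Icc] at hb1 hc1
    have hbD : D0 < b := by
      by_contra hcon
      push Not at hcon
      apply n1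
      rw [hEx1, mem_product, mem_Icc, mem_Icc]
      exact ⟨⟨hb1.1, hcon⟩, hc1⟩
    have hbDr : (D0:ℝ) ≤ b := by exact_mod_cast hbD.le
    refine ⟨hD0ge.trans (by gcongr), fun y hy => ?_⟩
    obtain ⟨S0, S1⟩ := SS_bd z (Fp a c b)
    have hSL : SS z (Fp a c b) ≤ L := S1.trans hVL
    have hy0 : (0:ℝ) ≤ y := Nat.cast_nonneg _
    by_cases hyB : (y:ℝ) ≤ L ^ (B - 2)
    · -- small `y`
      have p1 := pv_le a c b y
      have p2 := lF_le a c b ha hb1.1 hc1.1 y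
      have h1 : |pv (Fp a c b) y - SS z (Fp a c b) * lF (Fp a c b) y| ≤ y + L * y := by
        have h2 : 0 ≤ SS z (Fp a c b) * lF (Fp a c b) y := mul_nonneg S0 p2.1
        have h3 : SS z (Fp a c b) * lF (Fp a c b) y ≤ L * y := mul_le_mul hSL p2.2 p2.1 hL0.le
        have h4 : 0 ≤ L * y := by positivity
        rw [abs_le]
        constructor <;> linarith [p1.1, p1.2]
      refine h1.trans ?_
      have h5 : (y:ℝ) + L * y ≤ L ^ B := by
        calc (y:ℝ) + L * y ≤ L * y + L * y := by nlinarith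
          _ = 2 * L * y := by ring
          _ ≤ L * L * L ^ (B - 2) := by
              gcongr
              linarith
          _ = L ^ B := by
              rw [show B = (B - 2) + 2 by omega, Nat.add_sub_cancel]; ring
      have h6 : 0 ≤ (y:ℝ) / L ^ A := by positivity
      linarith
    · push Not at hyB
      have hMy : M ≤ y := by
        have h1 : (M:ℝ) ≤ y := by
          refine le_trans ?_ hyB.le
          calc (M:ℝ) ≤ 2 * L ^ (A + 3) := hMle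
            _ ≤ L * L ^ (A + 3) := by gcongr; linarith
            _ = L ^ (A + 4) := by ring
            _ ≤ L ^ (B - 2) := hLmono _ _ (by omega)
        exact_mod_cast h1
      have hyH : y ≤ H := by
        have h1 : (y:ℝ) ≤ H := by
          refine le_trans ?_ hy
          rw [mul_comm (a:ℝ) y, mul_assoc]
          exact le_mul_of_one_le_right hy0 (one_le_mul_of_one_le_of_one_le har (hLp _))
        exact_mod_cast h1
      obtain ⟨j, m, g1, g2, g3, g4, g5, g6⟩ := grid M y hM1 hMy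
      have hjJ : j ≤ J := g1.trans (Nat.log_mono_right hyH)
      have h2j : (2:ℝ) ^ j * M ≤ y := by exact_mod_cast g6
      have h2j0 : (0:ℝ) < 2 ^ j := by positivity
      -- the range of `b`
      obtain ⟨i, hi, hi1, hi2⟩ : ∃ i, i ≤ J ∧ 2 ^ i * D0 < b ∧ b ≤ 2 * (2 ^ i * D0) := by
        set i := Nat.log 2 ((b - 1) / D0) with hidef
        have q1 : 1 ≤ (b - 1) / D0 := (Nat.one_le_div_iff (by omega)).2 (by omega)
        have q2 : 2 ^ i ≤ (b - 1) / D0 := Nat.pow_log_le_self 2 (by omega)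
        have q3 : (b - 1) / D0 < 2 ^ (i + 1) := Nat.lt_pow_succ_log_self (by norm_num) _
        have q4 : 2 ^ i * D0 ≤ b - 1 := (Nat.le_div_iff_mul_le (by omega)).1 q2
        have q5 : b - 1 < 2 ^ (i + 1) * D0 := (Nat.div_lt_iff_lt_mul (by omega)).1 q3
        refine ⟨i, ?_, by omega, ?_⟩
        · apply Nat.log_mono_right
          exact (Nat.div_le_self _ _).trans (by omega)
        · have : 2 ^ (i + 1) * D0 = 2 * (2 ^ i * D0) := by ring
          omega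
      have hgood : ∀ m' : ℕ, M ≤ m' → m' ≤ 2 * M → L ^ B1 ≤ ((m' * 2 ^ j : ℕ) : ℝ) →
          a * ((m' * 2 ^ j : ℕ) : ℝ) * L ^ B1 ≤ H →
          |pv (Fp a c b) (m' * 2 ^ j) - SS z (Fp a c b) * lF (Fp a c b) (m' * 2 ^ j)| ≤
            ((m' * 2 ^ j : ℕ) : ℝ) / L ^ C := by
        intro m' k1 k2 k3 k4
        by_contra hcon
        push Not at hcon
        apply n2
        rw [hEx2, mem_biUnion]
        refine ⟨(m', j, i), ?_, ?_⟩
        · rw [hI, mem_product, mem_product, mem_Icc, mem_range, mem_range]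
          exact ⟨⟨k1, k2⟩, by simp only; omega, by simp only; omega⟩
        · rw [hT]
          simp only [mem_filter, mem_product, mem_Ioc]
          exact ⟨⟨⟨hi1, hi2⟩, by omega, hc1.2⟩, ⟨k3, k4, by omega⟩, hcon⟩
      -- sizes of the grid points
      have hKr : ((m * 2 ^ j : ℕ) : ℝ) ≤ y := by exact_mod_cast g4
      have hK'r : (y:ℝ) ≤ (((m + 1) * 2 ^ j : ℕ) : ℝ) := by exact_mod_cast g5
      have e1 : (((m + 1) * 2 ^ j : ℕ) : ℝ) = ((m * 2 ^ j : ℕ) : ℝ) + 2 ^ j := by push_cast; ring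
      have hM1r : (1:ℝ) ≤ M := by exact_mod_cast hM1
      have h2jy : (2:ℝ) ^ j ≤ y := by nlinarith
      have h2jK : (2:ℝ) ^ j ≤ ((m * 2 ^ j : ℕ) : ℝ) := by
        have : 1 ≤ m := by omega
        have h1 : 2 ^ j ≤ m * 2 ^ j := Nat.le_mul_of_pos_left _ (by omega)
        exact_mod_cast h1
      have hKlow : L ^ B1 ≤ ((m * 2 ^ j : ℕ) : ℝ) := by
        have h1 : (y:ℝ) ≤ 2 * ((m * 2 ^ j : ℕ) : ℝ) := by linarith
        have h2 : 2 * L ^ B1 ≤ L ^ (B - 2) := by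
          calc 2 * L ^ B1 ≤ L * L ^ B1 := by gcongr; linarith
            _ = L ^ (B1 + 1) := by ring
            _ ≤ _ := hLmono _ _ (by omega)
        linarith
      have hK'up : a * (((m + 1) * 2 ^ j : ℕ) : ℝ) * L ^ B1 ≤ H := by
        have h1 : (((m + 1) * 2 ^ j : ℕ) : ℝ) ≤ 2 * y := by linarith
        calc a * (((m + 1) * 2 ^ j : ℕ) : ℝ) * L ^ B1 ≤ a * (2 * y) * L ^ B1 := by gcongr
          _ = a * y * (2 * L ^ B1) := by ring
          _ ≤ a * y * (L * L ^ B1) := by gcongr; linarith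
          _ = a * y * L ^ (B1 + 1) := by ring
          _ ≤ a * y * L ^ B := by
              apply mul_le_mul_of_nonneg_left (hLmono _ _ (by omega)) (by positivity)
          _ ≤ H := hy
      have hKup : a * ((m * 2 ^ j : ℕ) : ℝ) * L ^ B1 ≤ H := by
        refine le_trans ?_ hK'up
        rw [e1]
        gcongr
        linarith
      have hK'low : L ^ B1 ≤ (((m + 1) * 2 ^ j : ℕ) : ℝ) := by rw [e1]; linarith
      have a1 := hgood m g2 (by omega) hKlow hKup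
      have a2 := hgood (m + 1) (by omega) g3 hK'low hK'up
      have hε : ((m * 2 ^ j : ℕ) : ℝ) / L ^ C ≤ 2 * y / L ^ C := by
        gcongr
        linarith
      have hε' : (((m + 1) * 2 ^ j : ℕ) : ℝ) / L ^ C ≤ 2 * y / L ^ C := by
        gcongr
        linarith
      have key := interp a c b ha hb1.1 hc1.1 (SS z (Fp a c b)) (2 * y / L ^ C) L S0 hSL g4 g5
        (a1.trans hε) (a2.trans hε')
      refine key.trans ?_
      have e2 : (((m + 1) * 2 ^ j : ℕ) : ℝ) - ((m * 2 ^ j : ℕ) : ℝ) = 2 ^ j := by rw [e1]; ring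
      rw [e2]
      have h7 : L * (2:ℝ) ^ j ≤ y / L ^ C := by
        rw [le_div_iff₀ (hLp0 _)]
        calc L * (2:ℝ) ^ j * L ^ C = 2 ^ j * L ^ (A + 3) := by rw [hC]; ring
          _ ≤ 2 ^ j * M := by gcongr
          _ ≤ y := h2j
      have h8 : 3 * (y:ℝ) / L ^ C ≤ y / L ^ A := by
        rw [hC, div_le_div_iff₀ (hLp0 _) (hLp0 _), pow_add]
        have h9 : (3:ℝ) ≤ L ^ 2 := by nlinarith
        calc 3 * (y:ℝ) * L ^ A = y * L ^ A * 3 := by ring
          _ ≤ y * L ^ A * L ^ 2 := by gcongr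
          _ = _ := by ring
      have h9 : 2 * (y:ℝ) / L ^ C + y / L ^ C = 3 * (y:ℝ) / L ^ C := by ring
      have h10 := hLp0 B
      linarith

end Pool.Agent.helper24_TP
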