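import Pool.Agent.helper24_TP.Gen
import Pool.Agent.helper24_TP.Core
import Pool.Agent.H300R2.FB.BHG

set_option autoImplicit false

/-!
From the second moment to the Bateman-Horn asymptotic formula (adapted from H300R2.FB.BHR, for a
polynomial `R` of degree at most `J`).
-/

namespace Pool.Agent.helper24_TP

open Finset Polynomial Filter
open Pool.Agent.H469R2.NK (e norm_e e_add conj_e e_zero)
open Pool.Agent.H442R2.EHI (norm_add_sq_le evt_log_pow evt_log_ge ff gg ff_fourier ff_sq ff_bound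
  ff_zero_of_gt)
open Pool.Agent.H465R2.BH (modelP)
open Pool.Agent.H475R2.BH (gq_eq)
open Pool.Agent.H300R2.BH (FourierHyp fz FF FF_eval SS GG GG_abs SS_abs pv lF)

theorem bhR (j J : ℕ) (hj : 1 ≤ j) (hjJ : j ≤ J) (ε : ℝ) (hε : 0 < ε) (U V E1 E : ℕ)
    (hE1 : 8 * J + 2 * (U + 3) + 8 ≤ E1) (hE : E1 ≤ E) :
    ∃ B x0 : ℕ, ∀ x : ℕ, x0 ≤ x → ∀ z : ℕ, ⌊Real.log x ^ E1⌋₊ ≤ z → (z : ℝ) ≤ Real.log x ^ E →
    ∀ (K D A a0 : ℕ) (R : ℤ[X]) (σ : ℤ) (M : ℝ), R.natDegree ≤ J → (σ = 1 ∨ σ = -1) →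
    Real.log x ^ B ≤ K → (x : ℝ) ^ ε ≤ A → A ≤ x → Real.log x ^ B ≤ D → 0 ≤ M →
    K * M ≤ x * Real.log x ^ V →
    (∀ a ∈ Ioc a0 (a0 + A), ∀ d ∈ Ioc D (2 * D), ∀ k ∈ Icc 1 K,
      (FF R j σ a d).eval (k : ℤ) ≤ x) →
    (∀ a ∈ Ioc a0 (a0 + A), ∀ d ∈ Ioc D (2 * D), ∀ k ∈ Ioc ⌊(K:ℝ) / Real.log x ^ (U + 4)⌋₊ K,
      x / Real.log x ^ V ≤ (((FF R j σ a d).eval (k : ℤ) : ℤ) : ℝ)) →
    (∀ a ∈ Ioc a0 (a0 + A), ∀ d ∈ Ioc D (2 * D), ∀ k ∈ Icc 1 K, k + 1 ∈ Icc 1 K →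
      |(((FF R j σ a d).eval ((k + 1 : ℕ) : ℤ) : ℤ) : ℝ) - (((FF R j σ a d).eval (k : ℤ) : ℤ) : ℝ)|
        ≤ M) →
    ∑ a ∈ Ioc a0 (a0 + A), ∑ d ∈ Ioc D (2 * D),
      |pv (FF R j σ a d) K - SS z (FF R j σ a d) * lF (FF R j σ a d) K| ≤
      A * D * K / Real.log x ^ (U + 1) +
      ∑ a ∈ Ioc a0 (a0 + A), ∑ d ∈ Ioc D (2 * D),
        ‖∑ k ∈ Ioc ⌊(K:ℝ) / Real.log x ^ (U + 4)⌋₊ K,
          fz (ff x ⌊Real.log x ^ E1⌋₊) ((FF R j σ a d).eval (k : ℤ))‖ := by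
  classical
  set E2 := U + 4 with hE2
  obtain ⟨B2, x2, hsing⟩ := sing j J hj hjJ ε hε (U + 3) E1 E hE1 hE
  obtain ⟨x3, hggm⟩ := gg_mean j J hj hjJ ε hε E1
  have hev : ∀ᶠ x : ℕ in atTop, x2 ≤ x ∧ x3 ≤ x ∧ 3 ≤ x ∧
      1000 * (j + 1) ≤ Real.log x ∧
      Real.log x ^ (2 * E1 + 2 * V + E2 + 4) ≤ (x : ℝ) ^ ε ∧
      Real.log x ^ (V + 2) ≤ (x:ℝ) ^ (1:ℝ) := by
    filter_upwards [eventually_ge_atTop (max x2 x3), eventually_ge_atTop 3,
      evt_log_ge (1000 * (j + 1)),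
      evt_log_pow (2 * E1 + 2 * V + E2 + 4) ε hε,
      evt_log_pow (V + 2) 1 (by norm_num)]
      with x h1 h2 h3 h5 h7
    exact ⟨(le_max_left _ _).trans h1, (le_max_right _ _).trans h1, h2, h3, h5, h7⟩
  obtain ⟨x0, hx0⟩ := eventually_atTop.mp hev
  refine ⟨B2 + (2 * E1 + 2 * V + E2 + 4), x0, fun x hx z hQz hzle K D A a0 R σ M hRj hσ hxK hxA hAxn hLBD' hM0 hKM hubF hvalF
    hvarF => ?_⟩
  obtain ⟨hx2, hx3, hx3', hL, hLε, hLy⟩ := hx0 x hx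
  set L := Real.log x with hLdef
  have hj1 : (1:ℝ) ≤ j := by exact_mod_cast hj
  have hL1000 : (1000:ℝ) ≤ L := by nlinarith
  have hL0 : 0 < L := by linarith
  have hL1 : 1 ≤ L := by linarith
  have hLp0 : ∀ n : ℕ, 0 < L ^ n := fun n => by positivity
  have hLp : ∀ n : ℕ, 1 ≤ L ^ n := fun n => one_le_pow₀ hL1
  have hLmono : ∀ m n : ℕ, m ≤ n → L ^ m ≤ L ^ n := fun m n h => pow_le_pow_right₀ hL1 h
  have hxr : (3:ℝ) ≤ x := by exact_mod_cast hx3'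
  have hx0' : (0:ℝ) < x := by linarith
  rw [Real.rpow_one] at hLy
  have hAx : (A:ℝ) ≤ x := by exact_mod_cast hAxn
  have hLBD : L ^ B2 ≤ D := (hLmono _ _ (by omega)).trans hLBD'
  have hLK : L ^ (2 * E1 + 2 * V + E2 + 4) ≤ K := (hLmono _ _ (by omega)).trans hxK
  have hD1 : (1:ℝ) ≤ D := (hLp B2).trans hLBD
  have hD1n : 1 ≤ D := by exact_mod_cast hD1
  have hD0 : (0:ℝ) < D := by linarith
  have hK1r : (1:ℝ) ≤ K := (hLp _).trans hLK
  have hKpos : (0:ℝ) < K := by linarith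
  have hK1n : 1 ≤ K := by exact_mod_cast hK1r
  have hA0 : (0:ℝ) < A := lt_of_lt_of_le (by linarith [(hLp _).trans hLε]) hxA
  -- `K1`
  set K1 := ⌊(K:ℝ) / L ^ E2⌋₊ with hK1
  have hK1le : (K1:ℝ) ≤ K / L ^ E2 := Nat.floor_le (by positivity)
  have hK1K : K1 ≤ K := by
    have : (K1:ℝ) ≤ K := hK1le.trans (div_le_self (by positivity) (hLp _))
    exact_mod_cast this
  -- `Q`, `z`
  set Q := ⌊L ^ E1⌋₊ with hQ
  have hQle : (Q:ℝ) ≤ L ^ E1 := Nat.floor_le (by positivity)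
  have hQ1 : 1 ≤ Q := Nat.le_floor (by simpa using hLp E1)
  have hQr : (1:ℝ) ≤ Q := by exact_mod_cast hQ1
  have hQge : L ^ E1 ≤ 2 * Q := by
    have := Nat.lt_floor_add_one (L ^ E1)
    rw [← hQ] at this
    linarith
  have hs := hsing x hx2 Q z A D a0 R σ hRj hσ hQge hQle hQz hzle hxA hAxn hLBD
  have hg := hggm x hx3 Q A D a0 R σ hRj hσ hQ1 hQle hxA hD1n
  -- lower bound for the values
  set y : ℝ := x / L ^ V with hy
  have hX0 := hLp0 V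
  have hy3 : 3 ≤ y := by
    rw [hy, le_div_iff₀ (by positivity)]
    calc 3 * L ^ V ≤ L ^ 2 * L ^ V := by
          gcongr
          nlinarith
      _ = L ^ (V + 2) := by ring
      _ ≤ x := hLy
  have hval : ∀ a ∈ Ioc a0 (a0 + A), ∀ d ∈ Ioc D (2 * D), ∀ k ∈ Ioc K1 K,
      y ≤ (((FF R j σ a d).eval (k : ℤ) : ℤ) : ℝ) := hvalF
  have hvar : ∀ a ∈ Ioc a0 (a0 + A), ∀ d ∈ Ioc D (2 * D), ∀ k ∈ Ioc K1 K, k + 1 ∈ Ioc K1 K →
      |(((FF R j σ a d).eval ((k + 1 : ℕ) : ℤ) : ℤ) : ℝ) - (((FF R j σ a d).eval (k : ℤ) : ℤ) : ℝ)|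
        ≤ M := by
    intro a ha d hd k hk hk1
    rw [mem_Ioc] at hk hk1
    exact hvarF a ha d hd k (by rw [mem_Icc]; omega) (by rw [mem_Icc]; omega)
  -- model error
  have hmodel : 4 * (Q : ℝ) ^ 2 * (K * M / y + 1) ≤ K / L ^ (U + 2) := by
    have hQ2 : (Q:ℝ) ^ 2 ≤ L ^ (2 * E1) := by
      calc (Q:ℝ) ^ 2 ≤ (L ^ E1) ^ 2 := by gcongr
        _ = _ := by rw [← pow_mul]; congr 1; ring
    have m1 : K * M / y ≤ L ^ (2 * V) := by
      rw [hy, div_div_eq_mul_div, div_le_iff₀ hx0']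
      calc K * M * L ^ V ≤ (x * L ^ V) * L ^ V := by gcongr
        _ = L ^ (2 * V) * x := by rw [show 2 * V = V + V by ring, pow_add]; ring
    have m2 : K * M / y + 1 ≤ 2 * L ^ (2 * V) := by
      have := hLp (2 * V)
      linarith
    rw [le_div_iff₀ (hLp0 _)]
    calc 4 * (Q : ℝ) ^ 2 * (K * M / y + 1) * L ^ (U + 2)
        ≤ 4 * L ^ (2 * E1) * (2 * L ^ (2 * V)) * L ^ (U + 2) := by gcongr
      _ = 8 * L ^ (2 * E1 + 2 * V + U + 2) := by
          rw [show 2 * E1 + 2 * V + U + 2 = 2 * E1 + (2 * V + (U + 2)) by ring, pow_add L (2 * E1),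
            pow_add L (2 * V)]
          ring
      _ ≤ L * L ^ (2 * E1 + 2 * V + U + 2) := by gcongr; linarith
      _ = L ^ (2 * E1 + 2 * V + U + 3) := by ring
      _ ≤ L ^ (2 * E1 + 2 * V + E2 + 4) := hLmono _ _ (by omega)
      _ ≤ K := hLK
  -- pointwise
  have hpt : ∀ ad ∈ (Ioc a0 (a0 + A)) ×ˢ (Ioc D (2 * D)),
      |pv (FF R j σ ad.1 ad.2) K - SS z (FF R j σ ad.1 ad.2) * lF (FF R j σ ad.1 ad.2) K| ≤
      (K1 + K / L ^ (U + 2)) + ‖∑ k ∈ Ioc K1 K, fz (ff x Q) ((FF R j σ ad.1 ad.2).eval (k : ℤ))‖ +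
      |GG Q (FF R j σ ad.1 ad.2) - SS z (FF R j σ ad.1 ad.2)| * (K + 2 * K1) +
      |GG Q (FF R j σ ad.1 ad.2)| * (2 * K1) := by
    intro ad had
    rw [mem_product] at had
    obtain ⟨ha, hd⟩ := had
    set F := FF R j σ ad.1 ad.2 with hF
    have hv := hval ad.1 ha ad.2 hd
    have hub : ∀ k ∈ Icc 1 K, F.eval (k : ℤ) ≤ x := hubF ad.1 ha ad.2 hd
    have hge2 : ∀ k ∈ Ioc K1 K, 2 ≤ F.eval (k : ℤ) := by
      intro k hk
      have h1 := hv k hk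
      have h2 : (2:ℝ) ≤ ((F.eval (k : ℤ) : ℤ) : ℝ) := by linarith
      exact_mod_cast h2
    -- count
    have hIcc : Icc 1 K = Icc 1 K1 ∪ Ioc K1 K := by
      ext k; simp only [mem_union, mem_Icc, mem_Ioc]; omega
    have hdisj : Disjoint (Icc 1 K1) (Ioc K1 K) := by
      rw [disjoint_left]
      intro k hk hk2
      rw [mem_Icc] at hk; rw [mem_Ioc] at hk2; omega
    set pr : ℕ → ℝ := fun k => if (F.eval (k : ℤ)).toNat.Prime then 1 else 0 with hpr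
    have hpv : pv F K = ∑ k ∈ Icc 1 K1, pr k + ∑ k ∈ Ioc K1 K, pr k := by
      unfold pv
      rw [card_filter]
      push_cast
      rw [hIcc, sum_union hdisj]
    set S1 : ℝ := ∑ k ∈ Ioc K1 K, 1 / Real.log ((F.eval (k : ℤ) : ℤ) : ℝ) with hS1
    set S0 : ℝ := ∑ k ∈ (Icc 1 K1).filter (fun k : ℕ => 2 ≤ F.eval (k : ℤ)),
      1 / Real.log ((F.eval (k : ℤ) : ℤ) : ℝ) with hS0
    have hlF : lF F K = S0 + S1 := by
      unfold lF
      rw [hIcc, filter_union, sum_union (disjoint_filter_filter hdisj), hS1]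
      congr 2
      rw [filter_true_of_mem]
      exact hge2
    have hinv : ∀ k : ℕ, 2 ≤ F.eval (k : ℤ) → 0 ≤ 1 / Real.log ((F.eval (k : ℤ) : ℤ) : ℝ) ∧
        1 / Real.log ((F.eval (k : ℤ) : ℤ) : ℝ) ≤ 2 := by
      intro k hk
      have h1 : (2:ℝ) ≤ ((F.eval (k : ℤ) : ℤ) : ℝ) := by exact_mod_cast hk
      have h2 : Real.log 2 ≤ Real.log ((F.eval (k : ℤ) : ℤ) : ℝ) := Real.log_le_log (by norm_num) h1
      have h3 := Real.log_two_gt_d9
      constructor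
      · positivity
      · rw [div_le_iff₀ (by linarith)]
        linarith
    have hS0b : 0 ≤ S0 ∧ S0 ≤ 2 * K1 := by
      constructor
      · exact sum_nonneg fun k hk => (hinv k (mem_filter.mp hk).2).1
      · calc S0 ≤ ∑ k ∈ (Icc 1 K1).filter (fun k : ℕ => 2 ≤ F.eval (k : ℤ)), (2:ℝ) :=
              sum_le_sum fun k hk => (hinv k (mem_filter.mp hk).2).2
          _ ≤ ∑ k ∈ Icc 1 K1, (2:ℝ) :=
              sum_le_sum_of_subset_of_nonneg (filter_subset _ _) fun _ _ _ => by norm_num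
          _ = 2 * K1 := by rw [sum_const, Nat.card_Icc, nsmul_eq_mul, Nat.add_sub_cancel]; ring
    have hS1b : 0 ≤ S1 ∧ S1 ≤ K := by
      have h1 : ∀ k ∈ Ioc K1 K, 1 / Real.log ((F.eval (k : ℤ) : ℤ) : ℝ) ≤ 1 := by
        intro k hk
        have h2 := hv k hk
        have h3 : (3:ℝ) ≤ ((F.eval (k : ℤ) : ℤ) : ℝ) := by linarith
        have h4 : 1 ≤ Real.log ((F.eval (k : ℤ) : ℤ) : ℝ) := by
          rw [Real.le_log_iff_exp_le (by linarith)]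
          have := Real.exp_one_lt_d9
          linarith
        rw [div_le_one (by linarith)]
        exact h4
      constructor
      · exact sum_nonneg fun k hk => (hinv k (hge2 k hk)).1
      · calc S1 ≤ ∑ k ∈ Ioc K1 K, (1:ℝ) := sum_le_sum h1
          _ = ((K - K1 : ℕ) : ℝ) := by simp
          _ ≤ K := by exact_mod_cast Nat.sub_le K K1
    have hP0 : 0 ≤ ∑ k ∈ Icc 1 K1, pr k ∧ ∑ k ∈ Icc 1 K1, pr k ≤ K1 := by
      constructor
      · exact sum_nonneg fun k _ => by simp only [hpr]; split_ifs <;> norm_num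
      · calc ∑ k ∈ Icc 1 K1, pr k ≤ ∑ k ∈ Icc 1 K1, (1:ℝ) := sum_le_sum fun k _ => by
              simp only [hpr]; split_ifs <;> norm_num
          _ = K1 := by simp
    -- main decomposition
    have hdecomp : (((∑ k ∈ Ioc K1 K, pr k : ℝ)) : ℂ) =
        ∑ k ∈ Ioc K1 K, fz (ff x Q) (F.eval (k : ℤ)) +
        ∑ k ∈ Ioc K1 K, gg Q (F.eval (k : ℤ)).toNat / (Real.log ((F.eval (k : ℤ) : ℤ) : ℝ) : ℂ) := by
      rw [← sum_add_distrib]
      push_cast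
      refine sum_congr rfl fun k hk => ?_
      have h1 := hge2 k hk
      have h2 := hub k (by rw [mem_Ioc] at hk; rw [mem_Icc]; omega)
      unfold fz
      rw [if_pos (by omega)]
      unfold ff
      rw [if_pos (by omega), hpr]
      have h3 : (((F.eval (k : ℤ)).toNat : ℕ) : ℝ) = ((F.eval (k : ℤ) : ℤ) : ℝ) := by
        have : (((F.eval (k : ℤ)).toNat : ℕ) : ℤ) = F.eval (k : ℤ) := Int.toNat_of_nonneg (by omega)
        exact_mod_cast this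
      rw [h3]
      simp only []
      split_ifs <;> push_cast <;> ring
    have hmod := modelP F Q K1 K y M hQ1 hK1K hy3 hM0 hv (fun k hk hk1 =>
      hvar ad.1 ha ad.2 hd k hk hk1)
    rw [gq_eq] at hmod
    have hmod2 := hmod.trans hmodel
    have hcomb : |∑ k ∈ Ioc K1 K, pr k - GG Q F * S1| ≤
        ‖∑ k ∈ Ioc K1 K, fz (ff x Q) (F.eval (k : ℤ))‖ + K / L ^ (U + 2) := by
      have h1 : ((∑ k ∈ Ioc K1 K, pr k - GG Q F * S1 : ℝ) : ℂ) =
          ∑ k ∈ Ioc K1 K, fz (ff x Q) (F.eval (k : ℤ)) +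
          (∑ k ∈ Ioc K1 K, gg Q (F.eval (k : ℤ)).toNat / (Real.log ((F.eval (k : ℤ) : ℤ) : ℝ) : ℂ) -
          (GG Q F : ℂ) * ∑ k ∈ Ioc K1 K, ((1 / Real.log ((F.eval (k : ℤ) : ℤ) : ℝ) : ℝ) : ℂ)) := by
        rw [Complex.ofReal_sub, hdecomp, Complex.ofReal_mul, hS1, Complex.ofReal_sum]
        ring
      have h2 : |∑ k ∈ Ioc K1 K, pr k - GG Q F * S1| =
          ‖((∑ k ∈ Ioc K1 K, pr k - GG Q F * S1 : ℝ) : ℂ)‖ := by
        rw [Complex.norm_real, Real.norm_eq_abs]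
      rw [h2, h1]
      exact (norm_add_le _ _).trans (add_le_add le_rfl hmod2)
    rw [hpv, hlF]
    have e1 : ∑ k ∈ Icc 1 K1, pr k + ∑ k ∈ Ioc K1 K, pr k - SS z F * (S0 + S1) =
        ∑ k ∈ Icc 1 K1, pr k + (∑ k ∈ Ioc K1 K, pr k - GG Q F * S1) +
        (GG Q F - SS z F) * (S1 + S0) + (-(GG Q F * S0)) := by ring
    rw [e1]
    have a1 := abs_add_le (∑ k ∈ Icc 1 K1, pr k + (∑ k ∈ Ioc K1 K, pr k - GG Q F * S1) +
        (GG Q F - SS z F) * (S1 + S0)) (-(GG Q F * S0))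
    have a2 := abs_add_le (∑ k ∈ Icc 1 K1, pr k + (∑ k ∈ Ioc K1 K, pr k - GG Q F * S1))
        ((GG Q F - SS z F) * (S1 + S0))
    have a3 := abs_add_le (∑ k ∈ Icc 1 K1, pr k) (∑ k ∈ Ioc K1 K, pr k - GG Q F * S1)
    have b1 : |∑ k ∈ Icc 1 K1, pr k| ≤ K1 := by rw [abs_of_nonneg hP0.1]; exact hP0.2
    have b2 : |(GG Q F - SS z F) * (S1 + S0)| ≤ |GG Q F - SS z F| * (K + 2 * K1) := by
      rw [abs_mul]
      apply mul_le_mul_of_nonneg_left _ (abs_nonneg _)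
      rw [abs_of_nonneg (by linarith [hS0b.1, hS1b.1])]
      linarith [hS0b.2, hS1b.2]
    have b3 : |-(GG Q F * S0)| ≤ |GG Q F| * (2 * K1) := by
      rw [abs_neg, abs_mul]
      apply mul_le_mul_of_nonneg_left _ (abs_nonneg _)
      rw [abs_of_nonneg hS0b.1]
      exact hS0b.2
    linarith
  -- summation
  have hcard : (((Ioc a0 (a0 + A)) ×ˢ (Ioc D (2 * D))).card : ℝ) = A * D := by
    rw [card_product, Nat.card_Ioc, Nat.card_Ioc, show a0 + A - a0 = A by omega,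
      show 2 * D - D = D by omega]; push_cast; ring
  rw [← sum_product'] at hs hg ⊢
  rw [← sum_product']
  refine (sum_le_sum hpt).trans ?_
  rw [sum_add_distrib, sum_add_distrib, sum_add_distrib, sum_const, nsmul_eq_mul, hcard,
    ← sum_mul, ← sum_mul]
  have hK1K' : (K:ℝ) + 2 * K1 ≤ 3 * K := by
    have : (K1:ℝ) ≤ K := by exact_mod_cast hK1K
    linarith
  have hK1nn : (0:ℝ) ≤ K1 := Nat.cast_nonneg _
  set Sg := ∑ ad ∈ (Ioc a0 (a0 + A)) ×ˢ (Ioc D (2 * D)),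
    ‖∑ k ∈ Ioc K1 K, fz (ff x Q) ((FF R j σ ad.1 ad.2).eval (k : ℤ))‖ with hSg
  calc (A:ℝ) * D * (K1 + K / L ^ (U + 2)) + Sg + _ * (K + 2 * K1) + _ * (2 * K1)
      ≤ A * D * (K / L ^ E2 + K / L ^ (U + 2)) + Sg +
        (A * D / L ^ (U + 3)) * (3 * K) + (A * D * L) * (2 * (K / L ^ E2)) := by
        gcongr
    _ ≤ A * D * (K / L ^ (U + 2) + K / L ^ (U + 2)) + Sg +
        (A * D / L ^ (U + 2)) * (3 * K) + (A * D * L) * (2 * (K / (L ^ (U + 2) * L))) := by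
        have h1 : L ^ (U + 2) ≤ L ^ E2 := hLmono _ _ (by omega)
        have h2 : L ^ (U + 2) ≤ L ^ (U + 3) := hLmono _ _ (by omega)
        have h3 : L ^ (U + 2) * L ≤ L ^ E2 := by
          rw [← pow_succ]; exact hLmono _ _ (by omega)
        gcongr
    _ = (A * D * K / L ^ (U + 1)) * (7 / L) + Sg := by
        rw [show U + 2 = U + 1 + 1 by ring, pow_succ L (U + 1)]
        field_simp
        ring
    _ ≤ (A * D * K / L ^ (U + 1)) * 1 + Sg := by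
        apply add_le_add _ le_rfl
        apply mul_le_mul_of_nonneg_left _ (by positivity)
        rw [div_le_one (by positivity)]
        linarith
    _ = _ := by rw [mul_one]

/-- the conditions on the box for the family `c + b k + α k²`, `k ≤ K`, `b ∈ (D, 2 D]`, `c ∈ (a0, a0 + A]` -/
structure Box (x K D A a0 α : ℕ) (T : ℝ) : Prop where
  val : a0 + A + 2 * D * K + α * K ^ 2 ≤ x
  k0 : T ≤ K
  ka : K * T ≤ A
  kd : K * T ≤ D
  aka : α * K * T ≤ A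
  akd : α * K * T ≤ D
  da : D * T ≤ (A : ℝ) * K
  aa : α * K * D * T ≤ (A : ℝ) ^ 2

lemma Box.mono {x K D A a0 α : ℕ} {T T' : ℝ} (h : Box x K D A a0 α T) (hT : T' ≤ T) :
    Box x K D A a0 α T' where
  val := h.val
  k0 := hT.trans h.k0
  ka := le_trans (by gcongr) h.ka
  kd := le_trans (by gcongr) h.kd
  aka := le_trans (by gcongr) h.aka
  akd := le_trans (by gcongr) h.akd
  da := le_trans (by gcongr) h.da
  aa := le_trans (by gcongr) h.aa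

lemma conv_sq {K1 K D α : ℕ} (h : (16 : ℝ) * α * K ≤ D) :
    Conv (fun k : ℕ => (((C (α : ℤ) * X ^ 2 : ℤ[X]).eval (k : ℤ) : ℤ) : ℝ)) K1 K D (2 * α) where
  r0 := by positivity
  d1 := by
    intro k t _ hk2
    have e1 : ∀ m : ℕ, (((C (α : ℤ) * X ^ 2 : ℤ[X]).eval (m : ℤ) : ℤ) : ℝ) = α * (m : ℝ) ^ 2 := by
      intro m; simp
    simp only [e1]
    have e2 : (α : ℝ) * ((k + t : ℕ) : ℝ) ^ 2 - α * (k : ℝ) ^ 2 = t * (α * (2 * k + t)) := by
      push_cast; ring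
    rw [e2]
    have hkt : (k : ℝ) + t ≤ K := by exact_mod_cast hk2
    have hk0 : (0:ℝ) ≤ k := Nat.cast_nonneg _
    have ht0 : (0:ℝ) ≤ t := Nat.cast_nonneg _
    have hα0 : (0:ℝ) ≤ α := Nat.cast_nonneg _
    refine ⟨by positivity, ?_⟩
    apply mul_le_mul_of_nonneg_left _ ht0
    have : (α : ℝ) * (2 * k + t) ≤ α * (2 * K) := by
      apply mul_le_mul_of_nonneg_left _ hα0
      linarith
    linarith
  d2 := by
    intro k t _ _
    have e1 : ∀ m : ℕ, (((C (α : ℤ) * X ^ 2 : ℤ[X]).eval (m : ℤ) : ℤ) : ℝ) = α * (m : ℝ) ^ 2 := by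
      intro m; simp
    simp only [e1]
    have e2 : (α : ℝ) * ((k + 2 * t : ℕ) : ℝ) ^ 2 - 2 * (α * ((k + t : ℕ) : ℝ) ^ 2) + α * (k : ℝ) ^ 2 =
        2 * α * (t : ℝ) ^ 2 := by
      push_cast; ring
    rw [e2]
    exact ⟨by positivity, le_rfl⟩

theorem bhT (ε : ℝ) (hε : 0 < ε) (E0 U : ℕ) :
    ∃ E1 : ℕ, ∀ E : ℕ, E1 ≤ E → ∃ B x0 : ℕ, ∀ x : ℕ, x0 ≤ x → ∀ z : ℕ,
    ⌊Real.log x ^ E1⌋₊ ≤ z → (z : ℝ) ≤ Real.log x ^ E → ∀ K D A a0 α : ℕ,
    Box x K D A a0 α (Real.log x ^ B) → (x : ℝ) ≤ D * K * Real.log x ^ E0 → (x : ℝ) ^ ε ≤ A →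
    ∑ a ∈ Ioc a0 (a0 + A), ∑ d ∈ Ioc D (2 * D),
      |pv (FF (C (α : ℤ) * X ^ 2) 1 1 a d) K -
        SS z (FF (C (α : ℤ) * X ^ 2) 1 1 a d) * lF (FF (C (α : ℤ) * X ^ 2) 1 1 a d) K| ≤
      A * D * K / Real.log x ^ U := by
  classical
  obtain ⟨E2, hE2⟩ : ∃ E2, E2 = U + 5 := ⟨_, rfl⟩
  obtain ⟨V, hV⟩ : ∃ V, V = E0 + E2 := ⟨_, rfl⟩
  obtain ⟨U', hU'⟩ : ∃ U', U' = 2 * U + E0 + 8 := ⟨_, rfl⟩
  obtain ⟨E1, hE1⟩ : ∃ E1, E1 = 8 * 2 + 2 * (U + 3) + 8 + E2 + U' + 3 := ⟨_, rfl⟩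
  refine ⟨E1, fun E hE => ?_⟩
  obtain ⟨B2, x2, hR2⟩ := bhR 1 2 le_rfl (by norm_num) ε hε U V E1 E (by omega) hE
  obtain ⟨x3, hff⟩ := Pool.Agent.H300R2.FB.ff_ok E1 (E0 + (6 * E1 + U' + 1) + 4)
  obtain ⟨B, hB⟩ : ∃ B, B = B2 + E2 + 11 * E1 + E0 + U' + 20 + 1 := ⟨_, rfl⟩
  have hev : ∀ᶠ x : ℕ in atTop, x2 ≤ x ∧ x3 ≤ x ∧ 3 ≤ x ∧ 100000000 ≤ Real.log x := by
    filter_upwards [eventually_ge_atTop x2, eventually_ge_atTop x3, eventually_ge_atTop 3,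
      evt_log_ge 100000000] with x h1 h2 h3 h4
    exact ⟨h1, h2, h3, h4⟩
  obtain ⟨x0, hx0⟩ := eventually_atTop.mp hev
  refine ⟨B, x0, fun x hx z hzQ hzE K D A a0 α hbox hxDK hxA => ?_⟩
  obtain ⟨hx2, hx3, hx3', hL⟩ := hx0 x hx
  set L := Real.log x with hLdef
  have hL0 : 0 < L := by linarith
  have hL1 : 1 ≤ L := by linarith
  have hLp0 : ∀ n : ℕ, 0 < L ^ n := fun n => by positivity
  have hLp : ∀ n : ℕ, 1 ≤ L ^ n := fun n => one_le_pow₀ hL1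
  have hLmono : ∀ m n : ℕ, m ≤ n → L ^ m ≤ L ^ n := fun m n h => pow_le_pow_right₀ hL1 h
  have hxr : (3:ℝ) ≤ x := by exact_mod_cast hx3'
  have hx0' : (0:ℝ) < x := by linarith
  have hLLB : L ≤ L ^ B := by
    calc L = L ^ 1 := (pow_one L).symm
      _ ≤ L ^ B := hLmono _ _ (by omega)
  have hval := hbox.val
  have hK1r : (1:ℝ) ≤ K := (hLp _).trans hbox.k0
  have hKpos : (0:ℝ) < K := by linarith
  have hK1n : 1 ≤ K := by exact_mod_cast hK1r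
  have hD0 : (0:ℝ) < D := by
    have := hbox.kd
    have h2 : 0 < (K:ℝ) * L ^ B := by positivity
    linarith
  have hA0 : (0:ℝ) < A := by
    have := hbox.ka
    have h2 : 0 < (K:ℝ) * L ^ B := by positivity
    linarith
  have hLBK : L ^ B ≤ K := hbox.k0
  have hLBD : L ^ B ≤ D := by
    refine le_trans ?_ hbox.kd
    exact le_mul_of_one_le_left (hLp0 B).le hK1r
  have hα0 : (0:ℝ) ≤ α := Nat.cast_nonneg _
  have h16 : (16 : ℝ) * α * K ≤ D := by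
    refine le_trans ?_ hbox.akd
    have h0 : 0 ≤ (α:ℝ) * K := by positivity
    have h1 : (16:ℝ) ≤ L ^ B := by linarith
    nlinarith
  have hDK : D * K ≤ x := by nlinarith
  have hAx : A ≤ x := by omega
  -- `K1`
  set K1 := ⌊(K:ℝ) / L ^ (U + 4)⌋₊ with hK1
  have hK1le : (K1:ℝ) ≤ K / L ^ (U + 4) := Nat.floor_le (by positivity)
  have hK1K : K1 ≤ K := by
    have : (K1:ℝ) ≤ K := hK1le.trans (div_le_self (by positivity) (hLp _))
    exact_mod_cast this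
  have hKK1 : (K:ℝ) ≤ K1 * L ^ E2 := by
    have h1 : (K:ℝ) / L ^ (U + 4) < K1 + 1 := Nat.lt_floor_add_one _
    have h2 : L ≤ (K:ℝ) / L ^ (U + 4) := by
      rw [le_div_iff₀ (hLp0 _)]
      calc L * L ^ (U + 4) = L ^ (U + 5) := by ring
        _ ≤ _ := hLmono _ _ (by omega)
        _ ≤ _ := hLBK
    have h3 : (K:ℝ) / L ^ (U + 4) ≤ K1 * L := by nlinarith
    calc (K:ℝ) = (K / L ^ (U + 4)) * L ^ (U + 4) := by field_simp
      _ ≤ (K1 * L) * L ^ (U + 4) := by gcongr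
      _ = K1 * L ^ E2 := by rw [hE2]; ring
  obtain ⟨hfour, hsq⟩ := hff x hx3
  have heval : ∀ a d k : ℕ, (FF (C (α : ℤ) * X ^ 2) 1 1 a d).eval (k : ℤ) =
      ((a + α * k ^ 2 + d * k : ℕ) : ℤ) := by
    intro a d k
    rw [FF_eval]
    simp
  have hbox' : Box x K D A a0 α (L ^ (11 * E1 + E0 + U' + 20)) := hbox.mono (hLmono _ _ (by omega))
  have hub : ∀ a ∈ Ioc a0 (a0 + A), ∀ d ∈ Ioc D (2 * D), ∀ k ∈ Icc 1 K,
      a + α * k ^ 2 + d * k ≤ x := by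
    intro a ha d hd k hk
    rw [mem_Ioc] at ha hd
    rw [mem_Icc] at hk
    have h1 : α * k ^ 2 ≤ α * K ^ 2 := Nat.mul_le_mul_left _ (Nat.pow_le_pow_left hk.2 2)
    have h2 : d * k ≤ 2 * D * K := Nat.mul_le_mul hd.2 hk.2
    omega
  have hcore := core E0 E1 E2 U' (by omega) x hL (ff x ⌊L ^ E1⌋₊) (fun n hn => ff_zero_of_gt hn)
    hfour hsq D K K1 A a0 (C (α : ℤ) * X ^ 2) (2 * α) (conv_sq h16) (by
      intro k hk
      rw [mem_Ioc] at hk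
      have e1 : (C (α : ℤ) * X ^ 2 : ℤ[X]).eval (k : ℤ) = ((α * k ^ 2 : ℕ) : ℤ) := by simp
      rw [e1, abs_of_nonneg (by positivity)]
      have h1 : α * k ^ 2 ≤ α * K ^ 2 := Nat.mul_le_mul_left _ (Nat.pow_le_pow_left hk.2 2)
      exact_mod_cast (by omega : α * k ^ 2 ≤ x)) hDK hxDK hK1K hKK1 (by omega) hbox'.k0 hbox'.ka
    hbox'.kd (by
      have h1 := hbox.aka
      have h2 : 2 * (α : ℝ) * K * L ^ (11 * E1 + E0 + U' + 20) ≤ α * K * L ^ B := by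
        have h3 : 2 * L ^ (11 * E1 + E0 + U' + 20) ≤ L ^ B := by
          calc 2 * L ^ (11 * E1 + E0 + U' + 20) ≤ L * L ^ (11 * E1 + E0 + U' + 20) := by
                gcongr
                linarith
            _ = L ^ (11 * E1 + E0 + U' + 20 + 1) := by ring
            _ ≤ L ^ B := hLmono _ _ (by omega)
        calc 2 * (α : ℝ) * K * L ^ (11 * E1 + E0 + U' + 20) =
              α * K * (2 * L ^ (11 * E1 + E0 + U' + 20)) := by ring
          _ ≤ α * K * L ^ B := by gcongr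
      linarith) (by
      have h1 := hbox.akd
      have h2 : 2 * (α : ℝ) * K * L ^ (11 * E1 + E0 + U' + 20) ≤ α * K * L ^ B := by
        have h3 : 2 * L ^ (11 * E1 + E0 + U' + 20) ≤ L ^ B := by
          calc 2 * L ^ (11 * E1 + E0 + U' + 20) ≤ L * L ^ (11 * E1 + E0 + U' + 20) := by
                gcongr
                linarith
            _ = L ^ (11 * E1 + E0 + U' + 20 + 1) := by ring
            _ ≤ L ^ B := hLmono _ _ (by omega)
        calc 2 * (α : ℝ) * K * L ^ (11 * E1 + E0 + U' + 20) =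
              α * K * (2 * L ^ (11 * E1 + E0 + U' + 20)) := by ring
          _ ≤ α * K * L ^ B := by gcongr
      linarith) hbox'.da (by
      have h1 := hbox.aa
      have h2 : 2 * (α : ℝ) * K * D * L ^ (11 * E1 + E0 + U' + 20) ≤ α * K * D * L ^ B := by
        have h3 : 2 * L ^ (11 * E1 + E0 + U' + 20) ≤ L ^ B := by
          calc 2 * L ^ (11 * E1 + E0 + U' + 20) ≤ L * L ^ (11 * E1 + E0 + U' + 20) := by
                gcongr
                linarith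
            _ = L ^ (11 * E1 + E0 + U' + 20 + 1) := by ring
            _ ≤ L ^ B := hLmono _ _ (by omega)
        calc 2 * (α : ℝ) * K * D * L ^ (11 * E1 + E0 + U' + 20) =
              α * K * D * (2 * L ^ (11 * E1 + E0 + U' + 20)) := by ring
          _ ≤ α * K * D * L ^ B := by gcongr
      linarith)
  have hper : ∑ a ∈ Ioc a0 (a0 + A), ∑ d ∈ Ioc D (2 * D),
      |pv (FF (C (α : ℤ) * X ^ 2) 1 1 a d) K -
        SS z (FF (C (α : ℤ) * X ^ 2) 1 1 a d) * lF (FF (C (α : ℤ) * X ^ 2) 1 1 a d) K| ≤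
      A * D * K / L ^ (U + 1) +
      ∑ a ∈ Ioc a0 (a0 + A), ∑ d ∈ Ioc D (2 * D),
        ‖∑ k ∈ Ioc K1 K, fz (ff x ⌊L ^ E1⌋₊) ((FF (C (α : ℤ) * X ^ 2) 1 1 a d).eval (k : ℤ))‖ := by
    refine hR2 x hx2 z hzQ hzE K D A a0 (C (α : ℤ) * X ^ 2) 1 (5 * D)
      (natDegree_C_mul_X_pow_le _ _) (Or.inl rfl) ((hLmono _ _ (by omega)).trans hLBK)
      hxA hAx ((hLmono _ _ (by omega)).trans hLBD) (by positivity) ?_ ?_ ?_ ?_
    · have h1 : (D:ℝ) * K ≤ x := by exact_mod_cast hDK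
      calc (K:ℝ) * (5 * D) = 5 * (D * K) := by ring
        _ ≤ L ^ V * x := by
          apply mul_le_mul _ h1 (by positivity) (hLp0 _).le
          calc (5:ℝ) ≤ L := by linarith
            _ = L ^ 1 := (pow_one L).symm
            _ ≤ L ^ V := hLmono _ _ (by omega)
        _ = _ := by ring
    · intro a ha d hd k hk
      rw [heval]
      exact_mod_cast hub a ha d hd k hk
    · intro a ha d hd k hk
      rw [heval]
      rw [mem_Ioc] at ha hd hk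
      have hk' : (K1:ℝ) ≤ k := by exact_mod_cast hk.1.le
      have hd' : (D:ℝ) ≤ d := by exact_mod_cast hd.1.le
      rw [div_le_iff₀ (hLp0 _)]
      have h1 : (D:ℝ) * K1 ≤ d * k := by gcongr
      have h2 : (0:ℝ) ≤ a + α * (k:ℝ) ^ 2 := by positivity
      calc (x:ℝ) ≤ D * K * L ^ E0 := hxDK
        _ ≤ D * (K1 * L ^ E2) * L ^ E0 := by gcongr
        _ = (D * K1) * L ^ V := by rw [hV, pow_add]; ring
        _ ≤ _ := by
          apply mul_le_mul_of_nonneg_right _ (hLp0 _).le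
          push_cast
          linarith
    · intro a ha d hd k hk hk1
      rw [heval, heval]
      rw [mem_Ioc] at ha hd
      rw [mem_Icc] at hk hk1
      have hd' : (d:ℝ) ≤ 2 * D := by exact_mod_cast hd.2
      have hk' : (k:ℝ) + 1 ≤ K := by exact_mod_cast hk1.2
      have hk0 : (0:ℝ) ≤ k := Nat.cast_nonneg _
      have e1 : (((a + α * (k + 1) ^ 2 + d * (k + 1) : ℕ) : ℤ) : ℝ) -
          (((a + α * k ^ 2 + d * k : ℕ) : ℤ) : ℝ) = α * (2 * k + 1) + d := by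
        push_cast; ring
      rw [e1, abs_of_nonneg (by positivity)]
      have h1 : (α:ℝ) * (2 * k + 1) ≤ α * (2 * K) := by
        gcongr
        linarith
      linarith
  refine hper.trans ?_
  -- Cauchy-Schwarz
  set G : ℕ × ℕ → ℝ := fun p =>
    ‖∑ k ∈ Ioc K1 K, fz (ff x ⌊L ^ E1⌋₊) ((FF (C (α : ℤ) * X ^ 2) 1 1 p.1 p.2).eval (k : ℤ))‖ with hG
  set T := (Ioc a0 (a0 + A)) ×ˢ (Ioc D (2 * D)) with hT
  have hTc : (T.card : ℝ) = A * D := by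
    rw [hT, card_product, Nat.card_Ioc, Nat.card_Ioc, show a0 + A - a0 = A by omega,
      show 2 * D - D = D by omega]
    push_cast
    ring
  have hS1 : ∑ a ∈ Ioc a0 (a0 + A), ∑ d ∈ Ioc D (2 * D),
        ‖∑ k ∈ Ioc K1 K, fz (ff x ⌊L ^ E1⌋₊) ((FF (C (α : ℤ) * X ^ 2) 1 1 a d).eval (k : ℤ))‖ =
      ∑ p ∈ T, G p := by
    rw [hT, sum_product]
  have hS2 : ∑ a ∈ Ioc a0 (a0 + A), ∑ d ∈ Ioc D (2 * D),
        ‖∑ k ∈ Ioc K1 K, fz (ff x ⌊L ^ E1⌋₊) ((FF (C (α : ℤ) * X ^ 2) 1 1 a d).eval (k : ℤ))‖ ^ 2 =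
      ∑ p ∈ T, G p ^ 2 := by
    rw [hT, sum_product]
  rw [hS2] at hcore
  rw [hS1]
  have hL1sum : ∑ p ∈ T, G p ≤ (A * D * K) / L ^ (U + 2) := by
    have h2 := sq_sum_le_card_mul_sum_sq (s := T) (f := G)
    rw [hTc] at h2
    apply le_of_sq_le_sq _ (by positivity)
    refine h2.trans ?_
    calc (A * D : ℝ) * _ ≤ (A * D) * (A * x * K / L ^ U') := by gcongr
      _ ≤ (A * D) * (A * (D * K * L ^ E0) * K / L ^ U') := by gcongr
      _ = (A * D * K) ^ 2 / L ^ (2 * U + 8) := by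
          rw [hU', show 2 * U + E0 + 8 = (2 * U + 8) + E0 by ring, pow_add L _ E0]
          field_simp
      _ ≤ (A * D * K) ^ 2 / L ^ (2 * (U + 2)) := by
          gcongr
          · omega
      _ = _ := by rw [div_pow, ← pow_mul, mul_comm 2 (U + 2)]
  calc A * D * K / L ^ (U + 1) + ∑ p ∈ T, G p
      ≤ A * D * K / L ^ (U + 1) + (A * D * K) / L ^ (U + 2) := by gcongr
    _ = (A * D * K / L ^ U) * (1 / L + 1 / L ^ 2) := by
        rw [pow_succ, pow_add]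
        field_simp
    _ ≤ (A * D * K / L ^ U) * 1 := by
        apply mul_le_mul_of_nonneg_left _ (by positivity)
        have h1 : 1 / L ≤ 1 / 100000000 := one_div_le_one_div_of_le (by norm_num) hL
        have h2 : 1 / L ^ 2 ≤ 1 / 1000 := by
          apply one_div_le_one_div_of_le (by norm_num)
          nlinarith
        linarith
    _ = _ := mul_one _

end Pool.Agent.helper24_TP
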