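import Mathlib

set_option autoImplicit false

/-!
Sums over shifted integers.
-/

namespace Pool.Agent.helper24_TP

open Finset

lemma cnt_small (S : Finset ℤ) (θ Y : ℝ) (hY : 0 ≤ Y) (hS : ∀ h ∈ S, |(h : ℝ) + θ| ≤ Y) :
    (S.card : ℝ) ≤ 2 * Y + 1 := by
  rcases S.eq_empty_or_nonempty with h | h
  · rw [h]
    simp only [card_empty, Nat.cast_zero]
    positivity
  · set m := S.min' h with hm
    set M := S.max' h with hM
    have hmS : m ∈ S := S.min'_mem h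
    have hMS : M ∈ S := S.max'_mem h
    have hmM : m ≤ M := S.min'_le M hMS
    have hsub : S ⊆ Icc m M := fun d hd => mem_Icc.2 ⟨S.min'_le d hd, S.le_max' d hd⟩
    have h1 := card_le_card hsub
    rw [Int.card_Icc] at h1
    have h2 : (S.card : ℝ) ≤ (M : ℝ) - m + 1 := by
      have h3 : (S.card : ℝ) ≤ (((M + 1 - m).toNat : ℕ) : ℝ) := by exact_mod_cast h1
      have h4 : (((M + 1 - m).toNat : ℕ) : ℝ) = (M : ℝ) + 1 - m := by
        have : (((M + 1 - m).toNat : ℕ) : ℤ) = M + 1 - m := Int.toNat_of_nonneg (by omega)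
        exact_mod_cast this
      rw [h4] at h3
      linarith
    have h3 := abs_le.1 (hS m hmS)
    have h4 := abs_le.1 (hS M hMS)
    linarith [h3.1, h4.2]

lemma inv_sq_nat (T : Finset ℕ) (k : ℕ) (hk : 1 ≤ k) (hT : ∀ n ∈ T, k ≤ n) :
    ∑ n ∈ T, 1 / (n : ℝ) ^ 2 ≤ 2 / (k : ℝ) := by
  rcases T.eq_empty_or_nonempty with h | h
  · rw [h, sum_empty]
    positivity
  · set M := T.max' h with hM
    have hkM : k ≤ M := (hT M (T.max'_mem h))
    have hk0 : (0 : ℝ) < k := by exact_mod_cast hk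
    have hk1 : (1 : ℝ) ≤ k := by exact_mod_cast hk
    have hsub : T ⊆ insert k (Ioc k M) := by
      intro n hn
      rw [mem_insert, mem_Ioc]
      have h1 := hT n hn
      have h2 := T.le_max' n hn
      by_cases h3 : n = k
      · exact Or.inl h3
      · exact Or.inr ⟨by omega, h2⟩
    calc ∑ n ∈ T, 1 / (n : ℝ) ^ 2 ≤ ∑ n ∈ insert k (Ioc k M), 1 / (n : ℝ) ^ 2 :=
          sum_le_sum_of_subset_of_nonneg hsub fun _ _ _ => by positivity
      _ = 1 / (k : ℝ) ^ 2 + ∑ n ∈ Ioc k M, ((n : ℝ) ^ 2)⁻¹ := by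
          rw [sum_insert (by simp)]
          simp only [one_div]
      _ ≤ 1 / (k : ℝ) ^ 2 + ((k : ℝ)⁻¹ - (M : ℝ)⁻¹) := by
          gcongr
          exact sum_Ioc_inv_sq_le_sub (by omega) hkM
      _ ≤ 1 / k + 1 / k := by
          have h1 : 1 / (k : ℝ) ^ 2 ≤ 1 / k := by
            apply one_div_le_one_div_of_le hk0
            nlinarith
          have h2 : (0 : ℝ) ≤ (M : ℝ)⁻¹ := by positivity
          have h3 : (k : ℝ)⁻¹ = 1 / k := inv_eq_one_div _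
          linarith
      _ = 2 / k := by ring

lemma inv_sq_pos (S : Finset ℤ) (θ Y : ℝ) (hY : 1 ≤ Y) (hS : ∀ h ∈ S, Y ≤ (h : ℝ) + θ) :
    ∑ h ∈ S, 1 / ((h : ℝ) + θ) ^ 2 ≤ 4 / Y := by
  classical
  set k := ⌊Y⌋₊ with hk
  have hk1 : 1 ≤ k := Nat.le_floor (by simpa using hY)
  have hkY : Y ≤ 2 * k := by
    have h1 := Nat.lt_floor_add_one Y
    rw [← hk] at h1
    have h2 : (1 : ℝ) ≤ k := by exact_mod_cast hk1
    linarith
  have hinj : Set.InjOn (fun h : ℤ => ⌊(h : ℝ) + θ⌋₊) (S : Set ℤ) := by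
    intro h hh h' hh' heq
    simp only at heq
    have a1 := Nat.floor_le (show 0 ≤ (h : ℝ) + θ by linarith [hS h hh])
    have a2 := Nat.lt_floor_add_one ((h : ℝ) + θ)
    have a3 := Nat.floor_le (show 0 ≤ (h' : ℝ) + θ by linarith [hS h' hh'])
    have a4 := Nat.lt_floor_add_one ((h' : ℝ) + θ)
    rw [heq] at a1 a2
    have b1 : (h : ℝ) < h' + 1 := by linarith
    have b2 : (h' : ℝ) < h + 1 := by linarith
    have c1 : h < h' + 1 := by exact_mod_cast b1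
    have c2 : h' < h + 1 := by exact_mod_cast b2
    omega
  calc ∑ h ∈ S, 1 / ((h : ℝ) + θ) ^ 2 ≤ ∑ h ∈ S, 1 / ((⌊(h : ℝ) + θ⌋₊ : ℕ) : ℝ) ^ 2 := by
        refine sum_le_sum fun h hh => ?_
        have a0 := hS h hh
        have a1 := Nat.floor_le (show 0 ≤ (h : ℝ) + θ by linarith)
        have a2 : k ≤ ⌊(h : ℝ) + θ⌋₊ := Nat.floor_le_floor a0
        have a3 : (0 : ℝ) < ((⌊(h : ℝ) + θ⌋₊ : ℕ) : ℝ) := by exact_mod_cast (by omega : 0 < ⌊(h : ℝ) + θ⌋₊)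
        apply one_div_le_one_div_of_le (by positivity)
        exact pow_le_pow_left₀ a3.le a1 2
    _ = ∑ n ∈ S.image (fun h : ℤ => ⌊(h : ℝ) + θ⌋₊), 1 / (n : ℝ) ^ 2 := by
        rw [sum_image hinj]
    _ ≤ 2 / k := inv_sq_nat _ k hk1 (by
        intro n hn
        rw [mem_image] at hn
        obtain ⟨h, hh, rfl⟩ := hn
        exact Nat.floor_le_floor (hS h hh))
    _ ≤ 4 / Y := by
        have h2 : (0 : ℝ) < k := by exact_mod_cast hk1
        rw [div_le_div_iff₀ h2 (by linarith)]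
        linarith

/-- tail of `∑ 1 / (h + θ)²` -/
lemma inv_sq_tail (S : Finset ℤ) (θ Y : ℝ) (hY : 1 ≤ Y) (hS : ∀ h ∈ S, Y ≤ |(h : ℝ) + θ|) :
    ∑ h ∈ S, 1 / ((h : ℝ) + θ) ^ 2 ≤ 8 / Y := by
  classical
  rw [← sum_filter_add_sum_filter_not S (fun h : ℤ => 0 ≤ (h : ℝ) + θ)]
  have h1 := inv_sq_pos (S.filter (fun h : ℤ => 0 ≤ (h : ℝ) + θ)) θ Y hY (by
    intro h hh
    rw [mem_filter] at hh
    have := hS h hh.1
    rwa [abs_of_nonneg hh.2] at this)
  have hinj : Set.InjOn (fun h : ℤ => -h) ((S.filter (fun h : ℤ => ¬ 0 ≤ (h : ℝ) + θ) : Finset ℤ) : Set ℤ) := by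
    intro a _ b _ hab
    simp only at hab
    omega
  have h2 := inv_sq_pos ((S.filter (fun h : ℤ => ¬ 0 ≤ (h : ℝ) + θ)).image (fun h : ℤ => -h)) (-θ) Y hY (by
    intro h hh
    rw [mem_image] at hh
    obtain ⟨h', hh', rfl⟩ := hh
    rw [mem_filter] at hh'
    have h3 := hS h' hh'.1
    rw [abs_of_neg (not_le.1 hh'.2)] at h3
    push_cast
    linarith)
  rw [sum_image hinj] at h2
  have e : ∑ h ∈ S.filter (fun h : ℤ => ¬ 0 ≤ (h : ℝ) + θ), 1 / ((h : ℝ) + θ) ^ 2 =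
      ∑ h ∈ S.filter (fun h : ℤ => ¬ 0 ≤ (h : ℝ) + θ), 1 / (((-h : ℤ) : ℝ) + -θ) ^ 2 := by
    refine sum_congr rfl fun h _ => ?_
    congr 1
    push_cast
    ring
  rw [e]
  have h3 : 8 / Y = 4 / Y + 4 / Y := by ring
  linarith

end Pool.Agent.helper24_TP
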