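import Pool.Agent.R460.SC.Tl
import Pool.Agent.Y868.TB.T5
import Pool.Agent.H442R2.EHI.Core2

set_option autoImplicit false

/-!
The Euler products beyond `z` for the discriminants `b² - 4 a c`, `c ≤ H`, for each `b` of size about `H`.
-/

namespace Pool.Agent.helper24_TP.Tail

open Finset Filter Topology
open Pool.Agent.W468.ConjF
open Pool.Agent.Y868.TB (Sol low_count_lin evt_root)
open Pool.Agent.R460.SC (tail_gen2)

/-- two solutions are close -/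
lemma sol_close (a b H d s₁ s₂ c₁ c₂ : ℤ) (ha : 1 ≤ a) (hb : 1 ≤ b) (hH : 1 ≤ H) (hab : 8 * a * H ≤ b ^ 2)
    (h1 : 1 ≤ c₁) (h1H : c₁ ≤ H) (h2 : 1 ≤ c₂) (h2H : c₂ ≤ H) (hs1 : 0 ≤ s₁) (h12 : s₁ ≤ s₂)
    (e1 : b ^ 2 - 4 * a * c₁ = d * s₁ ^ 2) (e2 : b ^ 2 - 4 * a * c₂ = d * s₂ ^ 2) :
    (s₂ - s₁) * b ≤ 8 * a * H := by
  have hac2 : a * c₂ ≤ a * H := mul_le_mul_of_nonneg_left h2H (by linarith)
  have hac1 : 0 ≤ a * c₁ := by positivity
  have hac2' : 0 ≤ a * c₂ := by positivity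
  have hac1' : a * c₁ ≤ a * H := mul_le_mul_of_nonneg_left h1H (by linarith)
  have hb2 : 0 < b ^ 2 := by positivity
  have f2 : b ^ 2 ≤ 2 * (d * s₂ ^ 2) := by rw [← e2]; nlinarith
  have hd : 0 < d := by
    by_contra hcon
    push Not at hcon
    have : d * s₂ ^ 2 ≤ 0 := mul_nonpos_of_nonpos_of_nonneg hcon (by positivity)
    linarith
  have hs2 : 0 ≤ s₂ := hs1.trans h12
  have g2 : b ≤ 2 * (d * s₂) := by
    by_contra hcon
    push Not at hcon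
    have h3 : (0 : ℤ) ≤ d * s₂ := by positivity
    have h4 : (2 * (d * s₂)) ^ 2 < b ^ 2 := by
      apply pow_lt_pow_left₀ hcon (by linarith) (by norm_num)
    have h5 : d * s₂ ^ 2 ≤ d * (d * s₂ ^ 2) := le_mul_of_one_le_left (by positivity) (by linarith)
    nlinarith
  have g1 : b ≤ 2 * (d * (s₂ + s₁)) := by
    have : 0 ≤ d * s₁ := by positivity
    nlinarith
  have hdiff : d * ((s₂ - s₁) * (s₂ + s₁)) ≤ 4 * a * H := by
    have : d * ((s₂ - s₁) * (s₂ + s₁)) = d * s₂ ^ 2 - d * s₁ ^ 2 := by ring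
    rw [this, ← e1, ← e2]
    nlinarith
  have hs0 : 0 ≤ s₂ - s₁ := by linarith
  calc (s₂ - s₁) * b ≤ (s₂ - s₁) * (2 * (d * (s₂ + s₁))) := mul_le_mul_of_nonneg_left g1 hs0
    _ = 2 * (d * ((s₂ - s₁) * (s₂ + s₁))) := by ring
    _ ≤ 2 * (4 * a * H) := by linarith
    _ = 8 * a * H := by ring

/-- the number of `c ≤ H` with `b² - 4 a c = d s²` -/
lemma sol_card (a b H : ℕ) (ha : 1 ≤ a) (hb : 1 ≤ b) (hH : 1 ≤ H) (hab : 8 * a * H ≤ b ^ 2) (d : ℤ) :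
    (#(Sol (fun c : ℕ => (b : ℤ) ^ 2 - 4 * (a : ℤ) * (c : ℤ)) H d) : ℝ) ≤ 8 * a * H / b + 1 := by
  classical
  set S := Sol (fun c : ℕ => (b : ℤ) ^ 2 - 4 * (a : ℤ) * (c : ℤ)) H d with hS
  have hb0 : (0 : ℝ) < b := by exact_mod_cast hb
  have hmem : ∀ c ∈ S, 1 ≤ c ∧ c ≤ H ∧ ∃ s : ℕ, (b : ℤ) ^ 2 - 4 * (a : ℤ) * (c : ℤ) = d * (s : ℤ) ^ 2 := by
    intro c hc
    rw [hS, Sol, mem_filter, mem_Icc] at hc
    exact ⟨hc.1.1, hc.1.2, hc.2⟩
  rcases S.eq_empty_or_nonempty with he | hne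
  · rw [he, card_empty]
    push_cast
    positivity
  have hex : ∀ c : ℕ, ∃ s : ℕ, c ∈ S → (b : ℤ) ^ 2 - 4 * (a : ℤ) * (c : ℤ) = d * (s : ℤ) ^ 2 := by
    intro c
    by_cases hc : c ∈ S
    · obtain ⟨-, -, s, hs⟩ := hmem c hc
      exact ⟨s, fun _ => hs⟩
    · exact ⟨0, fun h => absurd h hc⟩
  choose g hg using hex
  have haz : (1 : ℤ) ≤ a := by exact_mod_cast ha
  have hbz : (1 : ℤ) ≤ b := by exact_mod_cast hb
  have hHz : (1 : ℤ) ≤ H := by exact_mod_cast hH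
  have habz : (8 : ℤ) * a * H ≤ (b : ℤ) ^ 2 := by exact_mod_cast hab
  obtain ⟨c₀, hc₀, hmin⟩ := exists_min_image S g hne
  set W := ⌊(8 * a * H / b : ℝ)⌋₊ with hW
  have hsub : S.image g ⊆ Icc (g c₀) (g c₀ + W) := by
    intro s hs
    rw [mem_image] at hs
    obtain ⟨c, hc, rfl⟩ := hs
    rw [mem_Icc]
    have hle := hmin c hc
    refine ⟨hle, ?_⟩
    obtain ⟨h1, h1H, -⟩ := hmem c₀ hc₀
    obtain ⟨h2, h2H, -⟩ := hmem c hc
    have key := sol_close a b H d (g c₀) (g c) c₀ c haz hbz hHz habz (by exact_mod_cast h1)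
      (by exact_mod_cast h1H) (by exact_mod_cast h2) (by exact_mod_cast h2H) (by positivity)
      (by exact_mod_cast hle) (hg c₀ hc₀) (hg c hc)
    have h3 : g c - g c₀ ≤ W := by
      rw [hW]
      apply Nat.le_floor
      rw [le_div_iff₀ hb0]
      have h4 : ((g c - g c₀ : ℕ) : ℤ) = (g c : ℤ) - g c₀ := by push_cast [hle]; ring
      have h5 : ((g c - g c₀ : ℕ) : ℤ) * b ≤ 8 * a * H := by rw [h4]; exact key
      exact_mod_cast h5
    omega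
  have hinj : Set.InjOn g S := by
    intro c₁ h₁ c₂ h₂ he
    have e1 := hg c₁ h₁
    have e2 := hg c₂ h₂
    rw [he, ← e2] at e1
    have h3 : 4 * (a : ℤ) * ((c₁ : ℤ) - c₂) = 0 := by linarith
    have h4 : (4 : ℤ) * a ≠ 0 := by positivity
    have h5 := (mul_eq_zero.1 h3).resolve_left h4
    have h6 : (c₁ : ℤ) = c₂ := by linarith
    exact_mod_cast h6
  have hcard : #S ≤ W + 1 := by
    rw [← card_image_of_injOn hinj]
    refine (card_le_card hsub).trans ?_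
    rw [Nat.card_Icc]
    omega
  have h6 : (W : ℝ) ≤ 8 * a * H / b := Nat.floor_le (by positivity)
  calc (#S : ℝ) ≤ ((W + 1 : ℕ) : ℝ) := by exact_mod_cast hcard
    _ = W + 1 := by push_cast; ring
    _ ≤ _ := by linarith

/-- the tails for `a`, `b` fixed -/
theorem tail_c (ε : ℝ) (hε : 0 < ε) (A U E : ℕ) : ∃ H₀ : ℕ, ∀ H : ℕ, H₀ ≤ H → ∀ z : ℕ,
    Real.log H ^ (3 * U + 3) ≤ z → (z : ℝ) ≤ Real.log H ^ E → ∀ a b : ℕ, 1 ≤ a → (a : ℝ) ≤ (H : ℝ) ^ (1 - ε) →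
    (H : ℝ) ≤ b * Real.log H ^ A → b ≤ H →
    ∃ Ex : Finset ℕ, (#Ex : ℝ) ≤ H / Real.log H ^ U ∧
      ∀ c ∈ Icc 1 H, c ∉ Ex → ¬ IsSquare ((b : ℤ) ^ 2 - 4 * (a : ℤ) * (c : ℤ)) ∧
        ∀ᶠ N in atTop, |SJ ((b : ℤ) ^ 2 - 4 * (a : ℤ) * (c : ℤ)) z N| ≤ 1 / Real.log H ^ U := by
  obtain ⟨κ, hκ2, hκ⟩ : ∃ κ : ℕ, 2 ≤ κ ∧ 2 ≤ κ * ε := by
    refine ⟨max 2 ⌈2 / ε⌉₊, le_max_left _ _, ?_⟩
    have h1 : 2 / ε ≤ ((max 2 ⌈2 / ε⌉₊ : ℕ) : ℝ) :=
      (Nat.le_ceil _).trans (by exact_mod_cast le_max_right _ _)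
    rwa [div_le_iff₀ hε] at h1
  obtain ⟨H0, h⟩ := tail_gen2 U E 3 κ (by norm_num) hκ2
  have hev : ∀ᶠ H : ℕ in atTop, H0 ≤ H ∧ 6 ≤ H ∧ 1 ≤ Real.log H ∧
      8 * Real.log H ^ (2 * A) ≤ (H : ℝ) ^ ε ∧ (9 * Real.log H ^ A) ^ κ ≤ (H : ℝ) := by
    have hL : Tendsto (fun H : ℕ => Real.log (H : ℝ)) atTop atTop :=
      Real.tendsto_log_atTop.comp tendsto_natCast_atTop_atTop
    have e1 := Pool.Agent.H442R2.EHI.evt_log_pow (2 * A + 1) ε hε
    have e2 := Pool.Agent.H442R2.EHI.evt_log_pow ((A + 1) * κ) 1 (by norm_num)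
    filter_upwards [eventually_ge_atTop H0, eventually_ge_atTop 6, hL.eventually_ge_atTop 9, e1, e2]
      with H g1 g2 g3 g4 g5
    refine ⟨g1, g2, by linarith, ?_, ?_⟩
    · refine le_trans ?_ g4
      rw [pow_succ, mul_comm (8 : ℝ)]
      apply mul_le_mul_of_nonneg_left _ (by positivity)
      linarith
    · rw [Real.rpow_one] at g5
      refine le_trans ?_ g5
      rw [pow_mul]
      apply pow_le_pow_left₀ (by positivity)
      rw [pow_succ, mul_comm (9 : ℝ)]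
      apply mul_le_mul_of_nonneg_left g3 (by positivity)
  obtain ⟨H1, hH1⟩ := eventually_atTop.mp hev
  refine ⟨H1, fun H hH z hz1 hz2 a b ha haH hb hbH => ?_⟩
  obtain ⟨hH0, hH6, hL1, hLε, hLκ⟩ := hH1 H hH
  set L := Real.log H with hL
  have hHr : (6 : ℝ) ≤ H := by exact_mod_cast hH6
  have hH0' : (0 : ℝ) < H := by linarith
  have hL0 : 0 < L := by linarith
  have hLp : ∀ k : ℕ, 0 < L ^ k := fun k => by positivity
  have hz1' : 1 ≤ z := by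
    have h1 : (1 : ℝ) ≤ L ^ (3 * U + 3) := one_le_pow₀ hL1
    have : (1 : ℝ) ≤ z := h1.trans hz1
    exact_mod_cast this
  have ha0 : (0 : ℝ) < a := by exact_mod_cast ha
  have hb0 : (0 : ℝ) < b := by
    by_contra hcon
    push Not at hcon
    have : (b : ℝ) * L ^ A ≤ 0 := mul_nonpos_of_nonpos_of_nonneg hcon (hLp A).le
    linarith
  have hb1 : 1 ≤ b := by
    have : 0 < b := by exact_mod_cast hb0
    omega
  have hsplit : (H : ℝ) ^ (1 - ε) * (H : ℝ) ^ ε = H := by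
    rw [← Real.rpow_add hH0']
    simp
  have haH' : (a : ℝ) ≤ H := by
    refine haH.trans ?_
    calc (H : ℝ) ^ (1 - ε) ≤ (H : ℝ) ^ (1 : ℝ) :=
          Real.rpow_le_rpow_of_exponent_le (by linarith) (by linarith)
      _ = H := Real.rpow_one _
  have haHn : a ≤ H := by exact_mod_cast haH'
  -- `8 a H ≤ b²`
  have hab : 8 * a * H ≤ b ^ 2 := by
    have h1 : (8 : ℝ) * a * H ≤ b ^ 2 := by
      have h2 : (H : ℝ) ^ 2 ≤ b ^ 2 * L ^ (2 * A) := by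
        calc (H : ℝ) ^ 2 ≤ (b * L ^ A) ^ 2 := by gcongr
          _ = _ := by rw [mul_pow, ← pow_mul, mul_comm A 2]
      have h3 : (8 * a * H) * L ^ (2 * A) ≤ b ^ 2 * L ^ (2 * A) := by
        refine le_trans ?_ h2
        calc (8 * a * H : ℝ) * L ^ (2 * A) = a * (8 * L ^ (2 * A)) * H := by ring
          _ ≤ (H : ℝ) ^ (1 - ε) * (H : ℝ) ^ ε * H := by gcongr
          _ = H ^ 2 := by rw [hsplit]; ring
      exact le_of_mul_le_mul_right h3 (hLp _)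
    exact_mod_cast h1
  refine h H hH0 z hz1 hz2 (fun c : ℕ => (b : ℤ) ^ 2 - 4 * (a : ℤ) * (c : ℤ)) (-(4 * (a : ℤ))) ?_ ?_ ?_ ?_
    (9 * (H : ℝ) ^ (1 - ε) * L ^ A) (by positivity) ?_ ?_
  · have : (a : ℤ) ≠ 0 := by exact_mod_cast (by omega : a ≠ 0)
    intro h0
    apply this
    linarith
  · have h1 : (-(4 * (a : ℤ))).natAbs = 4 * a := by omega
    rw [h1]
    calc 4 * a ≤ H * H := Nat.mul_le_mul (by omega) haHn
      _ ≤ H * H * H := Nat.le_mul_of_pos_right _ (by omega)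
      _ = H ^ 3 := by ring
  · intro c hc
    rw [mem_Icc] at hc
    calc ((b : ℤ) ^ 2 - 4 * (a : ℤ) * (c : ℤ)).natAbs ≤ ((b : ℤ) ^ 2).natAbs + (4 * (a : ℤ) * (c : ℤ)).natAbs :=
          Int.natAbs_sub_le _ _
      _ = b ^ 2 + 4 * a * c := by
          rw [Int.natAbs_pow, Int.natAbs_mul, Int.natAbs_mul]
          simp
      _ ≤ H ^ 2 + 4 * H * H := by
          apply add_le_add (Nat.pow_le_pow_left hbH 2)
          exact Nat.mul_le_mul (Nat.mul_le_mul_left 4 haHn) hc.2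
      _ = 5 * H ^ 2 := by ring
      _ ≤ H * H ^ 2 := Nat.mul_le_mul_right _ (by omega)
      _ = H ^ 3 := by ring
  · intro P Z hP τ hτ
    have e : ∀ c : ℕ, (b : ℤ) ^ 2 - 4 * (a : ℤ) * (c : ℤ) = (b : ℤ) ^ 2 + (-(4 * (a : ℤ))) * (c : ℤ) := by
      intro c; ring
    simp only [e]
    exact low_count_lin ((b : ℤ) ^ 2) (-(4 * (a : ℤ))) P z Z (H + 1) hz1' hP τ hτ
  · intro d
    refine (sol_card a b H ha hb1 (by omega) hab d).trans ?_
    have h1 : (8 * a * H / b : ℝ) ≤ 8 * a * L ^ A := by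
      rw [div_le_iff₀ hb0]
      calc (8 * a * H : ℝ) ≤ 8 * a * (b * L ^ A) := by gcongr
        _ = _ := by ring
    have h2 : (8 * a * L ^ A : ℝ) ≤ 8 * (H : ℝ) ^ (1 - ε) * L ^ A := by gcongr
    have h3 : (1 : ℝ) ≤ (H : ℝ) ^ (1 - ε) * L ^ A := by
      have h4 : (1 : ℝ) ≤ (H : ℝ) ^ (1 - ε) := by
        have : (1 : ℝ) ≤ a := by exact_mod_cast ha
        exact this.trans haH
      exact one_le_mul_of_one_le_of_one_le h4 (one_le_pow₀ hL1)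
    linarith
  · have e1 : (9 * (H : ℝ) ^ (1 - ε) * L ^ A) ^ κ = (9 * L ^ A) ^ κ * (H : ℝ) ^ ((1 - ε) * κ) := by
      rw [show 9 * (H : ℝ) ^ (1 - ε) * L ^ A = (9 * L ^ A) * (H : ℝ) ^ (1 - ε) by ring, mul_pow]
      congr 1
      rw [← Real.rpow_natCast, ← Real.rpow_mul hH0'.le]
    have e2 : (H : ℝ) ^ (κ - 1) = (H : ℝ) ^ ((κ : ℝ) - 1) := by
      rw [← Real.rpow_natCast]
      congr 1
      rw [Nat.cast_sub (by omega)]
      norm_num
    rw [e1, e2]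
    calc (9 * L ^ A) ^ κ * (H : ℝ) ^ ((1 - ε) * κ) ≤ H * (H : ℝ) ^ ((1 - ε) * κ) := by gcongr
      _ = (H : ℝ) ^ (1 + (1 - ε) * κ) := by rw [Real.rpow_add hH0', Real.rpow_one]
      _ ≤ (H : ℝ) ^ ((κ : ℝ) - 1) := by
          apply Real.rpow_le_rpow_of_exponent_le (by linarith)
          nlinarith

end Pool.Agent.helper24_TP.Tail
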