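import Pool.Agent.helper24_TP.An
import Pool.Agent.helper24_TP.TailC
import Pool.Agent.Y868.TB.F2

set_option autoImplicit false

/-!
The formula of Conjecture F for almost all pairs `(b, c)`.
-/

namespace Pool.Agent.helper24_TP

open Finset Polynomial Filter Topology
open Pool.Agent.H300R2.BH (FF FF_eval SS rho pv lF)
open Pool.Agent.H373R2.T7 (Vz Vz_pos Vz_inv_small pz mem_pz)
open Pool.Agent.H442R2.EHI (evt_log_pow evt_log_ge)
open Pool.Agent.W468.ConjF (Admissible CF CF_tendsto SJ)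
open Pool.Agent.W218.HF.QFinal (eps gcdProd cutC gcdProd_pos eps_pos)
open Pool.Agent.Y868.TA (dens pol)
open Pool.Agent.Y868.TB (NoBig const_close dens_low CF_eq')

lemma SS_dens (a b c z : ℕ) : SS z (Fp a c b) = dens 0 (c : ℤ) a b z := by
  unfold Pool.Agent.Y868.TA.dens Pool.Agent.TH204.WR.hh
  have h : ∀ p, rho (Fp a c b) p = Pool.Agent.TH204.WR.rho (pol 0 a b) (c : ℤ) p := by
    intro p
    unfold Pool.Agent.TH204.WR.rho Pool.Agent.H300R2.BH.rho
    congr 1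
    apply filter_congr
    intro k _
    rw [Fp_eval, Pool.Agent.Y868.TA.pol_eval, Polynomial.eval_zero]
    have e : (((c + a * k ^ 2 + b * k : ℕ) : ℤ)) = (k : ℤ) * (0 + (a : ℤ) * k + (b : ℤ)) + c := by
      push_cast; ring
    rw [e]
  have hV : Vz z = ∏ p ∈ (Icc 1 z).filter Nat.Prime, (1 - 1 / (p : ℝ)) := rfl
  have hP : pz z = (Icc 1 z).filter Nat.Prime := rfl
  unfold SS
  rw [prod_div_distrib, ← hV, hP, div_eq_mul_inv, mul_comm]
  simp only [h]

open Classical in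
/-- `b` for which a prime above `z` divides `a` and `b` -/
lemma bigb_card (a H z : ℕ) (ha : 1 ≤ a) (hz : 1 ≤ z) :
    (((Icc 1 H).filter (fun b : ℕ => ∃ p : ℕ, p.Prime ∧ z < p ∧ p ∣ a ∧ p ∣ b)).card : ℝ) ≤
      2 * Real.log a * (H / z) := by
  classical
  have hz0 : (0 : ℝ) < z := by exact_mod_cast hz
  have hsub : (Icc 1 H).filter (fun b : ℕ => ∃ p : ℕ, p.Prime ∧ z < p ∧ p ∣ a ∧ p ∣ b) ⊆
      (a.primeFactors.filter (fun p => z < p)).biUnion (fun p => (Icc 1 H).filter (fun b => p ∣ b)) := by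
    intro b hb
    rw [mem_filter] at hb
    obtain ⟨h1, p, hp, hzp, h2, h3⟩ := hb
    rw [mem_biUnion]
    refine ⟨p, ?_, ?_⟩
    · rw [mem_filter, Nat.mem_primeFactors]
      exact ⟨⟨hp, h2, by omega⟩, hzp⟩
    · rw [mem_filter]
      exact ⟨h1, h3⟩
  calc _ ≤ (((a.primeFactors.filter (fun p => z < p)).biUnion
        (fun p => (Icc 1 H).filter (fun b => p ∣ b))).card : ℝ) := by exact_mod_cast card_le_card hsub
    _ ≤ ∑ p ∈ a.primeFactors.filter (fun p => z < p), (((Icc 1 H).filter (fun b => p ∣ b)).card : ℝ) := by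
        exact_mod_cast card_biUnion_le
    _ ≤ ∑ _p ∈ a.primeFactors.filter (fun p => z < p), (H / z : ℝ) := by
        apply sum_le_sum
        intro p hp
        rw [mem_filter] at hp
        refine (Pool.Agent.Y868.TB.card_mult H p).trans ?_
        apply div_le_div_of_nonneg_left (Nat.cast_nonneg _) hz0
        exact_mod_cast hp.2.le
    _ = ((a.primeFactors.filter (fun p => z < p)).card : ℝ) * (H / z) := by rw [sum_const, nsmul_eq_mul]
    _ ≤ 2 * Real.log a * (H / z) := by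
        apply mul_le_mul_of_nonneg_right _ (by positivity)
        refine le_trans ?_ (Pool.Agent.H398R2.BV.omega_le_log a (by omega))
        exact_mod_cast card_le_card (filter_subset _ _)

/-- the case of one pair -/
lemma pair_one (A B a b c H z : ℕ) (L : ℝ) (hLd : L = Real.log H) (hL : 2000 ≤ L) (ha : 1 ≤ a)
    (hb : 1 ≤ b) (hc : 1 ≤ c) (haH : a ≤ H) (hbH : b ≤ H) (hcH : c ≤ H)
    (hadm : Admissible (a : ℤ) (b : ℤ) (c : ℤ)) (hz : 2 ≤ z)
    (hab : NoBig a b z) (δ : ℝ) (hδ : ∀ᶠ N in atTop, |SJ ((b : ℤ) ^ 2 - 4 * a * c) z N| ≤ δ)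
    (hη : δ + 5 / z + 4 * Real.log a / z ≤ 1 / (8 * L ^ (A + 3))) (hV : (Vz z)⁻¹ ≤ L)
    (hy1 : ∀ y : ℕ, a * y * L ^ B ≤ H →
      |pv (Fp a c b) y - SS z (Fp a c b) * lF (Fp a c b) y| ≤ y / L ^ (A + 8) + L ^ B) :
    ∃ K : ℝ, 0 < K ∧ Tendsto (fun z => CF (a : ℤ) (b : ℤ) (c : ℤ) z) atTop (𝓝 K) ∧
      ∀ y : ℕ, L ^ (A + B + 8) ≤ y → a * y * L ^ B ≤ H →
        |(((Icc 1 y).filter (fun k : ℕ => (c + a * k ^ 2 + b * k).Prime)).card : ℝ) -
          2 * K * ∑ k ∈ Icc 1 y, 1 / Real.log ((c + a * k ^ 2 + b * k : ℕ) : ℝ)| ≤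
        2 * K * (∑ k ∈ Icc 1 y, 1 / Real.log ((c + a * k ^ 2 + b * k : ℕ) : ℝ)) / L ^ A := by
  have hL0 : 0 < L := by linarith
  have hL1 : 1 ≤ L := by linarith
  have hLp0 : ∀ n : ℕ, 0 < L ^ n := fun n => by positivity
  have hLp : ∀ n : ℕ, 1 ≤ L ^ n := fun n => one_le_pow₀ hL1
  have hLmono : ∀ m n : ℕ, m ≤ n → L ^ m ≤ L ^ n := fun m n h => pow_le_pow_right₀ hL1 h
  have hz0 : (0 : ℝ) < z := by exact_mod_cast (by omega : 0 < z)
  have hη1 : δ + 5 / z + 4 * Real.log a / z ≤ 1 / 2 := by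
    refine hη.trans ?_
    apply one_div_le_one_div_of_le (by norm_num)
    linarith [hLp (A + 3)]
  obtain ⟨S, hS0, hSt, hS⟩ := const_close a b (c : ℤ) hadm z hz hab δ hδ hη1
  set η := δ + 5 / z + 4 * Real.log a / z with hηd
  have hg := gcdProd_pos a b
  have he := eps_pos a b
  obtain ⟨K, hKd⟩ : ∃ K, K = eps a b * S * gcdProd a b / 2 := ⟨_, rfl⟩
  have hK0 : 0 < K := by rw [hKd]; positivity
  have hM : eps a b * S * gcdProd a b = 2 * K := by rw [hKd]; ring
  rw [hM, ← SS_dens] at hS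
  have hlow := dens_low a b (c : ℤ) hadm z hz L hV
  rw [← SS_dens] at hlow
  set D := SS z (Fp a c b) with hD
  have hηK : 2 * η * (2 * K) ≤ 2 * K := by
    have : 2 * η ≤ 1 := by linarith
    nlinarith
  have hKlow : 1 ≤ 1024 * L ^ 3 * K := by
    have h2 := (abs_le.1 hS).2
    have h3 : D ≤ 4 * K := by linarith
    have h4 : 1 / (256 * L ^ 3) ≤ 4 * K := hlow.trans h3
    rw [div_le_iff₀ (by positivity)] at h4
    linarith
  -- the limit
  have hlim : Tendsto (fun z => CF (a : ℤ) (b : ℤ) (c : ℤ) z) atTop (𝓝 K) := by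
    have h5 : Tendsto (fun z => eps a b * gcdProd a b / 2 * cutC a b (c : ℤ) z) atTop
        (𝓝 (eps a b * gcdProd a b / 2 * S)) := hSt.const_mul _
    have e : eps a b * gcdProd a b / 2 * S = K := by rw [hKd]; ring
    rw [e] at h5
    refine h5.congr' ?_
    filter_upwards [eventually_ge_atTop z] with N hN
    have h6 := CF_eq' a b (c : ℤ) (by exact_mod_cast ha) N (fun p hp hpN => hab p hp (by omega))
    linarith
  -- the formula
  have hmain : ∀ y : ℕ, a * y * L ^ B ≤ H →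
      |pv (Fp a c b) y - 2 * K * lF (Fp a c b) y| ≤ K * y / L ^ (A + 3) + L ^ B := by
    intro y hy
    have h1 := hy1 y hy
    have hl := lF_le a c b ha hb hc y
    have hy0 : (0 : ℝ) ≤ y := Nat.cast_nonneg _
    have e : pv (Fp a c b) y - 2 * K * lF (Fp a c b) y =
        (pv (Fp a c b) y - D * lF (Fp a c b) y) + (D - 2 * K) * lF (Fp a c b) y := by ring
    rw [e]
    refine (abs_add_le _ _).trans ?_
    have h2 : |(D - 2 * K) * lF (Fp a c b) y| ≤ (2 * η * (2 * K)) * y := by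
      rw [abs_mul, abs_of_nonneg hl.1]
      have h0 : 0 ≤ 2 * η * (2 * K) := (abs_nonneg _).trans hS
      exact mul_le_mul hS hl.2 hl.1 h0
    have h3 : (2 * η * (2 * K)) * y ≤ (1 / 2) * (K * y / L ^ (A + 3)) := by
      have h4 : 4 * η ≤ (1 / 2) * (1 / L ^ (A + 3)) := by
        have : (1 : ℝ) / (8 * L ^ (A + 3)) = (1 / 8) * (1 / L ^ (A + 3)) := by field_simp
        rw [this] at hη
        linarith
      have h5 := mul_le_mul_of_nonneg_right h4 (show 0 ≤ K * y by positivity)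
      calc (2 * η * (2 * K)) * y = 4 * η * (K * y) := by ring
        _ ≤ (1 / 2) * (1 / L ^ (A + 3)) * (K * y) := h5
        _ = _ := by ring
    have h4 : (y : ℝ) / L ^ (A + 8) ≤ (1 / 2) * (K * y / L ^ (A + 3)) := by
      rw [div_le_iff₀ (hLp0 _)]
      have e1 : (1 / 2) * (K * y / L ^ (A + 3)) * L ^ (A + 8) = (1 / 2) * L ^ 5 * K * y := by
        rw [show A + 8 = (A + 3) + 5 by ring, pow_add L (A + 3)]
        field_simp
      rw [e1]
      have h5 : 1 ≤ (1 / 2) * L ^ 5 * K := by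
        have h6 : (2048 : ℝ) ≤ L ^ 2 := by nlinarith
        have h7 : 1024 * L ^ 3 * K ≤ (1 / 2) * L ^ 5 * K := by
          have h8 : L ^ 5 = L ^ 2 * L ^ 3 := by ring
          rw [h8]
          have h9 : 0 ≤ L ^ 3 * K := by positivity
          nlinarith
        linarith
      nlinarith
    linarith
  refine ⟨K, hK0, hlim, fun y hyL hy => ?_⟩
  have h := hmain y hy
  rw [pv_eq, lF_eq a c b y ha hb hc] at h
  refine h.trans ?_
  set S1 := ∑ k ∈ Icc 1 y, 1 / Real.log ((c + a * k ^ 2 + b * k : ℕ) : ℝ) with hS1d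
  have har : (1 : ℝ) ≤ a := by exact_mod_cast ha
  have hy0 : (0 : ℝ) < y := lt_of_lt_of_le (hLp0 _) hyL
  have hyH : (y : ℝ) ≤ H := by
    refine le_trans ?_ hy
    rw [mul_comm (a : ℝ) y, mul_assoc]
    exact le_mul_of_one_le_right hy0.le (one_le_mul_of_one_le_of_one_le har (hLp _))
  have hyHn : y ≤ H := by exact_mod_cast hyH
  have hH4 : 4 ≤ H := by
    have h1 : (y : ℝ) ≥ 4 := by
      have : L ≤ L ^ (A + B + 8) := by
        calc L = L ^ 1 := (pow_one L).symm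
          _ ≤ _ := hLmono _ _ (by omega)
      linarith
    have h2 : 4 ≤ y := by exact_mod_cast h1
    omega
  -- lower bound for the sum
  have hlow2 : (y : ℝ) / (4 * L) ≤ S1 := by
    calc (y : ℝ) / (4 * L) = ∑ k ∈ Icc 1 y, 1 / (4 * L) := by
          rw [sum_const, Nat.card_Icc, nsmul_eq_mul, Nat.add_sub_cancel]; ring
      _ ≤ _ := by
          apply sum_le_sum
          intro k hk
          rw [mem_Icc] at hk
          have h1 := log_ge_one _ (Fp_ge a c b k ha hb hc hk.1)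
          apply one_div_le_one_div_of_le (by linarith)
          have h2 : c + a * k ^ 2 + b * k ≤ H ^ 4 := by
            have hkH : k ≤ H := hk.2.trans hyHn
            calc c + a * k ^ 2 + b * k ≤ H + H * H ^ 2 + H * H := by
                  apply Nat.add_le_add (Nat.add_le_add hcH _) (Nat.mul_le_mul hbH hkH)
                  exact Nat.mul_le_mul haH (Nat.pow_le_pow_left hkH 2)
              _ ≤ H ^ 3 + H ^ 3 + H ^ 3 := by
                  have e1 : H ≤ H ^ 3 := Nat.le_self_pow (by norm_num) H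
                  have e2 : H * H ≤ H ^ 3 := by
                    calc H * H ≤ H * H * H := Nat.le_mul_of_pos_right _ (by omega)
                      _ = H ^ 3 := by ring
                  have e3 : H * H ^ 2 = H ^ 3 := by ring
                  omega
              _ = 3 * H ^ 3 := by ring
              _ ≤ H * H ^ 3 := Nat.mul_le_mul_right _ (by omega)
              _ = H ^ 4 := by ring
          have h3 : ((c + a * k ^ 2 + b * k : ℕ) : ℝ) ≤ (H : ℝ) ^ 4 := by exact_mod_cast h2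
          have h4 : (0 : ℝ) < ((c + a * k ^ 2 + b * k : ℕ) : ℝ) := by
            have := Fp_ge a c b k ha hb hc hk.1
            exact_mod_cast (by omega : 0 < c + a * k ^ 2 + b * k)
          have h5 := Real.log_le_log h4 h3
          rw [Real.log_pow, ← hLd] at h5
          exact_mod_cast h5
  have h7 : (y : ℝ) ≤ 4 * L * S1 := by
    rw [div_le_iff₀ (by positivity)] at hlow2
    linarith
  have hS10 : 0 ≤ S1 := le_trans (by positivity) hlow2
  -- the two error terms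
  have h8 : K * y / L ^ (A + 3) ≤ (1 / 2) * (2 * K * S1 / L ^ A) := by
    calc K * y / L ^ (A + 3) ≤ K * (4 * L * S1) / L ^ (A + 3) := by gcongr
      _ = (K * S1 / L ^ A) * (4 / L ^ 2) := by rw [pow_add]; field_simp
      _ ≤ (K * S1 / L ^ A) * 1 := by
          apply mul_le_mul_of_nonneg_left _ (by positivity)
          rw [div_le_one (by positivity)]
          nlinarith
      _ = _ := by ring
  have h9 : L ^ B ≤ (1 / 2) * (2 * K * S1 / L ^ A) := by
    have e1 : (1 / 2) * (2 * K * S1 / L ^ A) = K * S1 / L ^ A := by ring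
    rw [e1, le_div_iff₀ (hLp0 _)]
    have h10 : L ^ (A + B + 8) ≤ 4 * L * S1 := hyL.trans h7
    have h11 : L ^ (A + B + 8) = L ^ B * L ^ A * L ^ 8 := by ring
    rw [h11] at h10
    have h12 : L ^ B * L ^ A * L ^ 8 * K ≤ 4 * L * S1 * K := mul_le_mul_of_nonneg_right h10 hK0.le
    have h13 : 4 * L ≤ L ^ 8 * K := by
      have h14 : L ^ 8 * K = (1024 * L ^ 3 * K) * (L ^ 5 / 1024) := by ring
      rw [h14]
      have h15 : 4 * L ≤ L ^ 5 / 1024 := by
        rw [le_div_iff₀ (by norm_num)]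
        have h16 : (4096 : ℝ) ≤ L ^ 4 := by
          calc (4096 : ℝ) ≤ 2000 ^ 4 := by norm_num
            _ ≤ L ^ 4 := by gcongr
        calc 4 * L * 1024 = L * 4096 := by ring
          _ ≤ L * L ^ 4 := by gcongr
          _ = L ^ 5 := by ring
      have h17 : 0 ≤ L ^ 5 / 1024 := by positivity
      nlinarith
    have h18 : L ^ B * L ^ A * (4 * L) ≤ L ^ B * L ^ A * (L ^ 8 * K) := by gcongr
    have h19 : (L ^ B * L ^ A) * (4 * L) ≤ (K * S1) * (4 * L) := by nlinarith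
    exact le_of_mul_le_mul_right h19 (by positivity)
  have e2 : 2 * K * S1 / L ^ A = (1 / 2) * (2 * K * S1 / L ^ A) + (1 / 2) * (2 * K * S1 / L ^ A) := by ring
  rw [e2]
  exact add_le_add h8 h9

/-- **Conjecture F for almost all pairs `(b, c)`.** -/
theorem final (ε : ℝ) (hε : 0 < ε) (A : ℕ) : ∃ B H₀ : ℕ, ∀ H : ℕ, H₀ ≤ H → ∀ a : ℕ, 1 ≤ a →
    (a : ℝ) ≤ (H : ℝ) ^ (1 - ε) →
    ∃ Bad : Finset (ℕ × ℕ), (Bad.card : ℝ) ≤ (H : ℝ) ^ 2 / Real.log H ^ A ∧
      ∀ b ∈ Icc 1 H, ∀ c ∈ Icc 1 H, (b, c) ∉ Bad → Admissible (a : ℤ) (b : ℤ) (c : ℤ) →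
        ∃ K : ℝ, 0 < K ∧ Tendsto (fun z => CF (a : ℤ) (b : ℤ) (c : ℤ) z) atTop (𝓝 K) ∧
          ∀ y : ℕ, Real.log H ^ B ≤ y → a * y * Real.log H ^ B ≤ H →
            |(((Icc 1 y).filter (fun k : ℕ => (c + a * k ^ 2 + b * k).Prime)).card : ℝ) -
              2 * K * ∑ k ∈ Icc 1 y, 1 / Real.log ((c + a * k ^ 2 + b * k : ℕ) : ℝ)| ≤
            2 * K * (∑ k ∈ Icc 1 y, 1 / Real.log ((c + a * k ^ 2 + b * k : ℕ) : ℝ)) / Real.log H ^ A := by
  classical
  obtain ⟨E1, hE1⟩ := analytic (A + 8)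
  obtain ⟨U, hU⟩ : ∃ U, U = A + 5 := ⟨_, rfl⟩
  obtain ⟨E, hE⟩ : ∃ E, E = E1 + (3 * U + 3) + A + 5 := ⟨_, rfl⟩
  obtain ⟨B, H₁, hB⟩ := hE1 E (by omega)
  obtain ⟨H₂, hT⟩ := Tail.tail_c ε hε (A + 8 + 2) U (E + 1)
  obtain ⟨H₃, hV⟩ := Vz_inv_small (E + 1)
  have hev : ∀ᶠ H : ℕ in atTop, H₁ ≤ H ∧ H₂ ≤ H ∧ H₃ ≤ H ∧ 3 ≤ H ∧ 2000 ≤ Real.log H := by
    filter_upwards [eventually_ge_atTop H₁, eventually_ge_atTop H₂, eventually_ge_atTop H₃,
      eventually_ge_atTop 3, evt_log_ge 2000] with H g1 g2 g3 g4 g5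
    exact ⟨g1, g2, g3, g4, g5⟩
  obtain ⟨H₀, hH₀⟩ := eventually_atTop.mp hev
  refine ⟨A + B + 8, H₀, fun H hH a ha haH => ?_⟩
  obtain ⟨hH1, hH2, hH3, hH3', hL⟩ := hH₀ H hH
  set L := Real.log H with hLdef
  have hL0 : 0 < L := by linarith
  have hL1 : 1 ≤ L := by linarith
  have hLp0 : ∀ n : ℕ, 0 < L ^ n := fun n => by positivity
  have hLp : ∀ n : ℕ, 1 ≤ L ^ n := fun n => one_le_pow₀ hL1
  have hLmono : ∀ m n : ℕ, m ≤ n → L ^ m ≤ L ^ n := fun m n h => pow_le_pow_right₀ hL1 h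
  have hHr : (3:ℝ) ≤ H := by exact_mod_cast hH3'
  have hH0 : (0:ℝ) < H := by linarith
  have har : (1:ℝ) ≤ a := by exact_mod_cast ha
  have haH' : (a : ℝ) ≤ H := by
    refine haH.trans ?_
    calc (H : ℝ) ^ (1 - ε) ≤ (H : ℝ) ^ (1 : ℝ) :=
          Real.rpow_le_rpow_of_exponent_le (by linarith) (by linarith)
      _ = H := Real.rpow_one _
  have haHn : a ≤ H := by exact_mod_cast haH'
  obtain ⟨z, hz⟩ : ∃ z, z = ⌈L ^ E⌉₊ := ⟨_, rfl⟩
  have hzlo : L ^ E ≤ z := by rw [hz]; exact Nat.le_ceil _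
  have hzhi : (z : ℝ) ≤ L ^ (E + 1) := by
    have := Nat.ceil_lt_add_one (show 0 ≤ L ^ E by positivity)
    rw [← hz] at this
    calc (z : ℝ) ≤ L ^ E + 1 := this.le
      _ ≤ L ^ E + L ^ E := by linarith [hLp E]
      _ = 2 * L ^ E := by ring
      _ ≤ L * L ^ E := mul_le_mul_of_nonneg_right (by linarith) (by positivity)
      _ = L ^ (E + 1) := by ring
  have hLz : L ≤ z := by
    refine le_trans ?_ hzlo
    calc L = L ^ 1 := (pow_one L).symm
      _ ≤ _ := hLmono _ _ (by omega)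
  have hz2 : 2 ≤ z := by
    have : (2 : ℝ) ≤ z := by linarith
    exact_mod_cast this
  have hz0 : (0 : ℝ) < z := by linarith
  obtain ⟨Ex, hEx1, hEx2⟩ := hB H hH1 z hzlo hzhi a ha
  have htail : ∀ b : ℕ, ∃ X : Finset ℕ, (X.card : ℝ) ≤ H / L ^ U ∧ ((H : ℝ) ≤ b * L ^ (A + 8 + 2) → b ≤ H →
      ∀ c ∈ Icc 1 H, c ∉ X → ∀ᶠ N in atTop, |SJ ((b : ℤ) ^ 2 - 4 * (a : ℤ) * (c : ℤ)) z N| ≤ 1 / L ^ U) := by
    intro b
    by_cases h : (H : ℝ) ≤ b * L ^ (A + 8 + 2) ∧ b ≤ H
    · obtain ⟨X, h1, h2⟩ := hT H hH2 z ((hLmono _ _ (by omega)).trans hzlo) hzhi a b ha haH h.1 h.2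
      exact ⟨X, h1, fun _ _ c hc hcX => (h2 c hc hcX).2⟩
    · refine ⟨∅, ?_, fun h1 h2 => absurd ⟨h1, h2⟩ h⟩
      rw [card_empty]
      push_cast
      positivity
  choose X hX1 hX2 using htail
  set Bad1 : Finset (ℕ × ℕ) := (Icc 1 H).biUnion (fun b => (X b).image (fun c => (b, c))) with hBad1
  set Bad2 : Finset (ℕ × ℕ) := (Icc 1 H).filter (fun b : ℕ => ∃ p : ℕ, p.Prime ∧ z < p ∧ p ∣ a ∧ p ∣ b) ×ˢ
    Icc 1 H with hBad2
  refine ⟨Ex ∪ (Bad1 ∪ Bad2), ?_, ?_⟩
  · have h1 : (Bad1.card : ℝ) ≤ (H:ℝ) ^ 2 / L ^ U := by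
      calc (Bad1.card : ℝ) ≤ ∑ b ∈ Icc 1 H, (((X b).image (fun c => (b, c))).card : ℝ) := by
            rw [hBad1]
            exact_mod_cast card_biUnion_le
        _ ≤ ∑ b ∈ Icc 1 H, (H / L ^ U : ℝ) := by
            apply sum_le_sum
            intro b _
            refine le_trans ?_ (hX1 b)
            exact_mod_cast card_image_le
        _ = (H:ℝ) ^ 2 / L ^ U := by
            rw [sum_const, Nat.card_Icc, nsmul_eq_mul, Nat.add_sub_cancel]; ring
    have h2 : (Bad2.card : ℝ) ≤ (H:ℝ) ^ 2 / L ^ (A + 4) := by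
      rw [hBad2, card_product, Nat.card_Icc, Nat.add_sub_cancel]
      push_cast
      have h3 := bigb_card a H z ha (by omega)
      have hla : Real.log a ≤ L := Real.log_le_log (by linarith) haH'
      have hzz : (H:ℝ) / z ≤ H / L ^ (A + 6) := by
        apply div_le_div_of_nonneg_left hH0.le (hLp0 _)
        exact (hLmono _ _ (by omega)).trans hzlo
      have hla0 : 0 ≤ Real.log a := Real.log_nonneg har
      calc _ ≤ (2 * Real.log a * (H / z)) * (H:ℝ) := mul_le_mul_of_nonneg_right h3 hH0.le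
        _ ≤ (2 * L * (H / L ^ (A + 6))) * H := by gcongr
        _ = ((H:ℝ) ^ 2 / L ^ (A + 4)) * (2 / L) := by
            rw [show A + 6 = (A + 4) + 2 by ring, pow_add L (A + 4)]
            field_simp
        _ ≤ ((H:ℝ) ^ 2 / L ^ (A + 4)) * 1 := by
            apply mul_le_mul_of_nonneg_left _ (by positivity)
            rw [div_le_one hL0]
            linarith
        _ = _ := mul_one _
    calc ((Ex ∪ (Bad1 ∪ Bad2)).card : ℝ) ≤ (Ex.card : ℝ) + (Bad1.card + Bad2.card) := by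
          have g1 := card_union_le Ex (Bad1 ∪ Bad2)
          have g2 := card_union_le Bad1 Bad2
          exact_mod_cast (by omega : (Ex ∪ (Bad1 ∪ Bad2)).card ≤ Ex.card + (Bad1.card + Bad2.card))
      _ ≤ (H:ℝ) ^ 2 / L ^ (A + 8) + ((H:ℝ) ^ 2 / L ^ U + (H:ℝ) ^ 2 / L ^ (A + 4)) := by gcongr
      _ ≤ (H:ℝ) ^ 2 / L ^ (A + 1) + ((H:ℝ) ^ 2 / L ^ (A + 1) + (H:ℝ) ^ 2 / L ^ (A + 1)) := by
          gcongr <;> first | exact hL1 | omega
      _ = ((H:ℝ) ^ 2 / L ^ A) * (3 / L) := by rw [pow_succ L A]; field_simp; ring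
      _ ≤ ((H:ℝ) ^ 2 / L ^ A) * 1 := by
          apply mul_le_mul_of_nonneg_left _ (by positivity)
          rw [div_le_one hL0]
          linarith
      _ = _ := mul_one _
  · intro b hb c hc hbc hadm
    rw [mem_union, mem_union, not_or, not_or] at hbc
    obtain ⟨n1, n2, n3⟩ := hbc
    obtain ⟨f1, f2⟩ := hEx2 b hb c hc n1
    have hb' := mem_Icc.1 hb
    have hc' := mem_Icc.1 hc
    have hcX : c ∉ X b := by
      intro h
      apply n2
      rw [hBad1, mem_biUnion]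
      exact ⟨b, hb, mem_image.2 ⟨c, h, rfl⟩⟩
    have hSJ := hX2 b f1 hb'.2 c hc hcX
    have hab : NoBig a b z := by
      intro p hp hzp hpd
      apply n3
      rw [hBad2, mem_product, mem_filter]
      exact ⟨⟨hb, p, hp, hzp, by exact_mod_cast hpd.1, by exact_mod_cast hpd.2⟩, hc⟩
    have hη : 1 / L ^ U + 5 / z + 4 * Real.log a / z ≤ 1 / (8 * L ^ (A + 3)) := by
      have hla : Real.log a ≤ L := Real.log_le_log (by linarith) haH'
      have hla0 : 0 ≤ Real.log a := Real.log_nonneg har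
      have hzz : 1 / (z:ℝ) ≤ 1 / L ^ (A + 5) := by
        apply one_div_le_one_div_of_le (hLp0 _)
        exact (hLmono _ _ (by omega)).trans hzlo
      have e1 : (5:ℝ) / z + 4 * Real.log a / z = (5 + 4 * Real.log a) * (1 / z) := by ring
      have e2 : (5 + 4 * Real.log a) * (1 / z) ≤ (5 * L) * (1 / L ^ (A + 5)) := by
        apply mul_le_mul _ hzz (by positivity) (by positivity)
        linarith
      rw [add_assoc, e1, hU]
      refine (add_le_add le_rfl e2).trans ?_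
      have e3 : 1 / L ^ (A + 5) + 5 * L * (1 / L ^ (A + 5)) = (1 + 5 * L) * (1 / L ^ 2) * (1 / L ^ (A + 3)) := by
        rw [show A + 5 = 2 + (A + 3) by ring, pow_add L 2]
        field_simp
      have e4 : (1:ℝ) / (8 * L ^ (A + 3)) = (1 / 8) * (1 / L ^ (A + 3)) := by field_simp
      rw [e3, e4]
      apply mul_le_mul_of_nonneg_right _ (by positivity)
      rw [mul_one_div, div_le_iff₀ (by positivity)]
      nlinarith
    obtain ⟨K, k1, k2, k3⟩ := pair_one A B a b c H z L hLdef hL ha hb'.1 hc'.1 haHn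
      hb'.2 hc'.2 hadm hz2 hab (1 / L ^ U) hSJ hη (hV H hH3 z (by omega) hzhi) f2
    refine ⟨K, k1, k2, fun y hyL hy => ?_⟩
    have hy' : a * (y:ℝ) * L ^ B ≤ H := by
      refine le_trans ?_ hy
      apply mul_le_mul_of_nonneg_left (hLmono _ _ (by omega)) (by positivity)
    exact k3 y hyL hy'

end Pool.Agent.helper24_TP
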