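import Pool.Agent.H300R2.BH.BHmain

set_option autoImplicit false

/-!
The singular series of the family `a + R(k) + σ d k^j` when the degree of `R` may exceed `j`
(adapted from H415R2.BH, H394R2.BH and H300R2.BH, with a bound `J` for the degree).
-/

namespace Pool.Agent.helper24_TP

open Finset Polynomial Filter
open Pool.Agent.H442R2.EHI (evt_log_pow evt_log_ge)
open Pool.Agent.H300R2.BH (FF rho tt TT GG SS bad GG_abs SS_abs ev_tail)
open Pool.Agent.H394R2.BH (bad_dvd exists_div cnt_real)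
open Pool.Agent.H415R2.BH (HH rh tH rh_le rho_FF eval_FF sum_tH_sq rho_le_deg tH_mod Ioc_le prod_period
  prod_sum off_diag gcd_sum W_le TT_FF)
open Pool.Agent.H338R2.BH (tail_pointwise)

lemma natDegree_FFJ (R : ℤ[X]) (j J : ℕ) (hjJ : j ≤ J) (hR : R.natDegree ≤ J) (σ : ℤ) (a d : ℕ) :
    (FF R j σ a d).natDegree ≤ J := by
  unfold FF
  refine (natDegree_add_le _ _).trans (max_le ?_ ?_)
  · refine (natDegree_add_le _ _).trans (max_le ?_ hR)
    rw [natDegree_C]; omega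
  · exact (natDegree_C_mul_X_pow_le _ _).trans hjJ

/-- local second moment -/
lemma local_sq (j J : ℕ) (hj : 1 ≤ j) (hjJ : j ≤ J) (R : ℤ[X]) (hR : R.natDegree ≤ J) (σ : ℤ) (d p : ℕ)
    (hp : p.Prime) :
    ∑ a ∈ range p, (tH (HH R j σ d) p a) ^ 2 ≤
      4 * J * (if (p : ℤ) ∣ (R.eval 1 - R.eval 0) + σ * d then (p : ℝ) else 1) / p := by
  have hp2 : (2 : ℝ) ≤ p := by exact_mod_cast hp.two_le
  have hj' : (1 : ℝ) ≤ J := by exact_mod_cast hj.trans hjJ
  split_ifs with hdvd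
  · have h1 := sum_tH_sq (HH R j σ d) p hp.two_le p (by linarith)
      (fun a => by exact_mod_cast rh_le _ a p)
    have e1 : 4 * (J : ℝ) * p / p = 4 * J := by field_simp
    rw [e1]
    have e2 : 2 * ((p : ℝ) - 1) / ((p : ℝ) - 1) = 2 := by
      have : (p : ℝ) - 1 ≠ 0 := by intro h; linarith
      field_simp
    rw [e2] at h1
    linarith
  · have h1 := sum_tH_sq (HH R j σ d) p hp.two_le J hj' (fun a => by
      have h2 : rh (HH R j σ d) a p ≤ J := by
        rw [← rho_FF R j σ a d p]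
        apply (rho_le_deg _ p hp _).trans (natDegree_FFJ R j J hjJ hR σ a d)
        intro h0
        apply hdvd
        have := Fact.mk hp
        have ev : ∀ k : ℕ, (((FF R j σ a d).eval (k : ℤ) : ℤ) : ZMod p) = 0 := by
          intro k
          have h2 : ((FF R j σ a d).map (Int.castRingHom (ZMod p))).eval ((k : ℤ) : ZMod p) =
              (((FF R j σ a d).eval (k : ℤ) : ℤ) : ZMod p) := by
            rw [eval_map, ← eq_intCast (Int.castRingHom (ZMod p)) (k : ℤ), eval₂_at_apply,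
              eq_intCast]
          rw [← h2, h0]; simp
        have e0 := (ZMod.intCast_zmod_eq_zero_iff_dvd _ _).1 (ev 0)
        have e1 := (ZMod.intCast_zmod_eq_zero_iff_dvd _ _).1 (ev 1)
        have e2 := dvd_sub e1 e0
        rw [eval_FF, eval_FF] at e2
        unfold HH at e2
        have hj0 : j ≠ 0 := by omega
        simp only [Nat.cast_one, Nat.cast_zero, one_pow, mul_one, zero_pow hj0, mul_zero,
          add_zero] at e2
        have e3 : (a : ℤ) + (eval 1 R + σ * d) - (a + eval 0 R) = (eval 1 R - eval 0 R) + σ * d := by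
          ring
        rwa [e3] at e2
      exact_mod_cast h2)
    refine h1.trans ?_
    rw [div_le_div_iff₀ (by linarith) (by linarith)]
    nlinarith

/-- product over the primes dividing `q` -/
lemma diag_prod (j J : ℕ) (hj : 1 ≤ j) (hjJ : j ≤ J) (R : ℤ[X]) (hR : R.natDegree ≤ J) (σ : ℤ) (d q : ℕ)
    (hq : Squarefree q) :
    ∏ p ∈ q.primeFactors, ∑ a ∈ range p, (tH (HH R j σ d) p a) ^ 2 ≤
      (4 * (J : ℝ)) ^ q.primeFactors.card *
        (Nat.gcd q ((R.eval 1 - R.eval 0) + σ * d).natAbs : ℝ) / q := by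
  classical
  set z := (R.eval 1 - R.eval 0) + σ * d with hz
  have hq0 : q ≠ 0 := hq.ne_zero
  calc ∏ p ∈ q.primeFactors, ∑ a ∈ range p, (tH (HH R j σ d) p a) ^ 2
      ≤ ∏ p ∈ q.primeFactors, (4 * (J : ℝ) * (if (p : ℤ) ∣ z then (p : ℝ) else 1) / p) := by
        apply Finset.prod_le_prod
        · intro p _; exact sum_nonneg (fun _ _ => sq_nonneg _)
        · intro p hp; exact local_sq j J hj hjJ R hR σ d p (Nat.prime_of_mem_primeFactors hp)
    _ = (4 * (J : ℝ)) ^ q.primeFactors.card *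
          (∏ p ∈ q.primeFactors, (if (p : ℤ) ∣ z then (p : ℝ) else 1)) / q := by
        rw [prod_div_distrib, prod_mul_distrib, prod_const]
        congr 1
        rw [← Nat.cast_prod, Nat.prod_primeFactors_of_squarefree hq]
    _ ≤ _ := by
        apply div_le_div_of_nonneg_right _ (by positivity)
        apply mul_le_mul_of_nonneg_left _ (by positivity)
        rw [← prod_filter]
        have h1 : (∏ p ∈ q.primeFactors.filter (fun p : ℕ => (p : ℤ) ∣ z), p) ∣ Nat.gcd q z.natAbs := by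
          apply Finset.prod_primes_dvd
          · intro p hp
            exact (Nat.prime_of_mem_primeFactors (mem_filter.1 hp).1).prime
          · intro p hp
            rw [mem_filter] at hp
            exact Nat.dvd_gcd (Nat.dvd_of_mem_primeFactors hp.1) (Int.natCast_dvd.1 hp.2)
        have h2 := Nat.le_of_dvd (Nat.gcd_pos_of_pos_left _ (Nat.pos_of_ne_zero hq0)) h1
        rw [← Nat.cast_prod]
        exact Nat.cast_le.2 h2

/-- diagonal terms -/
lemma diag_le (j J : ℕ) (hj : 1 ≤ j) (hjJ : j ≤ J) (R : ℤ[X]) (hR : R.natDegree ≤ J) (σ : ℤ) (d q : ℕ)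
    (hq : Squarefree q) (a0 A : ℕ) (hqA : q ≤ A) :
    ∑ a ∈ Ioc a0 (a0 + A), (∏ p ∈ q.primeFactors, tH (HH R j σ d) p a) ^ 2 ≤
      2 * (A : ℝ) / q * ((4 * (J : ℝ)) ^ q.primeFactors.card *
        (Nat.gcd q ((R.eval 1 - R.eval 0) + σ * d).natAbs : ℝ) / q) := by
  have hq0 : 0 < q := Nat.pos_of_ne_zero hq.ne_zero
  have hq0' : (0 : ℝ) < q := by exact_mod_cast hq0
  have hqs : ∏ p ∈ q.primeFactors, p = q := Nat.prod_primeFactors_of_squarefree hq
  have hgp : ∀ p ∈ q.primeFactors, ∀ a, (fun p a => (tH (HH R j σ d) p a) ^ 2) p (a % p) =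
      (fun p a => (tH (HH R j σ d) p a) ^ 2) p a := by
    intro p _ a; simp only [tH_mod]
  have h1 := Ioc_le q hq0 (fun a => ∏ p ∈ q.primeFactors, (tH (HH R j σ d) p a) ^ 2)
    (fun a => by
      have := prod_period q.primeFactors (fun p a => (tH (HH R j σ d) p a) ^ 2) hgp a
      rwa [hqs] at this)
    (fun a => prod_nonneg (fun _ _ => sq_nonneg _)) a0 A
  have h2 := prod_sum q.primeFactors (fun p hp => Nat.prime_of_mem_primeFactors hp)
    (fun p a => (tH (HH R j σ d) p a) ^ 2) hgp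
  rw [hqs] at h2
  rw [h2] at h1
  have h3 : (A : ℝ) / q + 1 ≤ 2 * (A : ℝ) / q := by
    have : (1 : ℝ) ≤ (A : ℝ) / q := by
      rw [le_div_iff₀ hq0']; rw [one_mul]; exact_mod_cast hqA
    have e : 2 * (A : ℝ) / q = (A : ℝ) / q + (A : ℝ) / q := by ring
    rw [e]; linarith
  have h4 := diag_prod j J hj hjJ R hR σ d q hq
  have h5 : 0 ≤ ∏ p ∈ q.primeFactors, ∑ a ∈ range p, (tH (HH R j σ d) p a) ^ 2 :=
    prod_nonneg (fun p _ => sum_nonneg (fun _ _ => sq_nonneg _))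
  calc ∑ a ∈ Ioc a0 (a0 + A), (∏ p ∈ q.primeFactors, tH (HH R j σ d) p a) ^ 2
      = ∑ a ∈ Ioc a0 (a0 + A), ∏ p ∈ q.primeFactors, (tH (HH R j σ d) p a) ^ 2 := by
        apply sum_congr rfl; intro a _; rw [prod_pow]
    _ ≤ _ := h1
    _ ≤ 2 * (A : ℝ) / q * ∏ p ∈ q.primeFactors, ∑ a ∈ range p, (tH (HH R j σ d) p a) ^ 2 :=
        mul_le_mul_of_nonneg_right h3 h5
    _ ≤ _ := mul_le_mul_of_nonneg_left h4 (by positivity)

/-- T8 -/
theorem sing_l2 (j J : ℕ) (hj : 1 ≤ j) (hjJ : j ≤ J) (R : ℤ[X]) (hR : R.natDegree ≤ J) (σ : ℤ)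
    (hσ : σ = 1 ∨ σ = -1) (A D a0 Q Z z : ℕ) (hQ : 1 ≤ Q) (hQZ : Q ≤ Z) (hZA : Z ≤ A)
    (hD : 1 ≤ D) :
    ∑ a ∈ Ioc a0 (a0 + A), ∑ d ∈ Ioc D (2 * D),
      (∑ q ∈ (Ioc Q Z).filter (fun q => Squarefree q ∧ ∀ p ∈ q.primeFactors, p ≤ z),
        TT (FF R j σ a d) q) ^ 2 ≤
      4 * (A : ℝ) * ((D : ℝ) / Q + 1) * (1 + Real.log Z) ^ (8 * J) + (D : ℝ) * (Z : ℝ) ^ 4 := by
  classical
  set W := (Ioc Q Z).filter (fun q => Squarefree q ∧ ∀ p ∈ q.primeFactors, p ≤ z) with hW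
  have hWm : ∀ q ∈ W, Squarefree q ∧ Q < q ∧ q ≤ Z := by
    intro q hq
    rw [hW, mem_filter, mem_Ioc] at hq
    exact ⟨hq.2.1, hq.1.1, hq.1.2⟩
  have hWcard : (W.card : ℝ) ≤ Z := by
    have : W.card ≤ Z := by
      calc W.card ≤ (Ioc Q Z).card := card_filter_le _ _
        _ = Z - Q := by simp
        _ ≤ Z := Nat.sub_le _ _
    exact_mod_cast this
  have hlog : 0 ≤ Real.log Z := Real.log_natCast_nonneg Z
  have hQ' : (1 : ℝ) ≤ Q := by exact_mod_cast hQ
  have hA0 : (0 : ℝ) ≤ A := Nat.cast_nonneg A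
  have hD0 : (0 : ℝ) ≤ D := Nat.cast_nonneg D
  -- for fixed d
  have hfix : ∀ d : ℕ, ∑ a ∈ Ioc a0 (a0 + A), (∑ q ∈ W, TT (FF R j σ a d) q) ^ 2 ≤
      ∑ q ∈ W, 2 * (A : ℝ) / q * ((4 * (J : ℝ)) ^ q.primeFactors.card *
        (Nat.gcd q ((R.eval 1 - R.eval 0) + σ * d).natAbs : ℝ) / q) + (Z : ℝ) ^ 4 := by
    intro d
    set P : ℕ → ℕ → ℝ := fun q a => ∏ p ∈ q.primeFactors, tH (HH R j σ d) p a with hP
    have e1 : ∑ a ∈ Ioc a0 (a0 + A), (∑ q ∈ W, TT (FF R j σ a d) q) ^ 2 =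
        ∑ q ∈ W, ∑ q' ∈ W, ∑ a ∈ Ioc a0 (a0 + A), P q a * P q' a := by
      have : ∀ a, (∑ q ∈ W, TT (FF R j σ a d) q) ^ 2 = ∑ q ∈ W, ∑ q' ∈ W, P q a * P q' a := by
        intro a
        rw [sq, sum_mul_sum]
        simp only [TT_FF, hP]
      simp only [this]
      rw [sum_comm]
      apply sum_congr rfl; intro q _
      rw [sum_comm]
    rw [e1]
    have e2 : ∀ q ∈ W, ∑ q' ∈ W, ∑ a ∈ Ioc a0 (a0 + A), P q a * P q' a ≤
        2 * (A : ℝ) / q * ((4 * (J : ℝ)) ^ q.primeFactors.card *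
          (Nat.gcd q ((R.eval 1 - R.eval 0) + σ * d).natAbs : ℝ) / q) + (Z : ℝ) ^ 3 := by
      intro q hq
      obtain ⟨hq1, hq2, hq3⟩ := hWm q hq
      rw [← add_sum_erase W _ hq]
      apply add_le_add
      · have := diag_le j J hj hjJ R hR σ d q hq1 a0 A (hq3.trans hZA)
        refine le_trans (le_of_eq ?_) this
        apply sum_congr rfl; intro a _; rw [hP]; ring
      · calc ∑ q' ∈ W.erase q, ∑ a ∈ Ioc a0 (a0 + A), P q a * P q' a
            ≤ ∑ q' ∈ W.erase q, (Z : ℝ) ^ 2 := by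
              apply sum_le_sum
              intro q' hq'
              have hq'W := mem_of_mem_erase hq'
              obtain ⟨hq'1, hq'2, hq'3⟩ := hWm q' hq'W
              have hne : q ≠ q' := fun h => (ne_of_mem_erase hq') h.symm
              have hb := off_diag (HH R j σ d) q q' hq1 hq'1 hne a0 A
              have c1 : (q : ℝ) ≤ Z := by exact_mod_cast hq3
              have c2 : (q' : ℝ) ≤ Z := by exact_mod_cast hq'3
              calc _ ≤ _ := le_abs_self _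
                _ ≤ (q : ℝ) * q' := hb
                _ ≤ (Z : ℝ) * Z := mul_le_mul c1 c2 (Nat.cast_nonneg _) (Nat.cast_nonneg _)
                _ = (Z : ℝ) ^ 2 := by ring
          _ = ((W.erase q).card : ℝ) * (Z : ℝ) ^ 2 := by rw [sum_const, nsmul_eq_mul]
          _ ≤ (Z : ℝ) * (Z : ℝ) ^ 2 := by
              apply mul_le_mul_of_nonneg_right _ (by positivity)
              have : ((W.erase q).card : ℝ) ≤ W.card := by exact_mod_cast card_erase_le
              linarith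
          _ = (Z : ℝ) ^ 3 := by ring
    calc ∑ q ∈ W, ∑ q' ∈ W, ∑ a ∈ Ioc a0 (a0 + A), P q a * P q' a
        ≤ ∑ q ∈ W, (2 * (A : ℝ) / q * ((4 * (J : ℝ)) ^ q.primeFactors.card *
          (Nat.gcd q ((R.eval 1 - R.eval 0) + σ * d).natAbs : ℝ) / q) + (Z : ℝ) ^ 3) := sum_le_sum e2
      _ = ∑ q ∈ W, 2 * (A : ℝ) / q * ((4 * (J : ℝ)) ^ q.primeFactors.card *
          (Nat.gcd q ((R.eval 1 - R.eval 0) + σ * d).natAbs : ℝ) / q) + W.card * (Z : ℝ) ^ 3 := by
          rw [sum_add_distrib, sum_const, nsmul_eq_mul]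
      _ ≤ _ := by
          have : (W.card : ℝ) * (Z : ℝ) ^ 3 ≤ (Z : ℝ) * (Z : ℝ) ^ 3 :=
            mul_le_mul_of_nonneg_right hWcard (by positivity)
          have e : (Z : ℝ) * (Z : ℝ) ^ 3 = (Z : ℝ) ^ 4 := by ring
          linarith
  rw [sum_comm]
  calc ∑ d ∈ Ioc D (2 * D), ∑ a ∈ Ioc a0 (a0 + A), (∑ q ∈ W, TT (FF R j σ a d) q) ^ 2
      ≤ ∑ d ∈ Ioc D (2 * D), (∑ q ∈ W, 2 * (A : ℝ) / q * ((4 * (J : ℝ)) ^ q.primeFactors.card *
        (Nat.gcd q ((R.eval 1 - R.eval 0) + σ * d).natAbs : ℝ) / q) + (Z : ℝ) ^ 4) :=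
        sum_le_sum (fun d _ => hfix d)
    _ = ∑ q ∈ W, 2 * (A : ℝ) / q * ((4 * (J : ℝ)) ^ q.primeFactors.card / q) *
          ∑ d ∈ Ioc D (2 * D), (Nat.gcd q ((R.eval 1 - R.eval 0) + σ * d).natAbs : ℝ) +
          (D : ℝ) * (Z : ℝ) ^ 4 := by
        rw [sum_add_distrib, sum_comm]
        congr 1
        · apply sum_congr rfl; intro q _
          rw [mul_sum]
          apply sum_congr rfl; intro d _; ring
        · rw [sum_const, nsmul_eq_mul]
          congr 1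
          rw [Nat.card_Ioc]
          congr 1; omega
    _ ≤ ∑ q ∈ W, (2 * (A : ℝ) * ((D : ℝ) / Q + 1)) * (((8 * J : ℕ) : ℝ) ^ q.primeFactors.card / q) +
          (D : ℝ) * (Z : ℝ) ^ 4 := by
        apply add_le_add_left
        apply sum_le_sum
        intro q hq
        obtain ⟨hq1, hq2, hq3⟩ := hWm q hq
        have hg := gcd_sum (R.eval 1 - R.eval 0) σ hσ D q hq1
        have hq0 : (0 : ℝ) < q := by exact_mod_cast (Nat.pos_of_ne_zero hq1.ne_zero)
        have hqQ : (Q : ℝ) ≤ q := by exact_mod_cast hq2.le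
        calc 2 * (A : ℝ) / q * ((4 * (J : ℝ)) ^ q.primeFactors.card / q) *
              ∑ d ∈ Ioc D (2 * D), (Nat.gcd q ((R.eval 1 - R.eval 0) + σ * d).natAbs : ℝ)
            ≤ 2 * (A : ℝ) / q * ((4 * (J : ℝ)) ^ q.primeFactors.card / q) *
              (2 ^ q.primeFactors.card * ((D : ℝ) + q)) :=
              mul_le_mul_of_nonneg_left hg (by positivity)
          _ = (2 * (A : ℝ) * ((D : ℝ) / q + 1)) * (((8 * J : ℕ) : ℝ) ^ q.primeFactors.card / q) := by
              have : ((8 * J : ℕ) : ℝ) = 4 * (J : ℝ) * 2 := by push_cast; ring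
              rw [this, mul_pow (4 * (J : ℝ)) 2]
              field_simp
          _ ≤ _ := by
              apply mul_le_mul_of_nonneg_right _ (by positivity)
              apply mul_le_mul_of_nonneg_left _ (by positivity)
              have : (D : ℝ) / q ≤ (D : ℝ) / Q := div_le_div_of_nonneg_left hD0 (by linarith) hqQ
              linarith
    _ ≤ (2 * (A : ℝ) * ((D : ℝ) / Q + 1)) * (1 + Real.log Z) ^ (8 * J) + (D : ℝ) * (Z : ℝ) ^ 4 := by
        apply add_le_add_left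
        rw [← mul_sum]
        apply mul_le_mul_of_nonneg_left _ (by positivity)
        refine le_trans ?_ (W_le Z (8 * J) (by omega))
        apply sum_le_sum_of_subset_of_nonneg
        · intro q hq
          obtain ⟨hq1, hq2, hq3⟩ := hWm q hq
          rw [mem_filter, mem_Icc]
          exact ⟨⟨by omega, hq3⟩, hq1⟩
        · intro q _ _; positivity
    _ ≤ _ := by
        apply add_le_add_left
        have h1 : 0 ≤ (A : ℝ) * ((D : ℝ) / Q + 1) * (1 + Real.log Z) ^ (8 * J) := by positivity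
        nlinarith

/-- T10 (SingExc.lean). -/
theorem exc_count (j : ℕ) (hj : 1 ≤ j) (R : ℤ[X]) (σ : ℤ)
    (hσ : σ = 1 ∨ σ = -1) (A D a0 z y : ℕ) (hy : 1 ≤ y) (hz : 1 ≤ z) (hyA : y * z ≤ A)
    (hyD : y * z ≤ D) :
    ((((Ioc a0 (a0 + A)) ×ˢ (Ioc D (2 * D))).filter (fun ad : ℕ × ℕ =>
      y < bad z (FF R j σ ad.1 ad.2))).card : ℝ) ≤ 16 * A * D / y := by
  classical
  have hsub : ((Ioc a0 (a0 + A)) ×ˢ (Ioc D (2 * D))).filter (fun ad : ℕ × ℕ =>
      y < bad z (FF R j σ ad.1 ad.2)) ⊆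
      (Ioc y (y * z)).biUnion (fun g =>
        ((Ioc a0 (a0 + A)).filter (fun a : ℕ => (g : ℤ) ∣ (a : ℤ) + R.eval 0)) ×ˢ
        ((Ioc D (D + D)).filter (fun d : ℕ => (g : ℤ) ∣ (R.eval 1 - R.eval 0) + σ * d))) := by
    rintro ⟨a, d⟩ had
    rw [mem_filter, mem_product] at had
    obtain ⟨⟨ha, hd⟩, hlt⟩ := had
    obtain ⟨g, hg1, hg2, hg3⟩ := exists_div _ z y hy hlt
    obtain ⟨hb1, hb2⟩ := bad_dvd j hj R σ a d z
    have hgz : (g : ℤ) ∣ ((bad z (FF R j σ a d) : ℕ) : ℤ) := Int.natCast_dvd_natCast.2 hg1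
    rw [mem_biUnion]
    refine ⟨g, mem_Ioc.2 ⟨hg2, hg3⟩, ?_⟩
    rw [mem_product, mem_filter, mem_filter]
    refine ⟨⟨ha, hgz.trans hb1⟩, ⟨?_, hgz.trans hb2⟩⟩
    rwa [← two_mul]
  have h1 : ((((Ioc a0 (a0 + A)) ×ˢ (Ioc D (2 * D))).filter (fun ad : ℕ × ℕ =>
      y < bad z (FF R j σ ad.1 ad.2))).card : ℝ) ≤
      ∑ g ∈ Ioc y (y * z), (9 * A * D : ℝ) * ((g : ℝ) ^ 2)⁻¹ := by
    have h2 : (((Ioc a0 (a0 + A)) ×ˢ (Ioc D (2 * D))).filter (fun ad : ℕ × ℕ =>
      y < bad z (FF R j σ ad.1 ad.2))).card ≤ ∑ g ∈ Ioc y (y * z),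
        ((Ioc a0 (a0 + A)).filter (fun a : ℕ => (g : ℤ) ∣ (a : ℤ) + R.eval 0)).card *
        ((Ioc D (D + D)).filter (fun d : ℕ => (g : ℤ) ∣ (R.eval 1 - R.eval 0) + σ * d)).card := by
      refine (card_le_card hsub).trans (card_biUnion_le.trans (le_of_eq ?_))
      exact sum_congr rfl (fun g _ => card_product _ _)
    have h3 : ((((Ioc a0 (a0 + A)) ×ˢ (Ioc D (2 * D))).filter (fun ad : ℕ × ℕ =>
      y < bad z (FF R j σ ad.1 ad.2))).card : ℝ) ≤ ((∑ g ∈ Ioc y (y * z),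
        ((Ioc a0 (a0 + A)).filter (fun a : ℕ => (g : ℤ) ∣ (a : ℤ) + R.eval 0)).card *
        ((Ioc D (D + D)).filter (fun d : ℕ =>
          (g : ℤ) ∣ (R.eval 1 - R.eval 0) + σ * d)).card : ℕ) : ℝ) := by
      exact_mod_cast h2
    refine h3.trans ?_
    push_cast
    refine sum_le_sum (fun g hg => ?_)
    rw [mem_Ioc] at hg
    have hg0 : 0 < g := by omega
    have h4 := cnt_real g A a0 hg0 (hg.2.trans hyA)
      (fun a : ℕ => (g : ℤ) ∣ (a : ℤ) + R.eval 0) (fun a b ha hb => by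
        rw [Nat.modEq_iff_dvd]
        have := dvd_sub hb ha
        have h5 : (b : ℤ) + R.eval 0 - ((a : ℤ) + R.eval 0) = (b : ℤ) - a := by ring
        rwa [h5] at this)
    have h5 := cnt_real g D D hg0 (hg.2.trans hyD)
      (fun d : ℕ => (g : ℤ) ∣ (R.eval 1 - R.eval 0) + σ * d) (fun a b ha hb => by
        rw [Nat.modEq_iff_dvd]
        have h6 := dvd_sub hb ha
        have h7 : R.eval 1 - R.eval 0 + σ * (b : ℤ) - (R.eval 1 - R.eval 0 + σ * (a : ℤ))
            = σ * ((b : ℤ) - a) := by ring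
        rw [h7] at h6
        rcases hσ with hs | hs
        · rwa [hs, one_mul] at h6
        · rw [hs, neg_one_mul] at h6
          exact (dvd_neg.1 h6))
    have hg' : (0 : ℝ) < g := by exact_mod_cast hg0
    calc _ ≤ (3 * (A : ℝ) / g) * (3 * (D : ℝ) / g) :=
          mul_le_mul h4 h5 (Nat.cast_nonneg _) (by positivity)
      _ = (9 * A * D : ℝ) * ((g : ℝ) ^ 2)⁻¹ := by
          field_simp
          ring
  refine h1.trans ?_
  rw [← mul_sum]
  have h6 := sum_Ioc_inv_sq_le_sub (α := ℝ) (k := y) (n := y * z) (by omega)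
    (Nat.le_mul_of_pos_right _ hz)
  have hy' : (0 : ℝ) < y := by exact_mod_cast hy
  have h7 : ∑ g ∈ Ioc y (y * z), ((g : ℝ) ^ 2)⁻¹ ≤ (y : ℝ)⁻¹ := by
    refine h6.trans ?_
    have : (0 : ℝ) ≤ (((y * z : ℕ) : ℝ))⁻¹ := by positivity
    linarith
  calc (9 * A * D : ℝ) * ∑ g ∈ Ioc y (y * z), ((g : ℝ) ^ 2)⁻¹
      ≤ (9 * A * D : ℝ) * (y : ℝ)⁻¹ := mul_le_mul_of_nonneg_left h7 (by positivity)
    _ = 9 * A * D / y := by rw [div_eq_mul_inv]
    _ ≤ 16 * A * D / y := by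
        apply div_le_div_of_nonneg_right _ hy'.le
        have : (0 : ℝ) ≤ A * D := by positivity
        nlinarith

/-- the mean value of `|GG|` -/
lemma gg_mean (j J : ℕ) (hj : 1 ≤ j) (hjJ : j ≤ J) (c : ℝ) (hc : 0 < c) (E1 : ℕ) : ∃ x0 : ℕ, ∀ x : ℕ, x0 ≤ x →
    ∀ (Q A D a0 : ℕ) (R : ℤ[X]) (σ : ℤ), R.natDegree ≤ J → (σ = 1 ∨ σ = -1) →
    1 ≤ Q → (Q : ℝ) ≤ Real.log x ^ E1 → (x : ℝ) ^ c ≤ A → 1 ≤ D →
    ∑ a ∈ Ioc a0 (a0 + A), ∑ d ∈ Ioc D (2 * D), |GG Q (FF R j σ a d)| ≤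
      A * D * Real.log x := by
  classical
  have hlogs : ∀ᶠ x : ℕ in atTop, 16 * (1 + E1 * Real.log (Real.log x)) ^ (8 * J) ≤
      Real.log x := by
    have h1 : (fun t : ℝ => Real.log t ^ (8 * J)) =o[atTop] fun t : ℝ => t :=
      Real.isLittleO_pow_log_id_atTop
    have h2 := h1.bound (show (0:ℝ) < 1 / (16 * (1 + E1) ^ (8 * J)) by positivity)
    have h3 := (Real.tendsto_log_atTop.comp (tendsto_natCast_atTop_atTop (R := ℝ))).eventually h2
    filter_upwards [h3, evt_log_ge (Real.exp 1)] with x hx hx2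
    simp only [Function.comp] at hx
    have ht0 : 0 < Real.log x := lt_of_lt_of_le (Real.exp_pos 1) hx2
    have hl : 1 ≤ Real.log (Real.log x) := by
      rw [Real.le_log_iff_exp_le ht0]; exact hx2
    rw [Real.norm_of_nonneg (by positivity), Real.norm_of_nonneg ht0.le] at hx
    calc 16 * (1 + E1 * Real.log (Real.log x)) ^ (8 * J)
        ≤ 16 * ((1 + E1) * Real.log (Real.log x)) ^ (8 * J) := by
          gcongr
          nlinarith [(Nat.cast_nonneg E1 : (0:ℝ) ≤ E1)]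
      _ = (16 * (1 + E1) ^ (8 * J)) * Real.log (Real.log x) ^ (8 * J) := by
          rw [mul_pow]; ring
      _ ≤ (16 * (1 + E1) ^ (8 * J)) * (1 / (16 * (1 + E1) ^ (8 * J)) * Real.log x) := by
          gcongr
      _ = Real.log x := by field_simp
  have hev : ∀ᶠ x : ℕ in atTop, 3 ≤ x ∧ 4 ≤ Real.log x ∧
      Real.log x ^ (4 * E1 + 1) ≤ (x : ℝ) ^ c ∧
      16 * (1 + E1 * Real.log (Real.log x)) ^ (8 * J) ≤ Real.log x := by
    filter_upwards [eventually_ge_atTop 3, evt_log_ge 4, evt_log_pow (4 * E1 + 1) c hc, hlogs]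
      with x h1 h2 h3 h4
    exact ⟨h1, h2, h3, h4⟩
  obtain ⟨x0, hx0⟩ := eventually_atTop.mp hev
  refine ⟨x0, fun x hx Q A D a0 R σ hR hσ hQ1 hQ2 hA hD => ?_⟩
  obtain ⟨hx3, hL, hLc, hlog⟩ := hx0 x hx
  set L := Real.log x with hLdef
  have hL0 : 0 < L := by linarith
  have hL1 : 1 ≤ L := by linarith
  have hLp0 : ∀ n : ℕ, 0 < L ^ n := fun n => by positivity
  have hLp : ∀ n : ℕ, 1 ≤ L ^ n := fun n => one_le_pow₀ hL1
  have hQr : (1:ℝ) ≤ Q := by exact_mod_cast hQ1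
  have hDr : (1:ℝ) ≤ D := by exact_mod_cast hD
  have hA1 : (1:ℝ) ≤ A := ((hLp _).trans hLc).trans hA
  have hQA : Q ≤ A := by
    have : (Q:ℝ) ≤ A := by
      refine hQ2.trans (le_trans ?_ (hLc.trans hA))
      exact pow_le_pow_right₀ hL1 (by omega)
    exact_mod_cast this
  have hsm := sing_l2 j J hj hjJ R hR σ hσ A D a0 1 Q Q le_rfl hQ1 hQA hD
  have hGG : ∀ F : ℤ[X], GG Q F = 1 +
      ∑ q ∈ (Ioc 1 Q).filter (fun q => Squarefree q ∧ ∀ p ∈ q.primeFactors, p ≤ Q), TT F q := by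
    intro F
    unfold GG
    have h1 : (Icc 1 Q).filter Squarefree = insert 1 ((Ioc 1 Q).filter
        (fun q => Squarefree q ∧ ∀ p ∈ q.primeFactors, p ≤ Q)) := by
      ext q
      simp only [mem_insert, mem_filter, mem_Icc, mem_Ioc]
      constructor
      · rintro ⟨⟨h1, h2⟩, h3⟩
        by_cases h4 : q = 1
        · left; exact h4
        · right
          refine ⟨⟨by omega, h2⟩, h3, fun p hp => ?_⟩
          have := Nat.le_of_mem_primeFactors hp
          omega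
      · rintro (h | ⟨⟨h1, h2⟩, h3⟩)
        · subst h; exact ⟨⟨le_rfl, hQ1⟩, squarefree_one⟩
        · exact ⟨⟨by omega, h2⟩, h3.1⟩
    rw [h1, sum_insert (by simp)]
    congr 1
    unfold TT
    simp
  set Y : ℕ → ℕ → ℝ := fun a d => ∑ q ∈ (Ioc 1 Q).filter
    (fun q => Squarefree q ∧ ∀ p ∈ q.primeFactors, p ≤ Q), TT (FF R j σ a d) q with hY
  have hlogQ : 1 + Real.log Q ≤ 1 + E1 * Real.log L := by
    have : Real.log Q ≤ E1 * Real.log L := by
      rw [← Real.log_pow]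
      exact Real.log_le_log (by linarith) hQ2
    linarith
  have hlogQ0 : 0 ≤ Real.log Q := Real.log_nonneg hQr
  have hb : 4 * (A : ℝ) * ((D : ℝ) / (1 : ℕ) + 1) * (1 + Real.log Q) ^ (8 * J) + (D : ℝ) * (Q : ℝ) ^ 4 ≤
      A * D * L := by
    have p1 : 4 * (A : ℝ) * ((D : ℝ) / (1 : ℕ) + 1) * (1 + Real.log Q) ^ (8 * J) ≤ A * D * L / 2 := by
      calc 4 * (A : ℝ) * ((D : ℝ) / (1 : ℕ) + 1) * (1 + Real.log Q) ^ (8 * J)
          ≤ 4 * (A : ℝ) * (2 * D) * (1 + E1 * Real.log L) ^ (8 * J) := by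
            gcongr
            push_cast
            linarith
        _ = (A * D / 2) * (16 * (1 + E1 * Real.log L) ^ (8 * J)) := by ring
        _ ≤ (A * D / 2) * L := by gcongr
        _ = _ := by ring
    have p2 : (D : ℝ) * (Q : ℝ) ^ 4 ≤ A * D * L / 2 := by
      calc (D : ℝ) * (Q : ℝ) ^ 4 ≤ D * (L ^ E1) ^ 4 := by gcongr
        _ = D * L ^ (4 * E1) := by rw [← pow_mul, mul_comm E1 4]
        _ ≤ D * L ^ (4 * E1 + 1) := by
            gcongr
            · omega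
        _ ≤ D * A := by
            gcongr
            exact hLc.trans hA
        _ = A * D * 1 := by ring
        _ ≤ A * D * (L / 2) := by
            gcongr
            linarith
        _ = _ := by ring
    linarith
  have hsm' : ∑ a ∈ Ioc a0 (a0 + A), ∑ d ∈ Ioc D (2 * D), |Y a d| ^ 2 ≤ A * D * L := by
    refine le_trans (le_of_eq ?_) (hsm.trans hb)
    refine sum_congr rfl fun a _ => sum_congr rfl fun d _ => ?_
    rw [sq_abs]
  have hcard : (((Ioc a0 (a0 + A)) ×ˢ (Ioc D (2 * D))).card : ℝ) = A * D := by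
    rw [card_product, Nat.card_Ioc, Nat.card_Ioc, show a0 + A - a0 = A by omega,
      show 2 * D - D = D by omega]; push_cast; ring
  rw [← sum_product'] at hsm' ⊢
  have hYL1 : ∑ ad ∈ (Ioc a0 (a0 + A)) ×ˢ (Ioc D (2 * D)), |Y ad.1 ad.2| ≤ A * D * (L / 2) := by
    have h2 := sq_sum_le_card_mul_sum_sq (s := (Ioc a0 (a0 + A)) ×ˢ (Ioc D (2 * D)))
      (f := fun ad : ℕ × ℕ => |Y ad.1 ad.2|)
    rw [hcard] at h2
    apply le_of_sq_le_sq _ (by positivity)
    refine h2.trans ?_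
    calc (A:ℝ) * D * _ ≤ A * D * (A * D * L) := by gcongr
      _ = (A * D) ^ 2 * L := by ring
      _ ≤ (A * D) ^ 2 * (L / 2) ^ 2 := by
          gcongr
          nlinarith
      _ = _ := by ring
  calc ∑ ad ∈ (Ioc a0 (a0 + A)) ×ˢ (Ioc D (2 * D)), |GG Q (FF R j σ ad.1 ad.2)|
      ≤ ∑ ad ∈ (Ioc a0 (a0 + A)) ×ˢ (Ioc D (2 * D)), (1 + |Y ad.1 ad.2|) := by
        refine sum_le_sum fun ad _ => ?_
        rw [hGG]
        refine (abs_add_le _ _).trans ?_
        rw [abs_one]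
    _ = A * D + ∑ ad ∈ (Ioc a0 (a0 + A)) ×ˢ (Ioc D (2 * D)), |Y ad.1 ad.2| := by
        rw [sum_add_distrib, sum_const, nsmul_eq_mul, hcard, mul_one]
    _ ≤ A * D * 1 + A * D * (L / 2) := by rw [mul_one]; gcongr
    _ ≤ A * D * (L / 2) + A * D * (L / 2) := by
        gcongr
        linarith
    _ = _ := by ring



theorem sing (j J : ℕ) (hj : 1 ≤ j) (hjJ : j ≤ J) (c : ℝ) (hc : 0 < c) (U E1 B' : ℕ)
    (hE1 : 8 * J + 2 * U + 8 ≤ E1) (hE1B : E1 ≤ B') : ∃ B x0 : ℕ, ∀ x : ℕ, x0 ≤ x →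
    ∀ (Q z A D a0 : ℕ) (R : ℤ[X]) (σ : ℤ), R.natDegree ≤ J → (σ = 1 ∨ σ = -1) →
    Real.log x ^ E1 ≤ 2 * Q → (Q : ℝ) ≤ Real.log x ^ E1 → Q ≤ z → (z : ℝ) ≤ Real.log x ^ B' →
    (x : ℝ) ^ c ≤ A → A ≤ x → Real.log x ^ B ≤ D →
    ∑ a ∈ Ioc a0 (a0 + A), ∑ d ∈ Ioc D (2 * D), |GG Q (FF R j σ a d) - SS z (FF R j σ a d)| ≤
      A * D / Real.log x ^ U := by
  classical
  set W := B' + U + 3 with hW
  set B := W + B' + E1 with hB
  set M : ℕ := 3 * J * B' + 2 * W + U + 2 with hM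
  have hlogz : ∀ᶠ x : ℕ in atTop, (J * Real.log 100 + M * Real.log (Real.log x)) *
      (B' * Real.log (Real.log x)) ≤ (c / 16) * Real.log x := by
    have h := (Real.tendsto_log_atTop.comp (tendsto_natCast_atTop_atTop (R := ℝ))).eventually
      (ev_tail (c / 16) (by positivity) (B' * (J * Real.log 100)) (B' * M))
    filter_upwards [h] with x hx
    simp only [Function.comp] at hx
    calc _ = (B' * (J * Real.log 100) + B' * M * Real.log (Real.log x)) * Real.log (Real.log x) := by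
          ring
      _ ≤ _ := hx
  have hev : ∀ᶠ x : ℕ in atTop, 3 ≤ x ∧ 12800 * 2 ^ (8 * J) ≤ Real.log x ∧
      Real.log x ^ (2 * U + 8) ≤ (x : ℝ) ^ (c / 2) ∧ Real.log x ^ (W + B') ≤ (x : ℝ) ^ c ∧
      Real.log x ^ (E1 + 1) ≤ (x:ℝ) ^ (c / 8) ∧ (2 : ℝ) ≤ (x:ℝ) ^ (c / 16) ∧
      (J * Real.log 100 + M * Real.log (Real.log x)) *
      (B' * Real.log (Real.log x)) ≤ (c / 16) * Real.log x := by
    filter_upwards [eventually_ge_atTop 3, evt_log_ge (12800 * 2 ^ (8 * J)),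
      evt_log_pow (2 * U + 8) (c / 2) (by positivity), evt_log_pow (W + B') c hc,
      evt_log_pow (E1 + 1) (c / 8) (by positivity), evt_log_pow 1 (c / 16) (by positivity),
      evt_log_ge 2, hlogz] with x h1 h2 h3 h4 h5 h6 h7 h8
    refine ⟨h1, h2, h3, h4, h5, ?_, h8⟩
    rw [pow_one] at h6
    linarith
  obtain ⟨x0, hx0⟩ := eventually_atTop.mp hev
  refine ⟨B, x0, fun x hx Q z A D a0 R σ hR hσ hQ1 hQ2 hQz hzL hA hAx hDB => ?_⟩
  obtain ⟨hx3, hL, hLU, hLW, hLE, h2x, htail⟩ := hx0 x hx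
  set L := Real.log x with hLdef
  have h28 : (1:ℝ) ≤ 2 ^ (8 * J) := one_le_pow₀ (by norm_num)
  have hL12800 : (12800:ℝ) ≤ L := by nlinarith
  have hL0 : 0 < L := by linarith
  have hL1 : 1 ≤ L := by linarith
  have hLp0 : ∀ n : ℕ, 0 < L ^ n := fun n => by positivity
  have hLp : ∀ n : ℕ, 1 ≤ L ^ n := fun n => one_le_pow₀ hL1
  have hxr : (3:ℝ) ≤ x := by exact_mod_cast hx3
  have hx0' : (0:ℝ) < x := by linarith
  have hAxr : (A:ℝ) ≤ x := by exact_mod_cast hAx
  have hE1' : L ≤ L ^ E1 := by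
    calc L = L ^ 1 := (pow_one L).symm
      _ ≤ L ^ E1 := pow_le_pow_right₀ hL1 (by omega)
  have hQr : (2:ℝ) ≤ Q := by linarith
  have hQ2n : 2 ≤ Q := by exact_mod_cast hQr
  have hz2 : 2 ≤ z := by omega
  have hzr : (2:ℝ) ≤ z := by exact_mod_cast hz2
  have hA1 : (1:ℝ) ≤ A := ((hLp _).trans hLW).trans hA
  have hA0 : (0:ℝ) < A := by linarith
  have hD1 : (1:ℝ) ≤ D := (hLp _).trans hDB
  have hD0 : (0:ℝ) < D := by linarith
  -- `Z`
  set Z := ⌊(x:ℝ) ^ (c / 8)⌋₊ with hZ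
  have hZle : (Z:ℝ) ≤ (x:ℝ) ^ (c / 8) := Nat.floor_le (by positivity)
  have hZge : (x:ℝ) ^ (c / 16) ≤ Z := by
    have h1 : (x:ℝ) ^ (c / 8) < Z + 1 := Nat.lt_floor_add_one _
    have h2 : (x:ℝ) ^ (c / 8) = (x:ℝ) ^ (c / 16) * (x:ℝ) ^ (c / 16) := by
      rw [← Real.rpow_add hx0']; congr 1; ring
    nlinarith
  have hQZ : Q ≤ Z := by
    apply Nat.le_floor
    refine hQ2.trans (le_trans ?_ hLE)
    exact pow_le_pow_right₀ hL1 (by omega)
  have hx1r : (1:ℝ) ≤ x := by linarith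
  have hZA : Z ≤ A := by
    have h1 : (Z:ℝ) ≤ A := by
      refine hZle.trans (le_trans ?_ hA)
      exact Real.rpow_le_rpow_of_exponent_le hx1r (by linarith)
    exact_mod_cast h1
  have hZ1 : 1 ≤ Z := by omega
  have hZr : (1:ℝ) ≤ Z := by exact_mod_cast hZ1
  have hlogZ : Real.log Z ≤ L := by
    apply Real.log_le_log (by linarith)
    have : (Z:ℝ) ≤ A := by exact_mod_cast hZA
    linarith
  have hlogZ2 : (c / 16) * L ≤ Real.log Z := by
    rw [hLdef, ← Real.log_rpow hx0']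
    exact Real.log_le_log (by positivity) hZge
  have hlogZ0 : 0 ≤ Real.log Z := Real.log_nonneg hZr
  -- `y`
  set y := ⌊L ^ W⌋₊ with hy
  have hyle : (y:ℝ) ≤ L ^ W := Nat.floor_le (by positivity)
  have hyge : L ^ W ≤ 2 * y := by
    have h1 : L ^ W < y + 1 := Nat.lt_floor_add_one _
    have h2 : (1:ℝ) ≤ y := by
      have : 1 ≤ y := Nat.le_floor (by simpa using hLp W)
      exact_mod_cast this
    linarith
  have hy1 : 1 ≤ y := Nat.le_floor (by simpa using hLp W)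
  have hyr : (1:ℝ) ≤ y := by exact_mod_cast hy1
  have hyz : (y:ℝ) * z ≤ L ^ (W + B') := by
    rw [pow_add]; gcongr
  have hyzA : y * z ≤ A := by
    have : (y:ℝ) * z ≤ A := hyz.trans (hLW.trans hA)
    exact_mod_cast this
  have hyzD : y * z ≤ D := by
    have : (y:ℝ) * z ≤ D := by
      refine hyz.trans (le_trans ?_ hDB)
      exact pow_le_pow_right₀ hL1 (by omega)
    exact_mod_cast this
  -- the smooth numbers
  set P : ℕ → Prop := fun q => Squarefree q ∧ ∀ p ∈ q.primeFactors, p ≤ z with hP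
  set Y : ℕ → ℕ → ℝ := fun a d => ∑ q ∈ (Ioc Q Z).filter P, TT (FF R j σ a d) q with hY
  have hsplit : ∀ F : ℤ[X], ∑ q ∈ (Icc 1 Z).filter P, TT F q =
      GG Q F + ∑ q ∈ (Ioc Q Z).filter P, TT F q := by
    intro F
    unfold GG
    have h1 : (Icc 1 Z).filter P = (Icc 1 Q).filter Squarefree ∪ (Ioc Q Z).filter P := by
      ext q
      simp only [mem_union, mem_filter, mem_Icc, mem_Ioc]
      constructor
      · rintro ⟨⟨h1, h2⟩, h3⟩
        by_cases h4 : q ≤ Q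
        · left; exact ⟨⟨h1, h4⟩, h3.1⟩
        · right; exact ⟨⟨by omega, h2⟩, h3⟩
      · rintro (⟨⟨h1, h2⟩, h3⟩ | ⟨⟨h1, h2⟩, h3⟩)
        · refine ⟨⟨h1, by omega⟩, h3, fun p hp => ?_⟩
          have := Nat.le_of_mem_primeFactors hp
          omega
        · exact ⟨⟨by omega, h2⟩, h3⟩
    rw [h1, sum_union]
    rw [disjoint_left]
    intro q hq hq2
    rw [mem_filter, mem_Icc] at hq
    rw [mem_filter, mem_Ioc] at hq2
    omega
  set Exc := ((Ioc a0 (a0 + A)) ×ˢ (Ioc D (2 * D))).filter (fun ad : ℕ × ℕ =>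
      y < bad z (FF R j σ ad.1 ad.2)) with hExc
  have hexc := exc_count j hj R σ hσ A D a0 z y hy1 (by omega) hyzA hyzD
  rw [← hExc] at hexc
  set τ : ℝ := 1 / L ^ (U + 2) with hτ
  have hτ0 : 0 < τ := by positivity
  -- pointwise bound
  have hFdeg : ∀ a d : ℕ, (FF R j σ a d).natDegree ≤ J := fun a d => natDegree_FFJ R j J hjJ hR σ a d
  have hpt : ∀ ad ∈ (Ioc a0 (a0 + A)) ×ˢ (Ioc D (2 * D)),
      |GG Q (FF R j σ ad.1 ad.2) - SS z (FF R j σ ad.1 ad.2)| ≤
      |Y ad.1 ad.2| + τ + (if ad ∈ Exc then 2 * L ^ B' else 0) := by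
    intro ad had
    by_cases h : ad ∈ Exc
    · rw [if_pos h]
      have h1 := GG_abs Q (FF R j σ ad.1 ad.2)
      have h2 := SS_abs z (by omega) (FF R j σ ad.1 ad.2)
      have h3 := abs_sub (GG Q (FF R j σ ad.1 ad.2)) (SS z (FF R j σ ad.1 ad.2))
      have h4 : (Q:ℝ) ≤ z := by exact_mod_cast hQz
      have h5 := abs_nonneg (Y ad.1 ad.2)
      linarith
    · rw [if_neg h, add_zero]
      have hb : bad z (FF R j σ ad.1 ad.2) ≤ y := by
        by_contra hlt
        push Not at hlt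
        exact h (mem_filter.mpr ⟨had, hlt⟩)
      have h1 := tail_pointwise J (hj.trans hjJ) (FF R j σ ad.1 ad.2) (hFdeg _ _) z Z hz2 hZ1 y hyr
        (by exact_mod_cast hb)
      rw [hsplit] at h1
      have h2 : Real.exp (-(Real.log Z / Real.log z)) * 100 ^ J * (z : ℝ) ^ (3 * J) * (y:ℝ) ^ 2 ≤
          τ := by
        have hlz0 : 0 < Real.log z := Real.log_pos (by linarith)
        have hloglog : 0 < Real.log L := Real.log_pos (by linarith)
        have hlz : Real.log z ≤ B' * Real.log L := by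
          rw [← Real.log_pow]
          exact Real.log_le_log (by linarith) hzL
        have hmain : J * Real.log 100 + M * Real.log L ≤ Real.log Z / Real.log z := by
          rw [le_div_iff₀ hlz0]
          have h100 : 0 ≤ Real.log 100 := Real.log_nonneg (by norm_num)
          calc (J * Real.log 100 + M * Real.log L) * Real.log z
              ≤ (J * Real.log 100 + M * Real.log L) * (B' * Real.log L) := by
                apply mul_le_mul_of_nonneg_left hlz
                positivity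
            _ ≤ (c / 16) * L := htail
            _ ≤ Real.log Z := hlogZ2
        have he : Real.exp (-(Real.log Z / Real.log z)) ≤ 1 / (100 ^ J * L ^ M) := by
          have : Real.exp (J * Real.log 100 + M * Real.log L) = 100 ^ J * L ^ M := by
            rw [Real.exp_add, ← Real.log_pow, ← Real.log_pow, Real.exp_log (by positivity),
              Real.exp_log (by positivity)]
          rw [Real.exp_neg, ← this, ← one_div]
          exact one_div_le_one_div_of_le (Real.exp_pos _) (Real.exp_le_exp.mpr hmain)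
        calc Real.exp (-(Real.log Z / Real.log z)) * 100 ^ J * (z : ℝ) ^ (3 * J) * (y:ℝ) ^ 2
            ≤ 1 / (100 ^ J * L ^ M) * 100 ^ J * (L ^ B') ^ (3 * J) * (L ^ W) ^ 2 := by gcongr
          _ = τ := by
            rw [hτ, ← pow_mul, ← pow_mul]
            have : L ^ M = L ^ (B' * (3 * J)) * L ^ (W * 2) * L ^ (U + 2) := by
              rw [← pow_add, ← pow_add, hM]; congr 1; ring
            rw [this]
            field_simp
      have h3 : |SS z (FF R j σ ad.1 ad.2) - (GG Q (FF R j σ ad.1 ad.2) + Y ad.1 ad.2)| ≤ τ :=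
        h1.trans h2
      have h4 := abs_le.mp h3
      have h5 := neg_abs_le (Y ad.1 ad.2)
      have h6 := le_abs_self (Y ad.1 ad.2)
      rw [abs_le]
      constructor <;> linarith [h4.1, h4.2]
  -- the second moment of `Y`
  have hYsq := sing_l2 j J hj hjJ R hR σ hσ A D a0 Q Z z (by omega) hQZ hZA (by exact_mod_cast hD1)
  have hYb : 4 * (A : ℝ) * ((D : ℝ) / Q + 1) * (1 + Real.log Z) ^ (8 * J) + (D : ℝ) * (Z : ℝ) ^ 4 ≤
      A * D / L ^ (2 * U + 6) := by
    have p1 : 4 * (A : ℝ) * ((D : ℝ) / Q + 1) * (1 + Real.log Z) ^ (8 * J) ≤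
        A * D / (2 * L ^ (2 * U + 6)) := by
      have q1 : (D:ℝ) / Q + 1 ≤ 3 * D / L ^ E1 := by
        have r1 : (D:ℝ) / Q ≤ 2 * D / L ^ E1 := by
          rw [div_le_div_iff₀ (by linarith) (hLp0 _)]
          nlinarith
        have r2 : (1:ℝ) ≤ D / L ^ E1 := by
          rw [le_div_iff₀ (hLp0 _), one_mul]
          refine le_trans ?_ hDB
          exact pow_le_pow_right₀ hL1 (by omega)
        calc (D:ℝ) / Q + 1 ≤ 2 * D / L ^ E1 + D / L ^ E1 := add_le_add r1 r2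
          _ = 3 * D / L ^ E1 := by ring
      have q2 : (1 + Real.log Z) ^ (8 * J) ≤ 2 ^ (8 * J) * L ^ (8 * J) := by
        rw [← mul_pow]
        apply pow_le_pow_left₀ (by linarith)
        linarith
      calc 4 * (A : ℝ) * ((D : ℝ) / Q + 1) * (1 + Real.log Z) ^ (8 * J)
          ≤ 4 * (A : ℝ) * (3 * D / L ^ E1) * (2 ^ (8 * J) * L ^ (8 * J)) := by gcongr
        _ = (12 * 2 ^ (8 * J)) * (A * D) * (L ^ (8 * J) / L ^ E1) := by ring
        _ ≤ L * (A * D) * (L ^ (8 * J) / L ^ (8 * J + 2 * U + 8)) := by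
            gcongr
            nlinarith
        _ = A * D / (L * L ^ (2 * U + 6)) := by
            rw [show 8 * J + 2 * U + 8 = 8 * J + (2 * U + 6) + 2 by ring, pow_add, pow_add]
            field_simp
        _ ≤ _ := by
            gcongr
            linarith
    have p2 : (D : ℝ) * (Z : ℝ) ^ 4 ≤ A * D / (2 * L ^ (2 * U + 6)) := by
      have q1 : (Z:ℝ) ^ 4 ≤ (x:ℝ) ^ (c / 2) := by
        calc (Z:ℝ) ^ 4 ≤ ((x:ℝ) ^ (c / 8)) ^ 4 := by gcongr
          _ = (x:ℝ) ^ (c / 2) := by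
            rw [← Real.rpow_natCast, ← Real.rpow_mul hx0'.le]; congr 1; push_cast; ring
      have q2 : (x:ℝ) ^ (c / 2) * (x:ℝ) ^ (c / 2) ≤ A := by
        rw [← Real.rpow_add hx0', show c / 2 + c / 2 = c by ring]; exact hA
      rw [le_div_iff₀ (by positivity)]
      have q3 : 2 * L ^ (2 * U + 6) ≤ (x:ℝ) ^ (c / 2) := by
        refine le_trans ?_ hLU
        rw [show 2 * U + 8 = (2 * U + 6) + 1 + 1 by ring, pow_succ, pow_succ]
        have h0 : 0 < L ^ (2 * U + 6) := hLp0 _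
        have h22 : (2:ℝ) ≤ L * L := by nlinarith
        calc 2 * L ^ (2 * U + 6) = L ^ (2 * U + 6) * 2 := by ring
          _ ≤ L ^ (2 * U + 6) * (L * L) := by gcongr
          _ = _ := by ring
      calc (D : ℝ) * (Z : ℝ) ^ 4 * (2 * L ^ (2 * U + 6)) ≤
            D * (x:ℝ) ^ (c / 2) * (x:ℝ) ^ (c / 2) := by gcongr
        _ = ((x:ℝ) ^ (c / 2) * (x:ℝ) ^ (c / 2)) * D := by ring
        _ ≤ A * D := by gcongr
    calc _ ≤ A * D / (2 * L ^ (2 * U + 6)) + A * D / (2 * L ^ (2 * U + 6)) := add_le_add p1 p2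
      _ = _ := by field_simp; ring
  have hYL1 : ∑ a ∈ Ioc a0 (a0 + A), ∑ d ∈ Ioc D (2 * D), |Y a d| ≤ A * D / L ^ (U + 2) := by
    have h1 : ∑ a ∈ Ioc a0 (a0 + A), ∑ d ∈ Ioc D (2 * D), |Y a d| ^ 2 ≤
        A * D / L ^ (2 * U + 6) := by
      refine le_trans (le_of_eq ?_) (hYsq.trans hYb)
      refine sum_congr rfl fun a _ => sum_congr rfl fun d _ => ?_
      rw [sq_abs]
    rw [← sum_product'] at h1 ⊢
    have hcard : (((Ioc a0 (a0 + A)) ×ˢ (Ioc D (2 * D))).card : ℝ) = A * D := by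
      rw [card_product, Nat.card_Ioc, Nat.card_Ioc, show a0 + A - a0 = A by omega,
        show 2 * D - D = D by omega]; push_cast; ring
    have h2 := sq_sum_le_card_mul_sum_sq (s := (Ioc a0 (a0 + A)) ×ˢ (Ioc D (2 * D)))
      (f := fun ad : ℕ × ℕ => |Y ad.1 ad.2|)
    rw [hcard] at h2
    apply le_of_sq_le_sq _ (by positivity)
    refine h2.trans ?_
    calc (A:ℝ) * D * _ ≤ A * D * (A * D / L ^ (2 * U + 6)) := by gcongr
      _ ≤ A * D * (A * D / L ^ (2 * (U + 2))) := by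
          gcongr
          · omega
      _ = _ := by rw [div_pow, ← pow_mul, mul_comm 2 (U + 2)]; ring
  -- conclusion
  rw [← sum_product']
  refine (sum_le_sum hpt).trans ?_
  rw [sum_add_distrib, sum_add_distrib]
  have s1 : ∑ ad ∈ (Ioc a0 (a0 + A)) ×ˢ (Ioc D (2 * D)), |Y ad.1 ad.2| ≤ A * D / L ^ (U + 2) := by
    rw [sum_product]; exact hYL1
  have s2 : ∑ ad ∈ (Ioc a0 (a0 + A)) ×ˢ (Ioc D (2 * D)), τ = A * D / L ^ (U + 2) := by
    rw [sum_const, card_product, Nat.card_Ioc, Nat.card_Ioc, show a0 + A - a0 = A by omega,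
        show 2 * D - D = D by omega, nsmul_eq_mul, hτ]
    push_cast; ring
  have s3 : ∑ ad ∈ (Ioc a0 (a0 + A)) ×ˢ (Ioc D (2 * D)), (if ad ∈ Exc then 2 * L ^ B' else 0) ≤
      A * D / L ^ (U + 2) := by
    rw [← sum_filter, sum_const, nsmul_eq_mul]
    have h1 : ((((Ioc a0 (a0 + A)) ×ˢ (Ioc D (2 * D))).filter (fun ad => ad ∈ Exc)).card : ℝ) ≤
        16 * A * D / y := by
      refine le_trans ?_ hexc
      have : ((Ioc a0 (a0 + A)) ×ˢ (Ioc D (2 * D))).filter (fun ad => ad ∈ Exc) ⊆ Exc :=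
        fun ad had => (mem_filter.mp had).2
      exact_mod_cast card_le_card this
    have h2 : (1:ℝ) / y ≤ 2 / L ^ W := by
      rw [div_le_div_iff₀ (by linarith) (hLp0 _)]
      linarith
    calc _ ≤ (16 * A * D / y) * (2 * L ^ B') := by gcongr
      _ = 32 * (A * D) * L ^ B' * (1 / y) := by ring
      _ ≤ 32 * (A * D) * L ^ B' * (2 / L ^ W) := by gcongr
      _ = (A * D / L ^ (U + 2)) * (64 / L) := by
          rw [hW, show B' + U + 3 = B' + (U + 2) + 1 by ring, pow_succ, pow_add]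
          field_simp
          ring
      _ ≤ (A * D / L ^ (U + 2)) * 1 := by
          apply mul_le_mul_of_nonneg_left _ (by positivity)
          rw [div_le_one hL0]; linarith
      _ = _ := mul_one _
  calc _ ≤ A * D / L ^ (U + 2) + A * D / L ^ (U + 2) + A * D / L ^ (U + 2) := by
        rw [s2]; gcongr
    _ = (A * D / L ^ U) * (3 / L ^ 2) := by rw [pow_add]; field_simp; ring
    _ ≤ (A * D / L ^ U) * 1 := by
        apply mul_le_mul_of_nonneg_left _ (by positivity)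
        rw [div_le_one (by positivity)]
        nlinarith
    _ = _ := mul_one _

end Pool.Agent.helper24_TP
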