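import Pool.Agent.helper24_TP.OneC
import Pool.Agent.H300R2.BH.MajSM2

set_option autoImplicit false

/-!
The major arcs: all fractions.
-/

namespace Pool.Agent.helper24_TP

open Finset Polynomial
open Pool.Agent.H469R2.NK (e norm_e e_add conj_e e_zero)
open Pool.Agent.H442R2.EHI (sum_e_range e_add_int Maj maj_rep Pairs card_pairs poly twist nint
  norm_add_sq_le evt_log_pow evt_log_ge)
open Pool.Agent.H300R2.BH (FourierHyp major_decomp chf FF FF_eval ch_parseval split_classes eval_mod)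

theorem major_all (E0 E1 U : ℕ) {R : ℤ[X]} {K1 K D : ℕ} {ρ δ : ℝ}
    (hR : Conv (fun k : ℕ => ((R.eval (k : ℤ) : ℤ) : ℝ)) K1 K D ρ) {x : ℕ}
    (hL : 100000000 ≤ Real.log x) (hK : 1 ≤ K) (hKx : K ≤ x) (hx : 1 ≤ x) (hD : 1 ≤ D)
    (hDK : D * K ≤ x) (hKD : K ≤ D) (hxDK : (x : ℝ) ≤ D * K * Real.log x ^ E0) (Q : ℕ)
    (hQL : (Q : ℝ) ≤ Real.log x ^ E1) (hδ0 : 0 ≤ δ) (hδq : δ * Q * K ≤ 1)
    (hmain : ((K : ℝ) ^ 2 * (ρ * δ) + 1) * (δ * D + 1) * Real.log x ^ (3 * E1 + E0 + (U + 1) + 5) ≤ K)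
    (f : ℕ → ℂ) (hfour : FourierHyp f x E1 (E0 + U + 4)) (hsq : ∑ n ∈ Icc 1 x, ‖f n‖ ^ 2 ≤ x * Real.log x ^ 2)
    (a : ℕ) :
    ∑ d ∈ Ioc D (2 * D), ‖∑ k ∈ Ioc K1 K,
      ∑ p ∈ Pairs Q, ∑ h ∈ (Classical.choose (major_decomp f x Q (16 * x + 1) (by omega) δ)) p,
        chf f x (16 * x + 1) h * e (-((((FF R 1 1 a d).eval (k : ℤ) : ℤ) : ℝ) * h /
          ((16 * x + 1 : ℕ) : ℝ)))‖ ^ 2 ≤
      (Q : ℝ) ^ 6 * (x * K / Real.log x ^ U) := by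
  set N := 16 * x + 1 with hN
  have hN1 : 1 ≤ N := by omega
  set S := Classical.choose (major_decomp f x Q N (by omega) δ) with hS
  obtain ⟨-, hS2, hS3⟩ := Classical.choose_spec (major_decomp f x Q N (by omega) δ)
  rw [← hS] at hS2 hS3
  have hNr : (0:ℝ) < N := by positivity
  have hpars := ch_parseval f x N (by omega)
  have hK0 : (0 : ℝ) < K := by exact_mod_cast hK
  have hKL : Real.log K ≤ Real.log x := Real.log_le_log hK0 (by exact_mod_cast hKx)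
  -- bound for one pair
  have hpair : ∀ p ∈ Pairs Q, ∃ (θ : ℝ) (S' : Finset ℤ) (c' : ℤ → ℂ),
      (∀ y : ℝ, ∑ h ∈ S p, chf f x N h * e (-(((a : ℝ) + (1 : ℤ) * y) * h / N)) =
        e (-(((a : ℝ) + (1 : ℤ) * y) * ((p.2 : ℝ) / p.1))) * poly N θ S' c' y) ∧
      ∀ r : ℕ, ∑ d ∈ Ioc D (2 * D), ‖∑ k ∈ (Ioc K1 K).filter (fun k => k % p.1 = r),
        poly N θ S' c' ((d : ℝ) * k + ((R.eval (k : ℤ) : ℤ) : ℝ))‖ ^ 2 ≤
          x * K / Real.log x ^ U := by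
    intro p hp
    obtain ⟨θ, S', c', h1, h2, h3, h4⟩ := twist N hN1 (S p) (fun h => chf f x N h) a
      ((p.2 : ℝ) / p.1) 1 (Or.inl rfl)
    refine ⟨θ, S', c', h1, fun r => ?_⟩
    have hp' : (1 ≤ p.1 ∧ p.1 ≤ Q) ∧ p.2 < Q := by
      simpa only [Pairs, mem_product, mem_Icc, mem_range] using hp
    have hpQ : (p.1 : ℝ) ≤ Q := by exact_mod_cast hp'.1.2
    apply one_c E0 E1 U hR hL hK hKL hx hD hDK hKD hxDK p.1 r hp'.1.1 (hpQ.trans hQL) hδ0 (by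
      refine le_trans ?_ hδq
      gcongr) hmain θ S' c' _ (h3 δ (fun h hh => (hS2 p hp h hh).2)) _
    · rw [h2]
      calc (N : ℝ) * ∑ h ∈ S p, ‖chf f x N h‖ ^ 2 ≤ N * ∑ h ∈ range N, ‖chf f x N h‖ ^ 2 := by
            apply mul_le_mul_of_nonneg_left (hS3 p hp) hNr.le
        _ ≤ _ := by rw [hpars]; exact hsq
    · apply h4
      intro h hh hsmall
      have hc : (N : ℝ) * ‖chf f x N h‖ = ‖∑ n ∈ Icc 1 x, f n * e ((n : ℝ) * ((h : ℝ) / N))‖ := by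
        unfold chf
        rw [norm_mul, norm_div, norm_one, Complex.norm_natCast, ← mul_assoc,
          mul_one_div_cancel hNr.ne', one_mul]
      rw [hc]
      have hcop : IsCoprime ((p.2 : ℕ) : ℤ) ((p.1 : ℕ) : ℤ) :=
        Nat.isCoprime_iff_coprime.mpr (hS2 p hp h hh).1
      exact hfour p.1 hp'.1.1 (hpQ.trans hQL) p.2 hcop _ (by simpa using hsmall)
  choose! θ S' c' hp1 hp2 using hpair
  have hval : ∀ d k : ℕ, (((FF R 1 1 a d).eval (k : ℤ) : ℤ) : ℝ) =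
      (a : ℝ) + (1 : ℤ) * ((d : ℝ) * k + ((R.eval (k : ℤ) : ℤ) : ℝ)) := by
    intro d k
    rw [FF_eval]
    push_cast
    ring
  -- pointwise in d
  have hd : ∀ d ∈ Ioc D (2 * D), ‖∑ k ∈ Ioc K1 K,
      ∑ p ∈ Pairs Q, ∑ h ∈ S p, chf f x N h * e (-((((FF R 1 1 a d).eval (k : ℤ) : ℤ) : ℝ) * h /
        (N : ℝ)))‖ ^ 2 ≤
      (Q : ℝ) ^ 3 * ∑ p ∈ Pairs Q, ∑ r ∈ range Q, ‖∑ k ∈ (Ioc K1 K).filter (fun k => k % p.1 = r),
        poly N (θ p) (S' p) (c' p) ((d : ℝ) * k + ((R.eval (k : ℤ) : ℤ) : ℝ))‖ ^ 2 := by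
    intro d _
    have e1 : ‖∑ k ∈ Ioc K1 K,
        ∑ p ∈ Pairs Q, ∑ h ∈ S p, chf f x N h * e (-((((FF R 1 1 a d).eval (k : ℤ) : ℤ) : ℝ) * h /
          (N : ℝ)))‖ ≤
        ∑ p ∈ Pairs Q, ∑ r ∈ range Q, ‖∑ k ∈ (Ioc K1 K).filter (fun k => k % p.1 = r),
          poly N (θ p) (S' p) (c' p) ((d : ℝ) * k + ((R.eval (k : ℤ) : ℤ) : ℝ))‖ := by
      rw [sum_comm]
      refine (norm_sum_le _ _).trans (sum_le_sum fun p hp => ?_)
      have hp' : (1 ≤ p.1 ∧ p.1 ≤ Q) ∧ p.2 < Q := by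
        simpa only [Pairs, mem_product, mem_Icc, mem_range] using hp
      have : ∀ k ∈ Ioc K1 K, ∑ h ∈ S p, chf f x N h *
          e (-((((FF R 1 1 a d).eval (k : ℤ) : ℤ) : ℝ) * h / (N : ℝ))) =
          e (-((((FF R 1 1 a d).eval (k : ℤ) : ℤ) : ℝ) * ((p.2 : ℝ) / p.1))) *
            poly N (θ p) (S' p) (c' p) ((d : ℝ) * k + ((R.eval (k : ℤ) : ℤ) : ℝ)) := by
        intro k _
        rw [hval d k]
        exact hp1 p hp _
      rw [sum_congr rfl this]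
      refine (split_classes p.1 p.2 hp'.1.1 K1 K (fun k => (FF R 1 1 a d).eval (k : ℤ))
        (fun k k' h => eval_mod _ _ k k' h) _).trans ?_
      apply sum_le_sum_of_subset_of_nonneg
      · intro r hr
        rw [mem_range] at hr ⊢
        omega
      · intros; positivity
    calc _ ≤ (∑ p ∈ Pairs Q, ∑ r ∈ range Q, ‖∑ k ∈ (Ioc K1 K).filter (fun k => k % p.1 = r),
          poly N (θ p) (S' p) (c' p) ((d : ℝ) * k + ((R.eval (k : ℤ) : ℤ) : ℝ))‖) ^ 2 := by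
          apply pow_le_pow_left₀ (norm_nonneg _) e1
      _ = (∑ z ∈ Pairs Q ×ˢ range Q, ‖∑ k ∈ (Ioc K1 K).filter (fun k => k % z.1.1 = z.2),
          poly N (θ z.1) (S' z.1) (c' z.1) ((d : ℝ) * k +
            ((R.eval (k : ℤ) : ℤ) : ℝ))‖) ^ 2 := by rw [sum_product]
      _ ≤ ((Pairs Q ×ˢ range Q).card : ℝ) * ∑ z ∈ Pairs Q ×ˢ range Q,
          ‖∑ k ∈ (Ioc K1 K).filter (fun k => k % z.1.1 = z.2),
          poly N (θ z.1) (S' z.1) (c' z.1) ((d : ℝ) * k +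
            ((R.eval (k : ℤ) : ℤ) : ℝ))‖ ^ 2 := sq_sum_le_card_mul_sum_sq
      _ = _ := by
          rw [sum_product, card_product, card_pairs, card_range]
          push_cast
          ring
  calc _ ≤ ∑ d ∈ Ioc D (2 * D), (Q : ℝ) ^ 3 * ∑ p ∈ Pairs Q, ∑ r ∈ range Q,
        ‖∑ k ∈ (Ioc K1 K).filter (fun k => k % p.1 = r),
        poly N (θ p) (S' p) (c' p) ((d : ℝ) * k +
          ((R.eval (k : ℤ) : ℤ) : ℝ))‖ ^ 2 := sum_le_sum hd
    _ = (Q : ℝ) ^ 3 * ∑ p ∈ Pairs Q, ∑ r ∈ range Q, ∑ d ∈ Ioc D (2 * D),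
        ‖∑ k ∈ (Ioc K1 K).filter (fun k => k % p.1 = r),
        poly N (θ p) (S' p) (c' p) ((d : ℝ) * k +
          ((R.eval (k : ℤ) : ℤ) : ℝ))‖ ^ 2 := by
        rw [← mul_sum, sum_comm]
        congr 1
        refine sum_congr rfl fun p _ => ?_
        rw [sum_comm]
    _ ≤ (Q : ℝ) ^ 3 * ∑ p ∈ Pairs Q, ∑ r ∈ range Q, (x * K / Real.log x ^ U) := by
        gcongr with p hp r hr
        exact hp2 p hp r
    _ = _ := by
        rw [sum_const, sum_const, card_pairs, card_range, nsmul_eq_mul, nsmul_eq_mul]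
        push_cast
        ring

end Pool.Agent.helper24_TP
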