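import Pool.Agent.H469R2.NK.KL
import Pool.Agent.H442R2.EHI.Dft

set_option autoImplicit false

/-!
Elementary sums: `∑ min (M, 1 / (2 ‖β d + c‖))`, geometric sums, and Abel summation.
-/

namespace Pool.Agent.helper24_TP

open Finset
open Pool.Agent.H469R2.NK (e norm_e e_add conj_e e_zero)
open Pool.Agent.H442R2.EHI (nint e_int e_add_int e_pow)

lemma nint_nonneg (x : ℝ) : 0 ≤ nint x := abs_nonneg _

lemma nint_le_half (x : ℝ) : nint x ≤ 1 / 2 := by
  unfold nint
  exact abs_sub_round x

lemma nint_neg (x : ℝ) : nint (-x) = nint x := by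
  unfold nint
  have h1 : |(-x) - round (-x)| ≤ |(-x) - ((-(round x) : ℤ) : ℝ)| := round_le _ _
  have h2 : |x - round x| ≤ |x - ((-(round (-x)) : ℤ) : ℝ)| := round_le _ _
  have e1 : |(-x) - ((-(round x) : ℤ) : ℝ)| = |x - round x| := by
    push_cast
    rw [← abs_neg]
    congr 1
    ring
  have e2 : |x - ((-(round (-x)) : ℤ) : ℝ)| = |(-x) - round (-x)| := by
    push_cast
    rw [← abs_neg]
    congr 1
    ring
  rw [e1] at h1
  rw [e2] at h2
  exact le_antisymm h1 h2

/-- integers `d < n` with `|β d + c| ≤ Δ` -/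
lemma card_close (β c Δ : ℝ) (hβ : 0 < β) (hΔ : 0 ≤ Δ) (n : ℕ) :
    (((range n).filter (fun d : ℕ => |β * d + c| ≤ Δ)).card : ℝ) ≤ 2 * Δ / β + 1 := by
  set S := (range n).filter (fun d : ℕ => |β * d + c| ≤ Δ) with hS
  rcases S.eq_empty_or_nonempty with h | h
  · rw [h]
    simp only [card_empty, Nat.cast_zero]
    positivity
  · set m := S.min' h with hm
    set M := S.max' h with hM
    have hmS : m ∈ S := S.min'_mem h
    have hMS : M ∈ S := S.max'_mem h
    have hmM : m ≤ M := S.min'_le M hMS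
    have hsub : S ⊆ Icc m M := fun d hd => mem_Icc.2 ⟨S.min'_le d hd, S.le_max' d hd⟩
    have h1 := card_le_card hsub
    rw [Nat.card_Icc] at h1
    have h2 : (S.card : ℝ) ≤ (M : ℝ) - m + 1 := by
      have h3 : (S.card : ℝ) ≤ ((M + 1 - m : ℕ) : ℝ) := by exact_mod_cast h1
      rw [Nat.cast_sub (by omega)] at h3
      push_cast at h3
      linarith
    have h3 := abs_le.1 (mem_filter.1 hmS).2
    have h4 := abs_le.1 (mem_filter.1 hMS).2
    have h5 : β * ((M : ℝ) - m) ≤ 2 * Δ := by nlinarith [h3.1, h4.2]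
    have h6 : (M : ℝ) - m ≤ 2 * Δ / β := by
      rw [le_div_iff₀ hβ]
      linarith
    linarith

/-- integers `d < n` with `‖β d + c‖ ≤ Δ` -/
lemma card_nint (β c Δ : ℝ) (hβ : 0 < β) (hΔ : 0 ≤ Δ) (n : ℕ) :
    (((range n).filter (fun d : ℕ => nint (β * d + c) ≤ Δ)).card : ℝ) ≤
      (β * n + 2) * (2 * Δ / β + 1) := by
  classical
  rcases Nat.eq_zero_or_pos n with h0 | h0
  · subst h0
    simp only [range_zero, filter_empty, card_empty, Nat.cast_zero]
    positivity
  have hn1 : (1 : ℝ) ≤ n := by exact_mod_cast h0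
  set u : ℤ := round c with hu
  set v : ℤ := round (c + β * (n - 1)) with hv
  have hround : ∀ x y : ℝ, x ≤ y → round x ≤ round y := by
    intro x y hxy
    rw [round_eq, round_eq]
    exact Int.floor_le_floor (by linarith)
  have hmaps : ∀ d ∈ (range n).filter (fun d : ℕ => nint (β * d + c) ≤ Δ),
      round (β * d + c) ∈ Icc u v := by
    intro d hd
    have hd1 := mem_range.1 (mem_filter.1 hd).1
    have hd2 : (d : ℝ) ≤ n - 1 := by
      have : ((d + 1 : ℕ) : ℝ) ≤ n := by exact_mod_cast hd1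
      push_cast at this
      linarith
    have hd3 : (0 : ℝ) ≤ d := Nat.cast_nonneg _
    rw [mem_Icc]
    constructor
    · apply hround
      nlinarith
    · apply hround
      nlinarith
  have h1 := card_eq_sum_card_fiberwise hmaps
  have h2 : (((range n).filter (fun d : ℕ => nint (β * d + c) ≤ Δ)).card : ℝ) =
      ∑ m ∈ Icc u v, ((((range n).filter (fun d : ℕ => nint (β * d + c) ≤ Δ)).filter
        (fun d : ℕ => round (β * d + c) = m)).card : ℝ) := by
    exact_mod_cast h1
  rw [h2]
  have h3 : ∀ m ∈ Icc u v, ((((range n).filter (fun d : ℕ => nint (β * d + c) ≤ Δ)).filter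
        (fun d : ℕ => round (β * d + c) = m)).card : ℝ) ≤ 2 * Δ / β + 1 := by
    intro m _
    refine le_trans ?_ (card_close β (c - m) Δ hβ hΔ n)
    have : ((range n).filter (fun d : ℕ => nint (β * d + c) ≤ Δ)).filter
        (fun d : ℕ => round (β * d + c) = m) ⊆ (range n).filter (fun d : ℕ => |β * d + (c - m)| ≤ Δ) := by
      intro d hd
      rw [mem_filter, mem_filter] at hd
      rw [mem_filter]
      refine ⟨hd.1.1, ?_⟩
      have h4 := hd.1.2
      unfold nint at h4
      rw [hd.2] at h4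
      rwa [add_sub_assoc] at h4
    exact_mod_cast card_le_card this
  refine (sum_le_sum h3).trans ?_
  rw [sum_const, nsmul_eq_mul, Int.card_Icc]
  apply mul_le_mul_of_nonneg_right _ (by positivity)
  have huv : u ≤ v := by
    apply hround
    nlinarith
  have h5 : (((v + 1 - u).toNat : ℕ) : ℝ) = (v : ℝ) + 1 - u := by
    have : (((v + 1 - u).toNat : ℕ) : ℤ) = v + 1 - u := Int.toNat_of_nonneg (by omega)
    exact_mod_cast this
  rw [h5]
  have h6 := abs_le.1 (abs_sub_round c)
  have h7 := abs_le.1 (abs_sub_round (c + β * (n - 1)))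
  rw [← hu] at h6
  rw [← hv] at h7
  have h8 : (v : ℝ) ≤ c + β * (n - 1) + 1 / 2 := by linarith [h7.1]
  have h9 : c - 1 / 2 ≤ (u : ℝ) := by linarith [h6.2]
  nlinarith

/-- the bound for a geometric sum -/
noncomputable def mn (M : ℕ) (x : ℝ) : ℝ := if nint x * (2 * M) ≤ 1 then (M : ℝ) else 1 / (2 * nint x)

lemma mn_nonneg (M : ℕ) (x : ℝ) : 0 ≤ mn M x := by
  unfold mn
  have := nint_nonneg x
  split_ifs <;> positivity

/-- dyadic decomposition -/
lemma mn_le_dyadic (M : ℕ) (hM : 1 ≤ M) (x : ℝ) :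
    mn M x ≤ ∑ j ∈ range (Nat.log 2 M + 1), (2 : ℝ) ^ j * (if nint x ≤ (1 / 2) ^ j then 1 else 0) := by
  classical
  set J := Nat.log 2 M with hJ
  have hJ1 : (2 : ℝ) ^ J ≤ M := by exact_mod_cast Nat.pow_log_le_self 2 (by omega)
  have hJ2 : (M : ℝ) + 1 ≤ 2 ^ (J + 1) := by
    have : M + 1 ≤ 2 ^ (J + 1) := Nat.lt_pow_succ_log_self (by norm_num) M
    exact_mod_cast this
  have hu0 := nint_nonneg x
  have hu1 := nint_le_half x
  have hM0 : (0 : ℝ) < M := by exact_mod_cast hM
  have hmM : mn M x ≤ M := by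
    unfold mn
    split_ifs with h
    · exact le_rfl
    · push Not at h
      have hpos : 0 < nint x := by
        by_contra hcon
        push Not at hcon
        have : nint x = 0 := le_antisymm hcon hu0
        rw [this] at h
        simp at h
        linarith
      rw [div_le_iff₀ (by positivity)]
      nlinarith
  have hgeom : ∀ i : ℕ, ∑ j ∈ range (i + 1), (2 : ℝ) ^ j = 2 ^ (i + 1) - 1 := by
    intro i
    induction i with
    | zero => norm_num
    | succ i ih => rw [sum_range_succ, ih]; ring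
  -- sum up to `i`
  have hpart : ∀ i ≤ J, nint x ≤ (1 / 2) ^ i →
      (2 : ℝ) ^ (i + 1) - 1 ≤ ∑ j ∈ range (J + 1), (2 : ℝ) ^ j * (if nint x ≤ (1 / 2) ^ j then 1 else 0) := by
    intro i hi hx
    rw [← hgeom i]
    calc ∑ j ∈ range (i + 1), (2 : ℝ) ^ j =
        ∑ j ∈ range (i + 1), (2 : ℝ) ^ j * (if nint x ≤ (1 / 2) ^ j then 1 else 0) := by
          refine sum_congr rfl fun j hj => ?_
          rw [mem_range] at hj
          have : nint x ≤ (1 / 2 : ℝ) ^ j :=
            hx.trans (pow_le_pow_of_le_one (by norm_num) (by norm_num) (by omega))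
          rw [if_pos this, mul_one]
      _ ≤ _ := by
          apply sum_le_sum_of_subset_of_nonneg
          · exact range_subset_range.2 (by omega)
          · intro j _ _
            split_ifs <;> positivity
  by_cases hxJ : nint x ≤ (1 / 2) ^ J
  · have := hpart J le_rfl hxJ
    linarith
  · push Not at hxJ
    have hpos : 0 < nint x := lt_of_le_of_lt (by positivity) hxJ
    -- least `i` with failure
    have hex : ∃ i, (1 / 2 : ℝ) ^ i < nint x := ⟨J, hxJ⟩
    classical
    set i := Nat.find hex with hi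
    have hi1 : (1 / 2 : ℝ) ^ i < nint x := Nat.find_spec hex
    have hiJ : i ≤ J := Nat.find_min' hex hxJ
    have hi2 : 2 ≤ i := by
      by_contra hcon
      push Not at hcon
      interval_cases i
      · rw [pow_zero] at hi1
        linarith
      · rw [pow_one] at hi1
        linarith
    have hi3 : ¬ ((1 / 2 : ℝ) ^ (i - 1) < nint x) := Nat.find_min hex (by omega)
    push Not at hi3
    have h4 := hpart (i - 1) (by omega) hi3
    rw [show i - 1 + 1 = i by omega] at h4
    refine le_trans ?_ h4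
    have h5 : mn M x ≤ 1 / (2 * nint x) := by
      unfold mn
      split_ifs with h
      · rw [le_div_iff₀ (by positivity)]
        nlinarith
      · exact le_rfl
    refine h5.trans ?_
    have h6 : 1 / (2 * nint x) ≤ 2 ^ i / 2 := by
      rw [div_le_div_iff₀ (by positivity) (by norm_num)]
      have h7 : (2 : ℝ) ^ i * (1 / 2) ^ i = 1 := by
        rw [← mul_pow]
        norm_num
      have h8 : (2 : ℝ) ^ i * (1 / 2) ^ i ≤ 2 ^ i * nint x :=
        mul_le_mul_of_nonneg_left hi1.le (by positivity)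
      nlinarith
    have h7 : (4 : ℝ) ≤ 2 ^ i := by
      calc (4 : ℝ) = 2 ^ 2 := by norm_num
        _ ≤ 2 ^ i := pow_le_pow_right₀ (by norm_num) hi2
    linarith

/-- the sum over a progression -/
lemma sum_mn (β c : ℝ) (hβ : 0 < β) (M : ℕ) (hM : 1 ≤ M) (n : ℕ) :
    ∑ d ∈ range n, mn M (β * d + c) ≤
      (β * n + 2) * (2 * ((Nat.log 2 M : ℝ) + 1) / β + 2 * M) := by
  classical
  set J := Nat.log 2 M with hJ
  calc ∑ d ∈ range n, mn M (β * d + c)
      ≤ ∑ d ∈ range n, ∑ j ∈ range (J + 1), (2 : ℝ) ^ j *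
          (if nint (β * d + c) ≤ (1 / 2) ^ j then 1 else 0) :=
        sum_le_sum fun d _ => mn_le_dyadic M hM _
    _ = ∑ j ∈ range (J + 1), (2 : ℝ) ^ j *
          (((range n).filter (fun d : ℕ => nint (β * d + c) ≤ (1 / 2) ^ j)).card : ℝ) := by
        rw [sum_comm]
        refine sum_congr rfl fun j _ => ?_
        rw [← mul_sum, sum_boole]
    _ ≤ ∑ j ∈ range (J + 1), (2 : ℝ) ^ j * ((β * n + 2) * (2 * (1 / 2) ^ j / β + 1)) := by
        refine sum_le_sum fun j _ => ?_
        apply mul_le_mul_of_nonneg_left _ (by positivity)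
        exact card_nint β c _ hβ (by positivity) n
    _ = ∑ j ∈ range (J + 1), (β * n + 2) * (2 / β + 2 ^ j) := by
        refine sum_congr rfl fun j _ => ?_
        have h7 : (2 : ℝ) ^ j * (1 / 2) ^ j = 1 := by
          rw [← mul_pow]
          norm_num
        have : (2 : ℝ) ^ j * ((β * n + 2) * (2 * (1 / 2) ^ j / β + 1)) =
            (β * n + 2) * (2 * ((2 : ℝ) ^ j * (1 / 2) ^ j) / β + 2 ^ j) := by ring
        rw [this, h7, mul_one]
    _ = (β * n + 2) * (((J : ℝ) + 1) * (2 / β) + ∑ j ∈ range (J + 1), (2 : ℝ) ^ j) := by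
        rw [← mul_sum, sum_add_distrib, sum_const, card_range, nsmul_eq_mul]
        push_cast
        ring
    _ ≤ _ := by
        apply mul_le_mul_of_nonneg_left _ (by positivity)
        have hgeom : ∑ j ∈ range (J + 1), (2 : ℝ) ^ j ≤ 2 * M := by
          have hJ1 : (2 : ℝ) ^ J ≤ M := by exact_mod_cast Nat.pow_log_le_self 2 (by omega)
          have : ∀ i : ℕ, ∑ j ∈ range (i + 1), (2 : ℝ) ^ j = 2 * 2 ^ i - 1 := by
            intro i
            induction i with
            | zero => norm_num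
            | succ i ih => rw [sum_range_succ, ih]; ring
          rw [this]
          linarith
        have e : ((J : ℝ) + 1) * (2 / β) = 2 * ((J : ℝ) + 1) / β := by ring
        rw [e]
        linarith

lemma norm_one_sub_e (x : ℝ) : 4 * nint x ≤ ‖1 - e x‖ := by
  have h1 : e x = e (x - round x) := by
    have : x = (x - round x) + ((round x : ℤ) : ℝ) := by ring
    conv_lhs => rw [this, e_add_int]
  set y := x - round x with hy
  have hyabs : |y| ≤ 1 / 2 := abs_sub_round x
  have h2 : ‖1 - e y‖ = 2 * |Real.sin (Real.pi * y)| := by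
    have h3 : 1 - e y = -(2 * Complex.I) * Complex.sin ((Real.pi * y : ℝ) : ℂ) *
        Complex.exp (((Real.pi * y : ℝ) : ℂ) * Complex.I) := by
      unfold e
      have e1 : (((2 * Real.pi * y : ℝ) : ℂ) * Complex.I) =
          ((Real.pi * y : ℝ) : ℂ) * Complex.I + ((Real.pi * y : ℝ) : ℂ) * Complex.I := by
        push_cast; ring
      rw [e1, Complex.exp_add, Complex.sin]
      have e2 : Complex.exp (-((Real.pi * y : ℝ) : ℂ) * Complex.I) *
          Complex.exp (((Real.pi * y : ℝ) : ℂ) * Complex.I) = 1 := by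
        rw [← Complex.exp_add]
        simp
      have e3 := Complex.I_mul_I
      set E1 := Complex.exp (((Real.pi * y : ℝ) : ℂ) * Complex.I)
      set E2 := Complex.exp (-((Real.pi * y : ℝ) : ℂ) * Complex.I)
      have e4 : -(2 * Complex.I) * ((E2 - E1) * Complex.I / 2) * E1 =
          -(Complex.I * Complex.I) * (E2 * E1 - E1 * E1) := by ring
      rw [e4, e2, e3]
      ring
    rw [h3, norm_mul, norm_mul, norm_neg, norm_mul, Complex.norm_I, Complex.norm_exp_ofReal_mul_I,
      mul_one, mul_one]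
    rw [← Complex.ofReal_sin, Complex.norm_real, Real.norm_eq_abs]
    norm_num
  rw [h1, h2]
  have h4 : nint x = |y| := rfl
  rw [h4]
  have hpi := Real.pi_pos
  have h5 : 2 * |y| ≤ |Real.sin (Real.pi * y)| := by
    rcases le_total 0 y with h | h
    · rw [abs_of_nonneg h] at hyabs ⊢
      have h6 := Real.mul_le_sin (x := Real.pi * y) (by positivity) (by nlinarith)
      have h7 : 2 / Real.pi * (Real.pi * y) = 2 * y := by field_simp
      rw [h7] at h6
      exact h6.trans (le_abs_self _)
    · rw [abs_of_nonpos h] at hyabs ⊢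
      have h6 := Real.mul_le_sin (x := Real.pi * (-y)) (by
        have : 0 ≤ -y := by linarith
        positivity) (by nlinarith)
      have h7 : 2 / Real.pi * (Real.pi * (-y)) = 2 * (-y) := by field_simp
      rw [h7] at h6
      have h8 : Real.sin (Real.pi * (-y)) = -Real.sin (Real.pi * y) := by
        rw [mul_neg, Real.sin_neg]
      rw [h8] at h6
      exact h6.trans (neg_le_abs _)
  linarith

/-- geometric sum -/
lemma geom_le (x : ℝ) (n M : ℕ) (hn : n ≤ M) : ‖∑ m ∈ range n, e (x * m)‖ ≤ mn M x := by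
  have htriv : ‖∑ m ∈ range n, e (x * m)‖ ≤ M := by
    refine (norm_sum_le _ _).trans ?_
    simp only [norm_e, sum_const, card_range, nsmul_eq_mul, mul_one]
    exact_mod_cast hn
  unfold mn
  split_ifs with h
  · exact htriv
  · push Not at h
    have hu0 := nint_nonneg x
    have hpos : 0 < nint x := by
      by_contra hcon
      push Not at hcon
      have : nint x = 0 := le_antisymm hcon hu0
      rw [this] at h
      simp at h
      linarith
    have h1 := norm_one_sub_e x
    have hne : e x ≠ 1 := by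
      intro h2
      rw [h2, sub_self, norm_zero] at h1
      linarith
    have h2 : ∑ m ∈ range n, e (x * m) = ∑ m ∈ range n, (e x) ^ m := by
      refine sum_congr rfl fun m _ => ?_
      rw [e_pow, mul_comm]
    rw [h2, geom_sum_eq hne, norm_div]
    have h3 : ‖e x ^ n - 1‖ ≤ 2 := by
      refine (norm_sub_le _ _).trans ?_
      rw [norm_pow, norm_e, one_pow, norm_one]
      norm_num
    have h4 : ‖e x - 1‖ = ‖1 - e x‖ := norm_sub_rev _ _
    rw [h4, div_le_div_iff₀ (by linarith) (by positivity)]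
    nlinarith [norm_nonneg (e x ^ n - 1)]

lemma norm_e_sub (x y : ℝ) : ‖e x - e y‖ ≤ 7 * |x - y| := by
  have h1 : e x - e y = e y * (e (x - y) - 1) := by
    rw [mul_sub, ← e_add, mul_one]
    congr 2
    ring
  rw [h1, norm_mul, norm_e, one_mul]
  have h2 : ‖e (x - y) - 1‖ ≤ |2 * Real.pi * (x - y)| := by
    unfold e
    have h3 := Real.norm_exp_I_mul_ofReal_sub_one_le (x := 2 * Real.pi * (x - y))
    rw [Real.norm_eq_abs] at h3
    convert h3 using 3
    ring_nf
  refine h2.trans ?_
  rw [abs_mul, abs_mul]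
  have hpi := Real.pi_lt_d2
  have hpi0 := Real.pi_pos
  rw [abs_of_pos hpi0, abs_of_pos (by norm_num : (0 : ℝ) < 2)]
  have := abs_nonneg (x - y)
  nlinarith

/-- Abel summation -/
lemma abel_le (a b : ℕ → ℂ) (n : ℕ) (S V : ℝ) (hS : 0 ≤ S)
    (hA : ∀ k ≤ n, ‖∑ m ∈ range k, a m‖ ≤ S) (hb : ∀ m, ‖b m‖ ≤ 1)
    (hV : ∑ m ∈ range n, ‖b (m + 1) - b m‖ ≤ V) :
    ‖∑ m ∈ range n, a m * b m‖ ≤ S * (1 + V) := by
  have key : ∀ n : ℕ, ∑ m ∈ range n, a m * b m =
      (∑ m ∈ range n, a m) * b n - ∑ m ∈ range n, (∑ l ∈ range (m + 1), a l) * (b (m + 1) - b m) := by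
    intro n
    induction n with
    | zero => simp
    | succ n ih =>
      rw [sum_range_succ (fun m => a m * b m), ih,
        sum_range_succ (fun m => (∑ l ∈ range (m + 1), a l) * (b (m + 1) - b m)),
        sum_range_succ a n]
      ring
  rw [key]
  refine (norm_sub_le _ _).trans ?_
  have h1 : ‖(∑ m ∈ range n, a m) * b n‖ ≤ S := by
    rw [norm_mul]
    calc _ ≤ S * 1 := mul_le_mul (hA n le_rfl) (hb n) (norm_nonneg _) hS
      _ = S := mul_one _
  have h2 : ‖∑ m ∈ range n, (∑ l ∈ range (m + 1), a l) * (b (m + 1) - b m)‖ ≤ S * V := by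
    refine (norm_sum_le _ _).trans ?_
    calc ∑ m ∈ range n, ‖(∑ l ∈ range (m + 1), a l) * (b (m + 1) - b m)‖
        ≤ ∑ m ∈ range n, S * ‖b (m + 1) - b m‖ := by
          refine sum_le_sum fun m hm => ?_
          rw [norm_mul]
          rw [mem_range] at hm
          exact mul_le_mul_of_nonneg_right (hA (m + 1) (by omega)) (norm_nonneg _)
      _ = S * ∑ m ∈ range n, ‖b (m + 1) - b m‖ := by rw [mul_sum]
      _ ≤ S * V := mul_le_mul_of_nonneg_left hV hS
  linarith

end Pool.Agent.helper24_TP
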